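import Mathlib

/-!
# Generic additive functions on the multiplicative group
-/

set_option linter.unusedSectionVars false

namespace Pool.Agent.Y130

/-- An additive function which vanishes on a subgroup and not at a given element no power of which
is in the subgroup. -/
theorem exists_add_one {K : Type*} [Field K] [CharZero K] (H : Subgroup Kˣ) (x : Kˣ)
    (hx : ∀ k : ℕ, 0 < k → x ^ k ∉ H) :
    ∃ a : Additive Kˣ →+ K, (∀ h ∈ H, a (Additive.ofMul h) = 0) ∧ a (Additive.ofMul x) ≠ 0 := by
  have hB : Module.Baer ℤ K := Module.Baer.of_divisible K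
  let H' : AddSubgroup (Additive Kˣ) := Subgroup.toAddSubgroup H
  let y : Additive Kˣ ⧸ H' := QuotientAddGroup.mk (Additive.ofMul x)
  let f : ℤ →ₗ[ℤ] (Additive Kˣ ⧸ H') := LinearMap.toSpanSingleton ℤ (Additive Kˣ ⧸ H') y
  have hf : Function.Injective f := by
    rw [injective_iff_map_eq_zero]
    intro n hn
    have h2 : f n = QuotientAddGroup.mk (Additive.ofMul (x ^ n)) := by
      rw [ofMul_zpow]
      rfl
    rw [h2, QuotientAddGroup.eq_zero_iff] at hn
    have h1 : x ^ n ∈ H := hn
    by_contra h0
    have h3 : x ^ n.natAbs ∈ H := by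
      rcases Int.natAbs_eq n with h | h
      · rw [h, zpow_natCast] at h1
        exact h1
      · rw [h, zpow_neg, zpow_natCast] at h1
        exact inv_mem_iff.1 h1
    exact hx _ (Int.natAbs_pos.2 h0) h3
  obtain ⟨h, hh⟩ := Module.Baer.extension_property hB f hf (LinearMap.toSpanSingleton ℤ K (1 : K))
  refine ⟨h.toAddMonoidHom.comp (QuotientAddGroup.mk' H'), fun g hg => ?_, ?_⟩
  · have h1 : (QuotientAddGroup.mk' H') (Additive.ofMul g) = 0 :=
      (QuotientAddGroup.eq_zero_iff _).2 hg
    rw [AddMonoidHom.comp_apply, h1, map_zero]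
  · have h1 := congrArg (fun F : ℤ →ₗ[ℤ] K => F 1) hh
    have h2 : f 1 = y := one_smul _ _
    simp only [LinearMap.comp_apply, h2, LinearMap.toSpanSingleton_apply, one_smul] at h1
    change h y ≠ 0
    rw [h1]
    exact one_ne_zero

/-- An additive function which vanishes on a subgroup and at none of finitely many elements no power
of which is in the subgroup. -/
theorem exists_add_gen {K : Type*} [Field K] [CharZero K] (H : Subgroup Kˣ) {ι : Type*}
    (X : Finset ι) (x : ι → Kˣ) (hx : ∀ i ∈ X, ∀ k : ℕ, 0 < k → x i ^ k ∉ H) :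
    ∃ a : Additive Kˣ →+ K, (∀ h ∈ H, a (Additive.ofMul h) = 0) ∧
      ∀ i ∈ X, a (Additive.ofMul (x i)) ≠ 0 := by
  classical
  induction X using Finset.induction_on with
  | empty => exact ⟨0, fun _ _ => rfl, fun i hi => absurd hi (Finset.notMem_empty _)⟩
  | insert j X hj ih =>
    obtain ⟨a, ha, ha'⟩ := ih fun i hi => hx i (Finset.mem_insert_of_mem hi)
    obtain ⟨b, hb, hb'⟩ := exists_add_one H (x j) (hx j (Finset.mem_insert_self _ _))
    obtain ⟨t, ht⟩ := Infinite.exists_notMem_finset ((insert j X).image fun i =>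
      -(a (Additive.ofMul (x i))) / b (Additive.ofMul (x i)))
    refine ⟨a + ((AddMonoidHom.mulLeft t).comp b), fun h hh => ?_, fun i hi h0 => ?_⟩
    · rw [AddMonoidHom.add_apply, AddMonoidHom.comp_apply, ha h hh, hb h hh, map_zero, add_zero]
    · rw [AddMonoidHom.add_apply, AddMonoidHom.comp_apply, AddMonoidHom.coe_mulLeft] at h0
      by_cases hbi : b (Additive.ofMul (x i)) = 0
      · rw [hbi, mul_zero, add_zero] at h0
        rcases Finset.mem_insert.1 hi with rfl | hi'
        · exact hb' hbi
        · exact ha' i hi' h0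
      · apply ht
        refine Finset.mem_image.2 ⟨i, hi, ?_⟩
        rw [div_eq_iff hbi]
        linear_combination -h0

end Pool.Agent.Y130
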