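import Pool.Agent.Y130.Cen

/-!
# The Lie algebra contains all operators of the blocks
-/

set_option linter.unusedSectionVars false

open Module Finset Function

namespace Pool.Agent.Y130

open Pool.Agent.TH125.Gal Pool.Agent.TH118.SG

variable {K : Type} [Field K] [CharZero K] [IsAlgClosed K] {T : Type} [AddCommGroup T]
  [Module K T] [FiniteDimensional K T] {E : Type} [AddCommGroup E] [Module K E]
  [FiniteDimensional K E] {S : Type} [Fintype S] [DecidableEq S] {G : Type} [Group G]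
  {B : T →ₗ[K] T →ₗ[K] K} {ρ : G →* (T →ₗ[K] T)} {σ : G →* (E →ₗ[K] E)} {μ : G →* K}
  {C : Type} {U : C → Submodule K T} {star : C → C}

/-- The multiplicative group generated by the nonzero elements of a set. -/
def grp (A : Set K) : Subgroup Kˣ := Subgroup.closure {u | (u : K) ∈ A}

/-- The element `F` has independent determinant on the block `c`. -/
def CenF (f : End K T) (f' : End K E) (m : K) (U : C → Submodule K T) (star : C → C)
    (c : C) : Prop :=
  ∃ hf : ∀ d, ∀ x ∈ U d, f x ∈ U d, ∀ k : ℕ, 0 < k →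
    ∀ u ∈ grp ({m} ∪ {β | IsEig f' β} ∪
      {x | ∃ d, d ≠ c ∧ d ≠ star c ∧ x = LinearMap.det (f.restrict (hf d))}),
      (u : K) ≠ LinearMap.det (f.restrict (hf c)) ^ k

theorem exists_theta (A : Set K) {x : K} (hx : x ≠ 0)
    (h : ∀ k : ℕ, 0 < k → ∀ u ∈ grp A, (u : K) ≠ x ^ k) :
    ∃ θ : Additive Kˣ →+ K, (∀ a ∈ A, ext0 θ a = 0) ∧ ext0 θ x ≠ 0 := by
  obtain ⟨θ, h1, h2⟩ := exists_add_one (grp A) (Units.mk0 x hx) (fun k hk hmem =>
    h k hk _ hmem (by rw [Units.val_pow_eq_pow_val, Units.val_mk0]))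
  refine ⟨θ, fun a ha => ?_, ?_⟩
  · by_cases h0 : a = 0
    · rw [h0, ext0_zero]
    · rw [ext0_ne θ h0]
      exact h1 _ (Subgroup.subset_closure ha)
  · rw [ext0_ne θ hx]
    exact h2

/-- **All operators of the blocks are in the Lie algebra.** -/
theorem alg_main [Finite C] {s : K} (hs : s = 1 ∨ s = -1) (hsy : ∀ x y, B x y = s * B y x)
    (hB : ∀ g x y, B (ρ g x) (ρ g y) = μ g * B x y) {Δ₀ : Subgroup G}
    (h : Dat B ρ U star Δ₀)
    (hiso : ∀ c, finrank K (U c) ≤ 1 ∨ ∃ F a v, v ∈ U c ∧ IsoF (ρ F) (σ F) (μ F) a v)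
    (hcen : ∀ c, star c ≠ c → ∃ F, CenF (ρ F) (σ F) (μ F) U star c)
    (c : C) {x y : T} (hx : x ∈ U (star c)) (hy : y ∈ U c) : pp B s x y ∈ LL S B ρ σ := by
  classical
  have := Fintype.ofFinite C
  have hss : s * s = 1 := by rcases hs with h | h <;> rw [h] <;> norm_num
  have hfam := h.fam
  choose v hv w hw hwv hP hP0 using fun c => blk_main (S := S) hs hsy hB h c (hiso c)
  by_cases hc : star c = c
  · rw [hc] at hx
    exact QQ_LL (hP0 c hc x hx y hy)
  obtain ⟨F, hf, hF⟩ := hcen c hc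
  have hinj := rho_inj ρ F
  have hdet : LinearMap.det ((ρ F).restrict (hf c)) ≠ 0 := by
    intro h0
    have h1 := LinearMap.bot_lt_ker_of_det_eq_zero h0
    obtain ⟨z, hz, hz0⟩ := Submodule.exists_mem_ne_zero_of_ne_bot h1.ne'
    apply hz0
    have h2 : ρ F (z : T) = 0 := congrArg Subtype.val (LinearMap.mem_ker.1 hz)
    exact Subtype.ext (hinj (by rw [h2, ZeroMemClass.coe_zero, map_zero]))
  obtain ⟨θ, hθ, hθ'⟩ := exists_theta _ hdet hF
  obtain ⟨D, hD⟩ := exists_op (ρ F : End K T) (ext0 θ)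
  obtain ⟨D', hD'⟩ := exists_op (σ F : End K E) (ext0 θ)
  have hm : ext0 θ (μ F) = 0 := hθ _ (Or.inl (Or.inl rfl))
  have hD0 : D' = 0 := by
    obtain ⟨ι', _, b', β', hb'⟩ := exists_genBasis (σ F : End K E)
    refine b'.ext fun i => ?_
    rw [hD' _ _ (hb' i), hθ _ (Or.inl (Or.inr (isEig_of_gen (b'.ne_zero i) (hb' i)))), zero_smul,
      LinearMap.zero_apply]
  have hDL : D ∈ Q0 (QQ S B ρ σ U) := by
    have h1 := QQ_theta (S := S) hB F one_pos (fun c x hx => by rw [pow_one]; exact hf c x hx) θ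
      hD hD'
    rw [hm, hD0] at h1
    exact h1
  obtain ⟨ι, _, b, κ, β, hb, hbβ, hprod⟩ := exists_adapted hfam hf
  have hβ : ∀ i, β i ≠ 0 := by
    intro i h0
    obtain ⟨z, hz, hz'⟩ := isEig_of_gen (b.ne_zero i) (hbβ i)
    rw [h0, zero_smul] at hz'
    exact hz (hinj (by rw [hz', map_zero]))
  have hsum : ∀ e, ∑ i with κ i = e, ext0 θ (β i) =
      ext0 θ (LinearMap.det ((ρ F).restrict (hf e))) := by
    intro e
    rw [← hprod e, ext0_prod θ _ _ fun i _ => hβ i]
  have hPc := center_mem hss hsy hfam (L := Q0 (QQ S B ρ σ U)) (P := fun e => pp B s (w e) (v e))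
    (fun e x hx y hy => hP e x hx y hy) (fun e he => by
      have h1 := hw e
      rw [he] at h1
      exact hP0 e he _ h1 _ (hv e)) hDL
    (fun x y => by
      have h1 := (trip_QQ (S := S) (σ := σ) (U := U)).form _ hDL x y
      change B (D x) y + B x (D y) = 0 * B x y at h1
      rw [zero_mul] at h1
      exact h1) hb (fun i => hD _ _ (hbβ i)) hc
    (by rw [hsum]; exact hθ')
    (fun e he1 he2 _ => by
      rw [hsum]
      exact hθ _ (Or.inr ⟨e, he1, he2, rfl⟩))
    ⟨w c, hw c, v c, hv c, hwv c⟩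
  have h1 := Submodule.add_mem _ (hP c x hx y hy) (Submodule.smul_mem _ (B x y) hPc)
  rw [sub_add_cancel] at h1
  exact QQ_LL h1

end Pool.Agent.Y130
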