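import Pool.Agent.Y130.Tor

/-!
# The Lie algebra on the blocks
-/

set_option linter.unusedSectionVars false

open Module Finset Function

namespace Pool.Agent.Y130

open Pool.Agent.TH125.Gal Pool.Agent.TH118.SG

section fam

variable {K : Type} [Field K] {T : Type} [AddCommGroup T] [Module K T]
  {B : T →ₗ[K] T →ₗ[K] K} {C : Type} {U : C → Submodule K T} {star : C → C}

/-- The subspaces `U c` span `T`, and `U c` is orthogonal to all `U d` except for `U (star c)`. -/
structure Fam (B : T →ₗ[K] T →ₗ[K] K) (U : C → Submodule K T) (star : C → C) : Prop where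
  nd : ∀ x, (∀ y, B x y = 0) → x = 0
  sup : ⨆ c, U c = ⊤
  orth : ∀ c d, d ≠ star c → ∀ x ∈ U c, ∀ y ∈ U d, B x y = 0
  star_star : ∀ c, star (star c) = c

theorem Fam.ext (h : Fam B U star) {x : T} (hx : ∀ c, ∀ y ∈ U c, B x y = 0) : x = 0 := by
  apply h.nd
  intro y
  have hy : y ∈ ⨆ c, U c := by rw [h.sup]; exact Submodule.mem_top
  induction hy using Submodule.iSup_induction' with
  | mem c y hy => exact hx c y hy
  | zero => rw [map_zero]
  | add y z _ _ hy hz => rw [map_add, hy, hz, add_zero]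

theorem Fam.star_inj (h : Fam B U star) {c d : C} (hcd : star c = star d) : c = d := by
  rw [← h.star_star c, hcd, h.star_star]

theorem Fam.disj (h : Fam B U star) {c d : C} (hcd : c ≠ d) {x : T} (hc : x ∈ U c)
    (hd : x ∈ U d) : x = 0 := by
  refine h.ext fun e y hy => ?_
  by_cases he : e = star c
  · refine h.orth d e (fun he' => hcd ?_) x hd y hy
    exact h.star_inj (he.symm.trans he')
  · exact h.orth c e he x hc y hy

theorem Fam.mem_star (h : Fam B U star) {c : C} {x : T}
    (hx : ∀ d, d ≠ c → ∀ y ∈ U d, B x y = 0) : x ∈ U (star c) := by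
  have hx' : x ∈ ⨆ c, U c := by rw [h.sup]; exact Submodule.mem_top
  have h1 : ∀ x ∈ ⨆ c, U c, ∃ x1 ∈ U (star c), ∃ x2, x = x1 + x2 ∧ ∀ y ∈ U c, B x2 y = 0 := by
    intro x hx
    induction hx using Submodule.iSup_induction' with
    | mem e x hx =>
      by_cases he : e = star c
      · subst he
        exact ⟨x, hx, 0, (add_zero x).symm, fun y _ => by rw [map_zero, LinearMap.zero_apply]⟩
      · refine ⟨0, Submodule.zero_mem _, x, (zero_add x).symm, fun y hy => ?_⟩
        refine h.orth e c (fun h' => he ?_) x hx y hy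
        rw [h', h.star_star]
    | zero => exact ⟨0, Submodule.zero_mem _, 0, (add_zero _).symm, fun y _ => by
        rw [map_zero, LinearMap.zero_apply]⟩
    | add x y _ _ hx hy =>
      obtain ⟨x1, hx1, x2, rfl, hx2⟩ := hx
      obtain ⟨y1, hy1, y2, rfl, hy2⟩ := hy
      refine ⟨x1 + y1, Submodule.add_mem _ hx1 hy1, x2 + y2, by abel, fun z hz => ?_⟩
      rw [map_add, LinearMap.add_apply, hx2 z hz, hy2 z hz, add_zero]
  obtain ⟨x1, hx1, x2, hxx, hx2⟩ := h1 x hx'
  have h2 : x2 = 0 := by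
    refine h.ext fun d y hy => ?_
    by_cases hd : d = c
    · subst hd
      exact hx2 y hy
    · have h3 := hx d hd y hy
      rw [hxx, map_add, LinearMap.add_apply, h.orth (star c) d (by rw [h.star_star]; exact hd)
        x1 hx1 y hy, zero_add] at h3
      exact h3
  rw [hxx, h2, add_zero]
  exact hx1

theorem Fam.exists_pair (h : Fam B U star) {c : C} {v : T} {s : K} (hs : s * s = 1)
    (hsy : ∀ x y, B x y = s * B y x) (hv : v ∈ U c) (hv0 : v ≠ 0) :
    ∃ w ∈ U (star c), B w v = 1 := by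
  have h1 : ∃ w ∈ U (star c), B v w ≠ 0 := by
    by_contra hcon
    push Not at hcon
    apply hv0
    refine h.ext fun d y hy => ?_
    by_cases hd : d = star c
    · subst hd
      exact hcon y hy
    · exact h.orth c d hd v hv y hy
  obtain ⟨w, hw, hvw⟩ := h1
  have h2 : B w v ≠ 0 := by
    intro h3
    apply hvw
    rw [hsy, h3, mul_zero]
  exact ⟨(B w v)⁻¹ • w, Submodule.smul_mem _ _ hw, by
    rw [map_smul, LinearMap.smul_apply, smul_eq_mul, inv_mul_cancel₀ h2]⟩

theorem Fam.indep (h : Fam B U star) : iSupIndep U := by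
  intro c
  rw [Submodule.disjoint_def]
  intro x hx hx'
  have h1 : ∀ y ∈ U (star c), B x y = 0 := by
    intro y hy
    have h2 : ∀ x ∈ ⨆ d, ⨆ (_ : d ≠ c), U d, B x y = 0 := by
      intro x hx
      induction hx using Submodule.iSup_induction' with
      | mem d x hx =>
        by_cases hd : d = c
        · subst hd
          simp only [ne_eq, not_true_eq_false, iSup_false, Submodule.mem_bot] at hx
          rw [hx, map_zero, LinearMap.zero_apply]
        · simp only [ne_eq, hd, not_false_eq_true, iSup_pos] at hx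
          exact h.orth d (star c) (fun h3 => hd (h.star_inj h3).symm) x hx y hy
      | zero => rw [map_zero, LinearMap.zero_apply]
      | add a b _ _ ha hb => rw [map_add, LinearMap.add_apply, ha, hb, add_zero]
    exact h2 x hx'
  refine h.ext fun d y hy => ?_
  by_cases hd : d = star c
  · subst hd
    exact h1 y hy
  · exact h.orth c d hd x hx y hy

end fam

variable {K : Type} [Field K] [CharZero K] [IsAlgClosed K] {T : Type} [AddCommGroup T]
  [Module K T] [FiniteDimensional K T] {E : Type} [AddCommGroup E] [Module K E]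
  [FiniteDimensional K E] {S : Type} [Fintype S] [DecidableEq S] {G : Type} [Group G]
  {B : T →ₗ[K] T →ₗ[K] K} {ρ : G →* (T →ₗ[K] T)} {σ : G →* (E →ₗ[K] E)} {μ : G →* K}
  {C : Type} {U : C → Submodule K T} {star : C → C}

theorem op_stab {f : End K T} {g : K → K} {Y : End K T}
    (hY : ∀ β, ∀ x ∈ f.maxGenEigenspace β, Y x = g β • x) {p : Submodule K T}
    (hp : ∀ x ∈ p, f x ∈ p) : ∀ x ∈ p, Y x ∈ p := by
  intro x hx
  have h1 := Submodule.eq_iSup_inf_genEigenspace (f := f) (p := p) ⊤ hp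
    (Module.End.iSup_maxGenEigenspace_eq_top f)
  rw [h1] at hx
  induction hx using Submodule.iSup_induction' with
  | mem β x hx =>
    rw [hY β x hx.2]
    exact p.smul_mem _ hx.1
  | zero => rw [map_zero]; exact p.zero_mem
  | add x y _ _ hx hy => rw [map_add]; exact p.add_mem hx hy

/-- The triple attached to an element of the group respects the subspaces. -/
theorem QQ_theta (hB : ∀ g x y, B (ρ g x) (ρ g y) = μ g * B x y) (F : G) {M : ℕ} (hM : 0 < M)
    (hF : ∀ c, ∀ x ∈ U c, ρ (F ^ M) x ∈ U c)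
    (θ : Additive Kˣ →+ K) {Y : End K T}
    (hY : ∀ β, ∀ x ∈ Module.End.maxGenEigenspace (ρ F) β, Y x = ext0 θ β • x) {Y' : End K E}
    (hY' : ∀ β, ∀ x ∈ Module.End.maxGenEigenspace (σ F) β, Y' x = ext0 θ β • x) :
    (Y, ext0 θ (μ F), Y') ∈ QQ S B ρ σ U := by
  refine ⟨PP_theta hB F θ hY hY', fun c => ?_⟩
  have h1 := op_pow θ (ρ F) hY hM
  refine op_stab (f := (ρ F) ^ M) (g := fun γ => ext0 θ γ / M) h1 ?_
  intro x hx
  rw [← map_pow]
  exact hF c x hx

theorem surj_B (hnd : ∀ x, (∀ y, B x y = 0) → x = 0) (φ : T →ₗ[K] K) : ∃ w, B w = φ := by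
  have h2 : Function.Injective B :=
    (injective_iff_map_eq_zero _).2 fun a ha => hnd a fun b => by rw [ha]; rfl
  exact (LinearMap.injective_iff_surjective_of_finrank_eq_finrank
    (Subspace.dual_finrank_eq).symm).1 h2 φ

/-- **An isolated eigenvalue gives an isolated weight.** -/
theorem exists_isol {s : K} (hnd : ∀ x, (∀ y, B x y = 0) → x = 0)
    (hB : ∀ g x y, B (ρ g x) (ρ g y) = μ g * B x y) {F : G} {M : ℕ} (hM : 0 < M)
    (hF : ∀ c, ∀ x ∈ U c, ρ (F ^ M) x ∈ U c) {a : K} {v : T}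
    (h : IsoF (ρ F) (σ F) (μ F) a v) :
    ∃ (ι : Type) (_ : Fintype ι) (ι' : Type) (_ : Fintype ι') (b : Basis ι K T) (d : ι → K)
      (b' : Basis ι' K E) (d' : ι' → K) (D : End K T) (cD : K) (D' : End K E) (a' : K) (w : T),
      Isol B s (QQ S B ρ σ U) b d b' d' D cD D' a' v w := by
  obtain ⟨ι, _, b, β, hb⟩ := exists_genBasis (ρ F : End K T)
  obtain ⟨ι', _, b', β', hb'⟩ := exists_genBasis (σ F : End K E)
  have hβ : ∀ i, β i ≠ 0 := by
    intro i h0
    obtain ⟨x, hx, hx'⟩ := isEig_of_gen (b.ne_zero i) (hb i)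
    rw [h0, zero_smul] at hx'
    exact hx (rho_inj ρ F (by rw [hx', map_zero]))
  have hβ' : ∀ i, β' i ≠ 0 := by
    intro i h0
    obtain ⟨x, hx, hx'⟩ := isEig_of_gen (b'.ne_zero i) (hb' i)
    rw [h0, zero_smul] at hx'
    exact hx (rho_inj σ F (by rw [hx', map_zero]))
  have ha : a ≠ 0 := by
    rintro rfl
    have h1 := h.eig
    rw [zero_smul] at h1
    exact h.ne (rho_inj ρ F (by rw [h1, map_zero]))
  have hEig : ∀ i, IsEig (ρ F) (β i) := fun i => isEig_of_gen (b.ne_zero i) (hb i)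
  have hEig' : ∀ i, IsEig (σ F) (β' i) := fun i => isEig_of_gen (b'.ne_zero i) (hb' i)
  obtain ⟨θ, hθ⟩ := exists_sep (K := K) (J := ι ⊕ (ι × ι × ι) ⊕ (ι' × ι' × ι))
    (fun j => match j with
      | Sum.inl i => β i
      | Sum.inr (Sum.inl p) => a * β p.1
      | Sum.inr (Sum.inr p) => a * β' p.1)
    (fun j => match j with
      | Sum.inl _ => a
      | Sum.inr (Sum.inl p) => β p.2.2 * β p.2.1
      | Sum.inr (Sum.inr p) => β p.2.2 * β' p.2.1)
    (by
      rintro (i | p | p)
      · exact hβ i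
      · exact mul_ne_zero ha (hβ _)
      · exact mul_ne_zero ha (hβ' _))
    (by
      rintro (i | p | p)
      · exact ha
      · exact mul_ne_zero (hβ _) (hβ _)
      · exact mul_ne_zero (hβ _) (hβ' _))
  obtain ⟨D, hD⟩ := exists_op (ρ F : End K T) (ext0 θ)
  obtain ⟨D', hD'⟩ := exists_op (σ F : End K E) (ext0 θ)
  have hva : v ∈ Module.End.maxGenEigenspace (ρ F : End K T) a := mem_gen.2 ⟨1, by
    rw [pow_one, LinearMap.sub_apply, h.eig, Module.algebraMap_end_apply, sub_self]⟩
  have hDb : ∀ i, D (b i) = ext0 θ (β i) • b i := fun i => hD _ _ (hb i)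
  have hDv : D v = ext0 θ a • v := hD _ _ hva
  have hsimp : ∀ i, ext0 θ (β i) = ext0 θ a → b i ∈ Submodule.span K {v} := by
    intro i hi
    exact h.simple (β i) (hθ (Sum.inl i) hi) _ (hb i)
  -- the coefficient of `v`
  have hκ : ∀ i, ∃ κ : K, (ext0 θ (β i) = ext0 θ a → b i = κ • v) ∧
      (ext0 θ (β i) ≠ ext0 θ a → κ = 0) := by
    intro i
    by_cases hi : ext0 θ (β i) = ext0 θ a
    · obtain ⟨κ, hκ⟩ := Submodule.mem_span_singleton.1 (hsimp i hi)
      exact ⟨κ, fun _ => hκ.symm, fun h => absurd hi h⟩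
    · exact ⟨0, fun h => absurd h hi, fun _ => rfl⟩
  choose κ hκ1 hκ2 using hκ
  obtain ⟨w, hw⟩ := surj_B hnd (b.constr K κ)
  have hwb : ∀ i, B w (b i) = κ i := by
    intro i
    rw [hw, Basis.constr_basis]
  have hrep : ∀ i, ext0 θ (β i) ≠ ext0 θ a → b.repr v i = 0 := by
    intro i hi
    have h5 : b.repr (D v) i = ext0 θ (β i) * b.repr v i := by
      conv_lhs => rw [← b.sum_repr v]
      rw [map_sum, map_sum, Finset.sum_apply']
      rw [Finset.sum_eq_single i]
      · rw [map_smul, hDb, map_smul, map_smul, Finsupp.smul_apply, Finsupp.smul_apply,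
          Basis.repr_self, Finsupp.single_eq_same, smul_eq_mul, smul_eq_mul]
        ring
      · intro j _ hj
        rw [map_smul, hDb, map_smul, map_smul, Finsupp.smul_apply, Finsupp.smul_apply,
          Basis.repr_self, Finsupp.single_eq_of_ne (Ne.symm hj)]
        simp
      · intro h
        exact absurd (Finset.mem_univ _) h
    rw [hDv, map_smul, Finsupp.smul_apply, smul_eq_mul] at h5
    have h6 : (ext0 θ (β i) - ext0 θ a) * b.repr v i = 0 := by linear_combination -h5
    exact (mul_eq_zero.1 h6).resolve_left (sub_ne_zero.2 hi)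
  have hwv : B w v = 1 := by
    have h1 : v = (∑ i, b.repr v i * κ i) • v := by
      conv_lhs => rw [← b.sum_repr v]
      rw [Finset.sum_smul]
      refine Finset.sum_congr rfl fun i _ => ?_
      by_cases hi : ext0 θ (β i) = ext0 θ a
      · rw [hκ1 i hi, smul_smul]
      · rw [hrep i hi, zero_mul, zero_smul, zero_smul]
    have h2 : B w v = ∑ i, b.repr v i * κ i := by
      conv_lhs => rw [← b.sum_repr v]
      rw [map_sum]
      refine Finset.sum_congr rfl fun i _ => ?_
      rw [map_smul, hwb, smul_eq_mul]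
    rw [h2]
    have h3 : (1 - ∑ i, b.repr v i * κ i) • v = 0 := by
      rw [sub_smul, one_smul, ← h1, sub_self]
    exact (sub_eq_zero.1 ((smul_eq_zero.1 h3).resolve_right h.ne)).symm
  refine ⟨ι, inferInstance, ι', inferInstance, b, fun i => ext0 θ (β i), b',
    fun i => ext0 θ (β' i), D, ext0 θ (μ F), D', ext0 θ a, w,
    QQ_theta hB F hM hF θ hD hD', hDb, fun i => hD' _ _ (hb' i), hnd, hDv, hsimp,
    fun i hi => by rw [hwb, hκ2 i hi], hwv, fun i j k hijk => ?_, fun k hk i j hij => ?_⟩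
  · have h1 : ext0 θ (a * β i) = ext0 θ (β k * β j) := by
      rw [ext0_mul θ ha (hβ i), ext0_mul θ (hβ k) (hβ j)]
      linear_combination hijk
    rcases h.rel _ _ _ (hEig k) (hEig j) (hEig i) (hθ (Sum.inr (Sum.inl (i, j, k))) h1) with
      h2 | h2 | h2
    · exact Or.inl (ext0_rootEq θ h2)
    · exact Or.inr (Or.inl (ext0_rootEq θ h2))
    · right; right
      have h3 := ext0_rootEq θ h2
      rw [ext0_mul θ ha (hβ i)] at h3
      beta_reduce
      rw [← h3]
      ring
  · have h1 : ext0 θ (a * β' i) = ext0 θ (β k * β' j) := by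
      rw [ext0_mul θ ha (hβ' i), ext0_mul θ (hβ k) (hβ' j)]
      linear_combination hij
    exact hk (ext0_rootEq θ (h.rel' _ _ _ (hEig k) (hEig' j) (hEig' i)
      (hθ (Sum.inr (Sum.inr (i, j, k))) h1)))

/-- the projection onto the line of an isolated weight -/
theorem proj_mem {s : K} {Q : Submodule K (End K T × K × End K E)} {ι ι' : Type} [Fintype ι]
    [Fintype ι'] {b : Basis ι K T} {d : ι → K} {b' : Basis ι' K E} {d' : ι' → K} {D : End K T}
    {cD a : K} {D' : End K E} {v w : T} (I : Isol B s Q b d b' d' D cD D' a v w) :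
    (B w).smulRight v ∈ AA (Q1 Q) := by
  classical
  have hDA : D ∈ AA (Q1 Q) := Algebra.subset_adjoin (mem_Q1.2 ⟨_, _, I.mem⟩)
  let t : Finset K := (univ.image d).erase a
  let P : Polynomial K := ∏ m ∈ t, (Polynomial.X - Polynomial.C m)
  have hP : ∀ i, (Polynomial.aeval D P) (b i) = P.eval (d i) • b i := by
    intro i
    exact Module.End.aeval_apply_of_hasEigenvector
      ⟨Module.End.mem_eigenspace_iff.2 (I.diag i), b.ne_zero i⟩
  have hPa : P.eval a ≠ 0 := by
    rw [Polynomial.eval_prod]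
    refine Finset.prod_ne_zero_iff.2 fun m hm => ?_
    rw [Polynomial.eval_sub, Polynomial.eval_X, Polynomial.eval_C]
    exact sub_ne_zero.2 (Ne.symm (Finset.ne_of_mem_erase hm))
  have hP0 : ∀ i, d i ≠ a → P.eval (d i) = 0 := by
    intro i hi
    rw [Polynomial.eval_prod]
    refine Finset.prod_eq_zero (i := d i) (Finset.mem_erase.2 ⟨hi, Finset.mem_image.2
      ⟨i, mem_univ _, rfl⟩⟩) ?_
    rw [Polynomial.eval_sub, Polynomial.eval_X, Polynomial.eval_C, sub_self]
  have h1 : (B w).smulRight v = (P.eval a)⁻¹ • Polynomial.aeval D P := by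
    refine b.ext fun i => ?_
    rw [LinearMap.smul_apply, hP, LinearMap.smulRight_apply, smul_smul]
    by_cases hi : d i = a
    · obtain ⟨κ, hκ⟩ := Submodule.mem_span_singleton.1 (I.simp i hi)
      rw [hi, inv_mul_cancel₀ hPa, one_smul, ← hκ, map_smul, I.pair, smul_eq_mul, mul_one]
    · rw [hP0 i hi, mul_zero, zero_smul, I.orth i hi, zero_smul]
  rw [h1]
  refine Subalgebra.smul_mem _ ?_ _
  have h2 : Algebra.adjoin K {D} ≤ AA (Q1 Q) := Algebra.adjoin_le (by
    intro x hx
    rw [Set.mem_singleton_iff] at hx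
    rw [hx]
    exact hDA)
  exact h2 (Polynomial.aeval_mem_adjoin_singleton K D)

/-- **The data for the Lie algebra argument.** -/
theorem iso_of_isol {s : K} (hs : s * s = 1) (hsy : ∀ x y, B x y = s * B y x)
    {Q : Submodule K (End K T × K × End K E)} (hQ : Trip B Q) {ι ι' : Type} [Fintype ι]
    [Fintype ι'] {b : Basis ι K T} {d : ι → K} {b' : Basis ι' K E} {d' : ι' → K} {D : End K T}
    {cD a : K} {D' : End K E} {v w : T} (I : Isol B s Q b d b' d' D cD D' a v w)
    {G₀ : Type} [Group G₀] {R : G₀ →* End K T}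
    (hconj : ∀ g : G₀, ∀ Y ∈ Q1 Q, R g * Y * R g⁻¹ ∈ Q1 Q) {V V' : Submodule K T}
    (hirr : ∀ Δ : Subgroup G₀, Δ.FiniteIndex → ∀ U' ≤ V, (∀ g ∈ Δ, ∀ x ∈ U', R g x ∈ U') →
      U' = ⊥ ∨ U' = V) (hv : v ∈ V) (hw : w ∈ V') :
    Iso B s (Q1 Q) (Q0 Q) V V' v w :=
  ⟨hv, hw, I.pair, fun _ hY => I.ext hs hsy hQ hY, fun _ hMV hvM hM =>
    irr_of hconj hirr hv I.pair (proj_mem I) (fun _ => rfl) hMV hvM hM⟩

end Pool.Agent.Y130
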