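import Pool.Agent.Y130.Blk

/-!
# The special linear, orthogonal and symplectic Lie algebras of the blocks
-/

set_option linter.unusedSectionVars false

open Module Finset Function

namespace Pool.Agent.Y130

open Pool.Agent.TH125.Gal Pool.Agent.TH118.SG

variable {K : Type} [Field K] [CharZero K] [IsAlgClosed K] {T : Type} [AddCommGroup T]
  [Module K T] [FiniteDimensional K T] {E : Type} [AddCommGroup E] [Module K E]
  [FiniteDimensional K E] {S : Type} [Fintype S] [DecidableEq S] {G : Type} [Group G]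
  {B : T →ₗ[K] T →ₗ[K] K} {ρ : G →* (T →ₗ[K] T)} {σ : G →* (E →ₗ[K] E)} {μ : G →* K}
  {C : Type} {U : C → Submodule K T} {star : C → C}

/-- The decomposition into strongly irreducible subspaces. -/
structure Dat (B : T →ₗ[K] T →ₗ[K] K) (ρ : G →* (T →ₗ[K] T)) (U : C → Submodule K T)
    (star : C → C) (Δ₀ : Subgroup G) : Prop where
  fam : Fam B U star
  fin : Δ₀.FiniteIndex
  stab : ∀ g ∈ Δ₀, ∀ c, ∀ x ∈ U c, ρ g x ∈ U c
  ne : ∀ c, U c ≠ ⊥
  irr : ∀ c, ∀ Δ : Subgroup G, Δ.FiniteIndex → ∀ V ≤ U c, (∀ g ∈ Δ, ∀ x ∈ V, ρ g x ∈ V) →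
    V = ⊥ ∨ V = U c

theorem AA_stab {L₁ : Submodule K (End K T)} {p : Submodule K T}
    (h : ∀ Y ∈ L₁, ∀ x ∈ p, Y x ∈ p) {a : End K T} (ha : a ∈ AA L₁) : ∀ x ∈ p, a x ∈ p := by
  induction ha using Algebra.adjoin_induction with
  | mem x hx => exact h x hx
  | algebraMap r =>
    intro x hx
    rw [Module.algebraMap_end_apply]
    exact p.smul_mem _ hx
  | add a b _ _ ha hb => exact fun x hx => p.add_mem (ha x hx) (hb x hx)
  | mul a b _ _ ha hb => exact fun x hx => ha _ (hb x hx)

/-- lines -/
theorem eq_smul_of_le_one {V : Submodule K T} (h : finrank K V ≤ 1) {v x : T} (hv : v ∈ V)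
    (hv0 : v ≠ 0) (hx : x ∈ V) : ∃ r : K, x = r • v := by
  have h1 : Submodule.span K {v} = V := by
    refine Submodule.eq_of_le_of_finrank_le ?_ ?_
    · rw [Submodule.span_singleton_le_iff_mem]
      exact hv
    · rw [finrank_span_singleton hv0]
      exact h
  rw [← h1] at hx
  obtain ⟨r, hr⟩ := Submodule.mem_span_singleton.1 hx
  exact ⟨r, hr.symm⟩

/-- **The Lie algebra of a block.** -/
theorem blk_main {s : K} (hs : s = 1 ∨ s = -1) (hsy : ∀ x y, B x y = s * B y x)
    (hB : ∀ g x y, B (ρ g x) (ρ g y) = μ g * B x y) {Δ₀ : Subgroup G}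
    (h : Dat B ρ U star Δ₀) (c : C)
    (hc : finrank K (U c) ≤ 1 ∨ ∃ F a v, v ∈ U c ∧ IsoF (ρ F) (σ F) (μ F) a v) :
    ∃ v ∈ U c, ∃ w ∈ U (star c), B w v = 1 ∧
      (∀ x ∈ U (star c), ∀ y ∈ U c, pp B s x y - B x y • pp B s w v ∈ Q0 (QQ S B ρ σ U)) ∧
      (star c = c → ∀ x ∈ U c, ∀ y ∈ U c, pp B s x y ∈ Q0 (QQ S B ρ σ U)) := by
  have hss : s * s = 1 := by rcases hs with h | h <;> rw [h] <;> norm_num
  have hfam := h.fam
  rcases hc with hc | ⟨F, a, v, hv, hI⟩
  · -- lines
    obtain ⟨v, hv, hv0⟩ := Submodule.exists_mem_ne_zero_of_ne_bot (h.ne c)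
    obtain ⟨w, hw, hwv⟩ := hfam.exists_pair hss hsy hv hv0
    have hline : ∀ y ∈ U c, ∃ r : K, y = r • v := fun y hy => eq_smul_of_le_one hc hv hv0 hy
    have hline' : ∀ x ∈ U (star c), x = B x v • w := by
      intro x hx
      rw [← sub_eq_zero]
      refine hfam.ext fun d y hy => ?_
      by_cases hd : d = c
      · subst hd
        obtain ⟨r, rfl⟩ := hline y hy
        rw [map_smul, map_sub, map_smul, LinearMap.sub_apply, LinearMap.smul_apply, hwv]
        simp
      · refine hfam.orth (star c) d (by rw [hfam.star_star]; exact hd) _ ?_ y hy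
        exact Submodule.sub_mem _ hx (Submodule.smul_mem _ _ hw)
    refine ⟨v, hv, w, hw, hwv, fun x hx y hy => ?_, fun hcc x hx y hy => ?_⟩
    · obtain ⟨r, rfl⟩ := hline y hy
      have h1 := hline' x hx
      have h2 : pp B s x (r • v) - B x (r • v) • pp B s w v = 0 := by
        rw [pp_smul_right, map_smul]
        conv_lhs => rw [h1]
        rw [pp_smul_left, map_smul, LinearMap.smul_apply, hwv, smul_eq_mul, smul_eq_mul, mul_one,
          smul_smul, sub_self]
      rw [h2]
      exact Submodule.zero_mem _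
    · have hvv : pp B s v v = 0 := by
        rcases hs with hs1 | hs1
        · rw [hs1, ppo_self]
        · exfalso
          rw [hcc] at hw
          obtain ⟨r, hr⟩ := hline w hw
          have h1 : B v v = 0 := alt_of (by rw [← hs1]; exact hsy) v
          rw [hr, map_smul, LinearMap.smul_apply, h1, smul_zero] at hwv
          exact zero_ne_one hwv
      obtain ⟨r, rfl⟩ := hline x hx
      obtain ⟨r', rfl⟩ := hline y hy
      rw [pp_smul_left, pp_smul_right, hvv, smul_zero, smul_zero]
      exact Submodule.zero_mem _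
  · -- isolated eigenvalues
    have hQ : Trip B (QQ S B ρ σ U) := trip_QQ
    obtain ⟨M, hM, hFM⟩ := exists_pow h.fin F
    obtain ⟨ι, _, ι', _, b, d, b', d', D, cD, D', a', w, I⟩ :=
      exists_isol (S := S) (s := s) hfam.nd hB hM (fun c x hx => h.stab _ hFM c x hx) hI
    have hv0 : v ≠ 0 := hI.ne
    have hstab : ∀ c, ∀ Y ∈ Q1 (QQ S B ρ σ U), ∀ x ∈ U c, Y x ∈ U c := fun c Y hY =>
      QQ_stab hY c
    have hw : w ∈ U (star c) := by
      refine hfam.mem_star fun d hd y hy => ?_
      have h1 := AA_stab (hstab d) (proj_mem I) y hy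
      have h2 : B w y • v ∈ U c := Submodule.smul_mem _ _ hv
      exact (smul_eq_zero.1 (hfam.disj hd h1 h2)).resolve_right hv0
    let R : Δ₀ →* End K T := ρ.comp Δ₀.subtype
    have hconj : ∀ g : Δ₀, ∀ Y ∈ Q1 (QQ S B ρ σ U), R g * Y * R g⁻¹ ∈ Q1 (QQ S B ρ σ U) := by
      intro g Y hY
      exact QQ_conj hB (fun c x hx => h.stab g g.2 c x hx)
        (fun c x hx => h.stab g⁻¹ (Subgroup.inv_mem _ g.2) c x hx) hY
    have hirr : ∀ c, ∀ Δ : Subgroup Δ₀, Δ.FiniteIndex → ∀ V ≤ U c,
        (∀ g ∈ Δ, ∀ x ∈ V, R g x ∈ V) → V = ⊥ ∨ V = U c := by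
      intro c Δ hΔ V hV hst
      refine h.irr c (Δ.map Δ₀.subtype) ?_ V hV ?_
      · refine ⟨?_⟩
        rw [Subgroup.index_map_subtype]
        exact mul_ne_zero hΔ.index_ne_zero h.fin.index_ne_zero
      · rintro _ ⟨g, hg, rfl⟩ x hx
        exact hst g hg x hx
    have J := iso_of_isol hss hsy hQ I hconj (hirr c) hv hw
    have I' := I.dual hss hsy hQ
    have J' := iso_of_isol hss hsy hQ I' hconj (hirr (star c)) hw
      (Submodule.smul_mem (U c) s hv)
    have hwv := I.pair
    have key : (∀ x ∈ U (star c), ∀ y ∈ U c,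
        pp B s x y - B x y • pp B s w v ∈ Q0 (QQ S B ρ σ U)) ∧
      (star c = c → ∀ x ∈ U c, ∀ y ∈ U c, pp B s x y ∈ Q0 (QQ S B ρ σ U)) := by
      by_cases hcc : star c = c
      · have h3 : ∀ x ∈ U c, ∀ y ∈ U c, pp B s x y ∈ Q0 (QQ S B ρ σ U) := by
          rw [hcc] at J J'
          rcases hs with hs1 | hs1
          · subst hs1
            intro x hx y hy
            by_cases hca : cD - a' = a'
            · have h4 : D w = (cD - (cD - a')) • w := by
                rw [I.dual_eig hQ, sub_sub_cancel, hca]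
              have h5 := I'.dual_simp hQ h4
              rw [smul_smul] at h5
              exact J.so1 hsy hQ.mult Trip.le hQ.brk (hstab c) h5 hx hy
            · have hvv : B v v = 0 := by
                have h4 := hQ.form _ I.mem v v
                change B (D v) v + B v (D v) = cD * B v v at h4
                rw [I.eig, map_smul, map_smul, LinearMap.smul_apply, smul_eq_mul] at h4
                have h5 : (cD - a' - a') * B v v = 0 := by linear_combination -h4
                exact (mul_eq_zero.1 h5).resolve_left (sub_ne_zero.2 hca)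
              have hww : B w w = 0 := by
                have h4 := hQ.form _ I.mem w w
                change B (D w) w + B w (D w) = cD * B w w at h4
                rw [I.dual_eig hQ, map_smul, map_smul, LinearMap.smul_apply, smul_eq_mul] at h4
                have h5 : (cD - a' - a') * B w w = 0 := by linear_combination h4
                exact (mul_eq_zero.1 h5).resolve_left (sub_ne_zero.2 hca)
              rw [one_smul] at J'
              exact J.so hsy hQ.mult Trip.le hQ.brk (hstab c) hvv hww J' hx hy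
          · subst hs1
            intro x hx y hy
            exact J.sp hsy hQ.mult Trip.le hQ.brk (hstab c) J' hx hy
        refine ⟨fun x hx y hy => ?_, fun _ => h3⟩
        rw [hcc] at hx hw
        exact Submodule.sub_mem _ (h3 x hx y hy) (Submodule.smul_mem _ _ (h3 w hw v hv))
      · refine ⟨fun x hx y hy => ?_, fun h => absurd h hcc⟩
        refine J.gl hss hsy hQ.mult Trip.le hQ.brk (hstab c) (hstab (star c)) J' ?_ ?_ hx hy
        · exact hfam.orth c c (Ne.symm hcc)
        · exact hfam.orth (star c) (star c) (by rw [hfam.star_star]; exact hcc)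
    exact ⟨v, hv, w, hw, hwv, key.1, key.2⟩

end Pool.Agent.Y130
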