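import Pool.Agent.Y130.Blk2

/-!
# Central elements
-/

set_option linter.unusedSectionVars false

open Module Finset Function

namespace Pool.Agent.Y130

open Pool.Agent.TH125.Gal Pool.Agent.TH118.SG

section det

variable {K : Type} [Field K] [CharZero K] [IsAlgClosed K] {V : Type} [AddCommGroup V]
  [Module K V] [FiniteDimensional K V]

/-- A basis of generalized eigenvectors; the determinant is the product of the eigenvalues. -/
theorem exists_detBasis (f : End K V) : ∃ (ι : Type) (_ : Fintype ι) (b : Basis ι K V)
    (β : ι → K), (∀ i, b i ∈ f.maxGenEigenspace (β i)) ∧ ∏ i, β i = LinearMap.det f := by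
  classical
  let b := (gen_internal f).collectedBasis fun β => Module.finBasis K (f.maxGenEigenspace β)
  let inst : Fintype (Σ β : K, Fin (finrank K (f.maxGenEigenspace β))) :=
    FiniteDimensional.fintypeBasisIndex b
  refine ⟨_, inst, b, fun i => i.1, fun i => (gen_internal f).collectedBasis_mem _ i, ?_⟩
  have h1 : f.charpoly.roots = (univ : Finset (Σ β : K,
      Fin (finrank K (f.maxGenEigenspace β)))).val.map fun i => i.1 := by
    refine Multiset.ext.2 fun β => ?_
    rw [Polynomial.count_roots, ← LinearMap.finrank_maxGenEigenspace_eq, Multiset.count_map]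
    have h2 : Multiset.card (Multiset.filter (fun i : Σ β : K,
        Fin (finrank K (f.maxGenEigenspace β)) => β = i.1) univ.val) =
        Fintype.card {i : Σ β : K, Fin (finrank K (f.maxGenEigenspace β)) // i.1 = β} := by
      rw [Fintype.card_subtype]
      change Multiset.card _ = Multiset.card (Multiset.filter (fun i : Σ β : K,
        Fin (finrank K (f.maxGenEigenspace β)) => i.1 = β) univ.val)
      congr 1
      exact Multiset.filter_congr fun x _ => eq_comm
    rw [h2, Fintype.card_congr (Equiv.sigmaSubtype β), Fintype.card_fin]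
  rw [Module.End.det_eq_prod_roots_charpoly_of_splits (IsAlgClosed.splits f.charpoly), h1]
  rfl

end det

variable {K : Type} [Field K] [CharZero K] [IsAlgClosed K] {T : Type} [AddCommGroup T]
  [Module K T] [FiniteDimensional K T] {B : T →ₗ[K] T →ₗ[K] K} {C : Type}
  {U : C → Submodule K T} {star : C → C}

/-- A basis adapted to the subspaces. -/
theorem exists_adapted [Fintype C] [DecidableEq C] (hfam : Fam B U star) {f : End K T}
    (hf : ∀ c, ∀ x ∈ U c, f x ∈ U c) : ∃ (ι : Type) (_ : Fintype ι) (b : Basis ι K T)
    (κ : ι → C) (β : ι → K), (∀ i, b i ∈ U (κ i)) ∧ (∀ i, b i ∈ f.maxGenEigenspace (β i)) ∧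
      ∀ c, ∏ i with κ i = c, β i = LinearMap.det (f.restrict (hf c)) := by
  classical
  choose ι inst b β hb hdet using fun c => exists_detBasis (f.restrict (hf c))
  have hint : DirectSum.IsInternal U :=
    DirectSum.isInternal_submodule_of_iSupIndep_of_iSup_eq_top hfam.indep hfam.sup
  let bb := hint.collectedBasis b
  refine ⟨Σ c, ι c, inferInstance, bb, fun i => i.1, fun i => β i.1 i.2,
    fun i => hint.collectedBasis_mem b i, fun i => ?_, fun c => ?_⟩
  · have h1 : bb i = (b i.1 i.2 : T) := by
      change (hint.collectedBasis b) i = _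
      rw [hint.collectedBasis_coe]
    rw [h1]
    obtain ⟨n, hn⟩ := mem_gen.1 (hb i.1 i.2)
    refine mem_gen.2 ⟨n, ?_⟩
    have h2 : ∀ (n : ℕ) (x : U i.1), (((f - algebraMap K (End K T) (β i.1 i.2)) ^ n) (x : T)) =
        ((((f.restrict (hf i.1) - algebraMap K (End K (U i.1)) (β i.1 i.2)) ^ n) x : U i.1) :
          T) := by
      intro n
      induction n with
      | zero => intro x; rfl
      | succ n ih =>
        intro x
        rw [pow_succ, pow_succ, Module.End.mul_apply, Module.End.mul_apply, ← ih]
        congr 1
    rw [h2, hn]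
    rfl
  · rw [← hdet c]
    have h1 : ∏ i ∈ (univ : Finset (Σ c, ι c)).filter (fun i => i.1 = c), β i.1 i.2 =
        ∏ i : Σ c, ι c, if i.1 = c then β i.1 i.2 else 1 :=
      Finset.prod_filter _ _
    rw [h1, Fintype.prod_sigma]
    rw [Finset.prod_eq_single c]
    · exact Finset.prod_congr rfl fun i _ => if_pos rfl
    · intro d _ hd
      exact Finset.prod_eq_one fun i _ => if_neg hd
    · intro h
      exact absurd (mem_univ _) h

/-- **Central elements from a diagonal element of the Lie algebra.** -/
theorem center_mem [Fintype C] [DecidableEq C] {s : K} (hs : s * s = 1)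
    (hsy : ∀ x y, B x y = s * B y x) (hfam : Fam B U star) {L : Submodule K (End K T)}
    {P : C → End K T} (hP : ∀ e, ∀ x ∈ U (star e), ∀ y ∈ U e, pp B s x y - B x y • P e ∈ L)
    (hP0 : ∀ e, star e = e → P e ∈ L) {D : End K T} (hD : D ∈ L)
    (hDs : ∀ x y, B (D x) y + B x (D y) = 0) {ι : Type} [Fintype ι] {b : Basis ι K T}
    {κ : ι → C} {lam : ι → K} (hb : ∀ i, b i ∈ U (κ i)) (hDb : ∀ i, D (b i) = lam i • b i)
    {c : C} (hc : star c ≠ c) (hτ : ∑ i with κ i = c, lam i ≠ 0)
    (hτ' : ∀ e, e ≠ c → e ≠ star c → star e ≠ e → ∑ i with κ i = e, lam i = 0)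
    (hpair : ∃ w ∈ U (star c), ∃ v ∈ U c, B w v = 1) : P c ∈ L := by
  classical
  choose u hu using fun i => surj_B hfam.nd (b.coord i)
  have hub : ∀ i j, B (u i) (b j) = if j = i then 1 else 0 := by
    intro i j
    rw [hu, Basis.coord_apply, Basis.repr_self, Finsupp.single_apply]
  -- coordinates of the elements of `U d`
  have hcoord : ∀ i d, d ≠ κ i → ∀ y ∈ U d, b.repr y i = 0 := by
    intro i d hd y hy
    have h1 : y - ∑ j with κ j = d, b.repr y j • b j = ∑ j with κ j ≠ d, b.repr y j • b j := by
      refine sub_eq_of_eq_add' ?_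
      rw [Finset.sum_filter_add_sum_filter_not, b.sum_repr]
    have h2 : y - ∑ j with κ j = d, b.repr y j • b j ∈ U d := by
      refine Submodule.sub_mem _ hy (Submodule.sum_mem _ fun j hj => ?_)
      have h3 := hb j
      rw [(Finset.mem_filter.1 hj).2] at h3
      exact Submodule.smul_mem _ _ h3
    have h3 : ∑ j with κ j ≠ d, b.repr y j • b j = 0 := by
      refine hfam.ext fun e z hz => ?_
      by_cases he : e = star d
      · rw [map_sum, LinearMap.sum_apply]
        refine Finset.sum_eq_zero fun j hj => ?_
        rw [map_smul, LinearMap.smul_apply, hfam.orth (κ j) e (fun h4 => ?_) _ (hb j) z hz,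
          smul_zero]
        rw [he] at h4
        exact (Finset.mem_filter.1 hj).2 (hfam.star_inj h4).symm
      · rw [← h1]
        exact hfam.orth d e he _ h2 z hz
    have h4 : ∑ j, (if κ j ≠ d then b.repr y j else 0) • b j = 0 := by
      rw [← h3, Finset.sum_filter]
      refine Finset.sum_congr rfl fun j _ => ?_
      split_ifs
      · rfl
      · rw [zero_smul]
    have h5 := (Fintype.linearIndependent_iff.1 b.linearIndependent) _ h4 i
    rwa [if_pos (Ne.symm hd)] at h5
  have huU : ∀ i, u i ∈ U (star (κ i)) := by
    intro i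
    refine hfam.mem_star fun d hd y hy => ?_
    rw [hu, Basis.coord_apply]
    exact hcoord i d hd y hy
  -- the weights of orthogonal vectors
  have hlam : ∀ i j, B (b i) (b j) ≠ 0 → lam i + lam j = 0 := by
    intro i j hij
    have h1 := hDs (b i) (b j)
    rw [hDb, hDb, map_smul, map_smul, LinearMap.smul_apply, smul_eq_mul, smul_eq_mul,
      ← add_mul] at h1
    exact (mul_eq_zero.1 h1).resolve_right hij
  -- the formula for the operator
  have h2D : ∑ i, lam i • pp B s (u i) (b i) = (2 : K) • D := by
    refine b.ext fun j => ?_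
    rw [LinearMap.sum_apply, LinearMap.smul_apply, hDb]
    have h1 : ∀ i, (lam i • pp B s (u i) (b i)) (b j) =
        (if i = j then lam j • b j else 0) - (lam i * (s * B (b i) (b j))) • u i := by
      intro i
      rw [LinearMap.smul_apply, pp_apply, hub, smul_sub, smul_smul, smul_smul]
      congr 1
      by_cases h : i = j
      · subst h
        rw [if_pos rfl, if_pos rfl, mul_one]
      · rw [if_neg h, if_neg (Ne.symm h), mul_zero, zero_smul]
    rw [Finset.sum_congr rfl fun i _ => h1 i, Finset.sum_sub_distrib, Finset.sum_ite_eq',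
      if_pos (mem_univ _)]
    have h2 : ∑ i, (lam i * (s * B (b i) (b j))) • u i = -(lam j • b j) := by
      rw [← sub_eq_zero]
      apply hfam.nd
      intro y
      have h3 : B (∑ i, (lam i * (s * B (b i) (b j))) • u i - -(lam j • b j)) = 0 := by
        refine b.ext fun k => ?_
        rw [map_sub, map_sum, map_neg, map_smul, LinearMap.sub_apply, LinearMap.sum_apply,
          LinearMap.neg_apply, LinearMap.smul_apply, LinearMap.zero_apply,
          Finset.sum_eq_single k]
        · rw [map_smul, LinearMap.smul_apply, hub, if_pos rfl, smul_eq_mul, mul_one, smul_eq_mul,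
            hsy (b j) (b k)]
          by_cases h4 : B (b k) (b j) = 0
          · rw [h4]
            ring
          · linear_combination (s * B (b k) (b j)) * hlam k j h4
        · intro i _ hi
          rw [map_smul, LinearMap.smul_apply, hub, if_neg (Ne.symm hi), smul_zero]
        · intro h
          exact absurd (mem_univ _) h
      rw [h3, LinearMap.zero_apply]
    rw [h2]
    module
  -- modulo the Lie algebra
  have hsumL : ∑ i, lam i • P (κ i) ∈ L := by
    have h1 : ∑ i, lam i • (pp B s (u i) (b i) - B (u i) (b i) • P (κ i)) ∈ L :=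
      L.sum_mem fun i _ => L.smul_mem _ (hP (κ i) _ (huU i) _ (hb i))
    have h2 : ∑ i, lam i • (pp B s (u i) (b i) - B (u i) (b i) • P (κ i)) =
        (2 : K) • D - ∑ i, lam i • P (κ i) := by
      rw [← h2D, ← Finset.sum_sub_distrib]
      refine Finset.sum_congr rfl fun i _ => ?_
      rw [hub, if_pos rfl, one_smul, smul_sub]
    rw [h2] at h1
    have h3 := L.sub_mem (L.smul_mem (2 : K) hD) h1
    rwa [sub_sub_cancel] at h3
  have hfib : ∑ i, lam i • P (κ i) = ∑ e, (∑ i with κ i = e, lam i) • P e := by
    rw [← Finset.sum_fiberwise univ κ (fun i => lam i • P (κ i))]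
    refine Finset.sum_congr rfl fun e _ => ?_
    rw [Finset.sum_smul]
    refine Finset.sum_congr rfl fun i hi => ?_
    rw [(Finset.mem_filter.1 hi).2]
  rw [hfib, ← Finset.add_sum_erase _ _ (mem_univ c), ← Finset.add_sum_erase (univ.erase c) _
    (Finset.mem_erase.2 ⟨hc, mem_univ (star c)⟩)] at hsumL
  have hrest : ∑ e ∈ (univ.erase c).erase (star c), (∑ i with κ i = e, lam i) • P e ∈ L := by
    refine L.sum_mem fun e he => ?_
    have he1 := Finset.ne_of_mem_erase he
    have he2 := Finset.ne_of_mem_erase (Finset.mem_of_mem_erase he)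
    by_cases hee : star e = e
    · exact L.smul_mem _ (hP0 e hee)
    · rw [hτ' e he2 he1 hee, zero_smul]
      exact L.zero_mem
  have h1 := L.sub_mem hsumL hrest
  -- the dual block
  have hdual : P c + P (star c) ∈ L := by
    obtain ⟨w, hw, v, hv, hwv⟩ := hpair
    have h2 := hP c w hw v hv
    have h3 := hP (star c) v (by rw [hfam.star_star]; exact hv) w hw
    rw [pp_swap hs w v, hsy v w, hwv, mul_one] at h3
    rw [hwv, one_smul] at h2
    have h4 := L.smul_mem s h3
    have h5 := L.neg_mem (L.add_mem h4 h2)
    convert h5 using 1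
    rw [smul_sub, smul_neg, smul_smul, smul_smul, hs, one_smul, one_smul]
    abel
  have hneg : ∑ i with κ i = star c, lam i = -∑ i with κ i = c, lam i := by
    let A : Matrix ι ι K := Matrix.of fun i j => B (b i) (b j)
    let R : Matrix ι ι K := Matrix.of fun i j => b.repr (u i) j
    have hRA : R * A = 1 := by
      ext i l
      rw [Matrix.mul_apply, Matrix.one_apply]
      have h2 := hub i l
      rw [← b.sum_repr (u i), map_sum, LinearMap.sum_apply] at h2
      have h3 : (if l = i then (1 : K) else 0) = if i = l then 1 else 0 := by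
        by_cases h : i = l
        · rw [if_pos h, if_pos h.symm]
        · rw [if_neg h, if_neg (Ne.symm h)]
      rw [← h3, ← h2]
      refine Finset.sum_congr rfl fun j _ => ?_
      rw [map_smul, LinearMap.smul_apply, smul_eq_mul]
      rfl
    have hAR : A * R = 1 := mul_eq_one_comm.1 hRA
    have hR0 : ∀ i j, κ j ≠ star (κ i) → R i j = 0 := fun i j hij =>
      hcoord j (star (κ i)) (Ne.symm hij) _ (huU i)
    have e1 : ∀ i, κ i = star c → lam i = -∑ j with κ j = c, R i j * A j i * lam j := by
      intro i hi
      have h2 : lam i = ∑ j, R i j * A j i * lam i := by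
        have h3 := congrFun (congrFun hRA i) i
        rw [Matrix.mul_apply, Matrix.one_apply_eq] at h3
        rw [← Finset.sum_mul, h3, one_mul]
      rw [h2, Finset.sum_filter, ← Finset.sum_neg_distrib]
      refine Finset.sum_congr rfl fun j _ => ?_
      by_cases hj : κ j = c
      · rw [if_pos hj]
        by_cases h4 : A j i = 0
        · rw [h4]; ring
        · linear_combination (R i j * A j i) * hlam j i h4
      · rw [if_neg hj, hR0 i j (by rw [hi, hfam.star_star]; exact hj)]
        ring
    have e2 : ∀ j, κ j = c → ∑ i with κ i = star c, A j i * R i j = 1 := by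
      intro j hj
      have h3 := congrFun (congrFun hAR j) j
      rw [Matrix.mul_apply, Matrix.one_apply_eq] at h3
      rw [← h3, Finset.sum_filter]
      refine Finset.sum_congr rfl fun i _ => ?_
      by_cases hi : κ i = star c
      · rw [if_pos hi]
      · rw [if_neg hi, hR0 i j (by
          intro h
          apply hi
          rw [← hfam.star_star (κ i), ← h, hj]), mul_zero]
    calc ∑ i with κ i = star c, lam i
        = ∑ i with κ i = star c, -∑ j with κ j = c, R i j * A j i * lam j :=
          Finset.sum_congr rfl fun i hi => e1 i (Finset.mem_filter.1 hi).2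
      _ = -∑ j with κ j = c, (∑ i with κ i = star c, A j i * R i j) * lam j := by
          rw [Finset.sum_neg_distrib, Finset.sum_comm]
          congr 1
          refine Finset.sum_congr rfl fun j _ => ?_
          rw [Finset.sum_mul]
          exact Finset.sum_congr rfl fun i _ => by ring
      _ = -∑ j with κ j = c, lam j := by
          congr 1
          refine Finset.sum_congr rfl fun j hj => ?_
          rw [e2 j (Finset.mem_filter.1 hj).2, one_mul]
  rw [hneg] at h1
  have h2 := L.add_mem h1 (L.smul_mem (∑ i with κ i = c, lam i) hdual)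
  have h3 : (∑ i with κ i = c, lam i) • P c + (-(∑ i with κ i = c, lam i) • P (star c) +
      ∑ e ∈ (univ.erase c).erase (star c), (∑ i with κ i = e, lam i) • P e) -
      ∑ e ∈ (univ.erase c).erase (star c), (∑ i with κ i = e, lam i) • P e +
      (∑ i with κ i = c, lam i) • (P c + P (star c)) = (2 * ∑ i with κ i = c, lam i) • P c := by
    module
  rw [h3] at h2
  have h4 := L.smul_mem (2 * ∑ i with κ i = c, lam i)⁻¹ h2
  rwa [smul_smul, inv_mul_cancel₀ (mul_ne_zero two_ne_zero hτ), one_smul] at h4

end Pool.Agent.Y130
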