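import Pool.Agent.Y130.Geo

/-!
# The classes of the blocks on the square
-/

open CategoryTheory AlgebraicGeometry Finset

set_option linter.unusedSectionVars false

universe u

namespace Pool.Agent.Y130

open Pool.Agent.TH125.Gal
open Pool.Agent.H914 Pool.Agent.H914.VarClass Pool.Agent.H914.VarClass.Obj
  Pool.Agent.H914.WeilCohomology Pool.Agent.H281R3.HT Pool.Agent.W552

variable {k : Type u} [Field k] {𝒱 : VarClass k} {ops : CycleOps 𝒱}
  {W : WeilCohomology.{u, 0} ops} {X Y Z : 𝒱.Obj}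
  {C : Type} [DecidableEq C] {U : C → Submodule W.K (transcendental W X)} {star : C → C}

/-- the class on the square for two blocks -/
noncomputable def dP (s : SB W X) (κ : Fin s.NT → C) (c : C × C) : W.H (X.prod X) :=
  ∑ a : Fin 2 → Fin s.NT,
    (if κ (a 0) = c.1 ∧ κ (a 1) = c.2 then bil W X (s.uT (a 0)) (s.uT (a 1)) else 0) •
      (W.map (fst X X) (s.bT (a 0)) * W.map (snd X X) (s.bT (a 1)))

theorem dP_gr (hmid : transcendental W X ≤ W.gr X X.dim) (s : SB W X) (κ : Fin s.NT → C)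
    (c : C × C) : dP s κ c ∈ W.gr (X.prod X) (2 * X.dim) := by
  rw [dP]
  refine Submodule.sum_mem _ fun a _ => Submodule.smul_mem _ _ ?_
  rw [two_mul]
  exact W.mul_mem (W.map_mem _ (hmid (s.bT _).2)) (W.map_mem _ (hmid (s.bT _).2))

theorem dP_eq_dQ (hC : ∀ a b : C, a = b) (s : SB W X) (κ : Fin s.NT → C) (c : C × C) :
    dP s κ c = dQ s := by
  rw [dP, dQ]
  refine Finset.sum_congr rfl fun a _ => ?_
  rw [if_pos ⟨hC _ _, hC _ _⟩]

/-- the part of the diagonal for a block -/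
noncomputable def dB {A : Type} [AddCommMonoid A] [Mul A] (s : SB W X) (κ : Fin s.NT → C)
    (c : C) (F F' : W.H X → A) : A :=
  ∑ i with κ i = c, F (s.bT i) * F' (s.uT i)

theorem dP_zero (hfam : Fam (rform W X (transcendental W X)) U star) (s : SB W X)
    {κ : Fin s.NT → C} (hκ : ∀ i, s.uT i ∈ U (κ i)) {c : C × C} (hc : c.2 ≠ star c.1) :
    dP s κ c = 0 := by
  rw [dP]
  refine Finset.sum_eq_zero fun a _ => ?_
  by_cases h : κ (a 0) = c.1 ∧ κ (a 1) = c.2
  · rw [if_pos h]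
    have h1 := hfam.orth (κ (a 0)) (κ (a 1)) (by rw [h.1, h.2]; exact hc) _ (hκ (a 0)) _
      (hκ (a 1))
    rw [rform_apply] at h1
    rw [h1, zero_smul]
  · rw [if_neg h, zero_smul]

theorem dP_eq (hmid : transcendental W X ≤ W.gr X X.dim)
    (hfam : Fam (rform W X (transcendental W X)) U star) (s : SB W X)
    {κ : Fin s.NT → C} (hκ : ∀ i, s.uT i ∈ U (κ i)) {c : C × C} (hc : c.2 = star c.1) :
    dP s κ c = (-1 : W.K) ^ X.dim • dB s κ c.1 (W.map (fst X X)) (W.map (snd X X)) := by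
  have h1 : dP s κ c = ∑ i, ∑ j,
      (if κ i = c.1 ∧ κ j = c.2 then bil W X (s.uT i) (s.uT j) else 0) •
      (W.map (fst X X) (s.bT i : W.H X) * W.map (snd X X) (s.bT j : W.H X)) := by
    have h2 := Fintype.sum_equiv (finTwoArrowEquiv (Fin s.NT))
      (fun a : Fin 2 → Fin s.NT => (if κ (a 0) = c.1 ∧ κ (a 1) = c.2 then
          bil W X (s.uT (a 0)) (s.uT (a 1)) else 0) •
        (W.map (fst X X) (s.bT (a 0) : W.H X) * W.map (snd X X) (s.bT (a 1) : W.H X)))
      (fun a => (if κ a.1 = c.1 ∧ κ a.2 = c.2 then bil W X (s.uT a.1) (s.uT a.2) else 0) •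
        (W.map (fst X X) (s.bT a.1 : W.H X) * W.map (snd X X) (s.bT a.2 : W.H X)))
      (fun a => rfl)
    rw [Fintype.sum_prod_type] at h2
    exact h2
  rw [h1, dB, Finset.sum_filter, Finset.smul_sum]
  refine Finset.sum_congr rfl fun i _ => ?_
  by_cases hi : κ i = c.1
  · rw [if_pos hi]
    have h2 : (s.uT i : W.H X) = ∑ j, (-1 : W.K) ^ X.dim • (bil W X (s.uT i) (s.uT j) •
        (s.bT j : W.H X)) := by
      conv_lhs => rw [s.expand_T (s.uT i).2]
      refine Finset.sum_congr rfl fun j _ => ?_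
      rw [trans_symm hmid (s.uT j).2 (s.uT i).2, mul_smul]
    conv_rhs => rw [h2]
    rw [map_sum, Finset.mul_sum, Finset.smul_sum]
    refine Finset.sum_congr rfl fun j _ => ?_
    have h3 : (-1 : W.K) ^ X.dim * (-1 : W.K) ^ X.dim = 1 := by
      rw [← mul_pow]
      norm_num
    rw [map_smul, map_smul, mul_smul_comm, mul_smul_comm, smul_smul, h3, one_smul]
    by_cases hj : κ j = c.2
    · rw [if_pos ⟨hi, hj⟩]
    · rw [if_neg (fun h => hj h.2)]
      have h4 := hfam.orth (κ i) (κ j) (by rw [hi, ← hc]; exact hj) _ (hκ i) _ (hκ j)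
      rw [rform_apply] at h4
      rw [h4]
  · rw [if_neg hi, smul_zero]
    refine Finset.sum_eq_zero fun j _ => ?_
    rw [if_neg (fun h => hi h.1), zero_smul]

section

variable {Γ : Type} [Group Γ] {χ : Γ →* W.Kˣ} {ρ : Γ →* (W.H X ≃ₐ[W.K] W.H X)}

/-- the parts of the diagonal are semi-invariant -/
theorem dB_act (hmid : transcendental W X ≤ W.gr X X.dim) (hG : IsGalois W χ X ρ)
    (hfam : Fam (rform W X (transcendental W X)) U star) (s : SB W X)
    {κ : Fin s.NT → C} (hκ : ∀ i, s.uT i ∈ U (κ i)) {g : Γ}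
    (hg : ∀ c, ∀ x ∈ U c, rhoT hG g x ∈ U c) (c : C) (F F' : W.H X →ₗ[W.K] W.H Y) :
    dB s κ c (fun x => F (ρ g x)) (fun x => F' (ρ g x)) =
      (χ g : W.K) ^ X.dim • dB s κ c F F' := by
  have h0 : ∀ i j, κ j ≠ κ i → bil W X (ρ g (s.uT i)) (s.bT j) = 0 := by
    intro i j hij
    have h1 := hfam.orth (κ i) (star (κ j)) (fun h => hij (hfam.star_inj h)) _
      (hg _ _ (hκ i)) _ (bT_mem hmid hfam s hκ j)
    exact h1
  have h1 : ∀ i, ρ g (s.uT i : W.H X) =
      ∑ j with κ j = κ i, bil W X (ρ g (s.uT i)) (s.bT j) • (s.uT j : W.H X) := by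
    intro i
    rw [Finset.sum_filter]
    conv_lhs => rw [expand_uT s (act_trans hG g (s.uT i).2)]
    refine Finset.sum_congr rfl fun j _ => ?_
    by_cases hij : κ j = κ i
    · rw [if_pos hij]
    · rw [if_neg hij, h0 i j hij, zero_smul]
  have h2 : ∀ j, ∑ i with κ i = κ j, bil W X (ρ g (s.uT i)) (s.bT j) • ρ g (s.bT i : W.H X) =
      (χ g : W.K) ^ X.dim • (s.bT j : W.H X) := by
    intro j
    have h3 : ∀ i, bil W X (ρ g (s.uT i)) (s.bT j) =
        (χ g : W.K) ^ X.dim * bil W X (s.uT i) (ρ g⁻¹ (s.bT j)) := by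
      intro i
      have h4 := bil_act hG g (s.uT i) (ρ g⁻¹ (s.bT j))
      rwa [act_inv] at h4
    have h5 := s.expand_T (act_trans hG g⁻¹ (s.bT j).2)
    have h6 : (s.bT j : W.H X) = ρ g (ρ g⁻¹ (s.bT j)) := (act_inv ρ g _).symm
    conv_rhs => rw [h6, h5]
    rw [map_sum, Finset.smul_sum, Finset.sum_filter]
    refine Finset.sum_congr rfl fun i _ => ?_
    by_cases hij : κ i = κ j
    · rw [if_pos hij, h3, map_smul, smul_smul]
    · rw [if_neg hij, map_smul, smul_smul, ← h3, h0 i j (Ne.symm hij), zero_smul]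
  rw [dB, dB]
  calc ∑ i with κ i = c, F (ρ g (s.bT i)) * F' (ρ g (s.uT i))
      = ∑ i with κ i = c, ∑ j with κ j = c,
          F (bil W X (ρ g (s.uT i)) (s.bT j) • ρ g (s.bT i : W.H X)) * F' (s.uT j) := by
        refine Finset.sum_congr rfl fun i hi => ?_
        have hi' := (Finset.mem_filter.1 hi).2
        conv_lhs => rw [h1 i]
        rw [hi', map_sum, Finset.mul_sum]
        refine Finset.sum_congr rfl fun j _ => ?_
        rw [map_smul, map_smul, mul_smul_comm, smul_mul_assoc]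
    _ = ∑ j with κ j = c, F (∑ i with κ i = c, bil W X (ρ g (s.uT i)) (s.bT j) •
          ρ g (s.bT i : W.H X)) * F' (s.uT j) := by
        rw [Finset.sum_comm]
        refine Finset.sum_congr rfl fun j _ => ?_
        rw [map_sum, Finset.sum_mul]
    _ = _ := by
        rw [Finset.smul_sum]
        refine Finset.sum_congr rfl fun j hj => ?_
        have hj' := (Finset.mem_filter.1 hj).2
        have h7 := h2 j
        rw [hj'] at h7
        rw [h7, map_smul, smul_mul_assoc]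

/-- the classes of the blocks are semi-invariant -/
theorem dP_act (hmid : transcendental W X ≤ W.gr X X.dim) (hG : IsGalois W χ X ρ)
    (hfam : Fam (rform W X (transcendental W X)) U star) (s : SB W X)
    {κ : Fin s.NT → C} (hκ : ∀ i, s.uT i ∈ U (κ i)) {g : Γ}
    (hg : ∀ c, ∀ x ∈ U c, rhoT hG g x ∈ U c) (c : C × C)
    {f : W.H (X.prod X) →ₐ[W.K] W.H Y} {f' : W.H Y ≃ₐ[W.K] W.H Y}
    (h1 : ∀ x, f' (f (W.map (fst X X) x)) = f (W.map (fst X X) (ρ g x)))
    (h2 : ∀ x, f' (f (W.map (snd X X) x)) = f (W.map (snd X X) (ρ g x))) :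
    f' (f (dP s κ c)) = (χ g : W.K) ^ X.dim • f (dP s κ c) := by
  by_cases hc : c.2 = star c.1
  · rw [dP_eq hmid hfam s hκ hc, map_smul, map_smul, smul_comm]
    congr 1
    have h3 := dB_act hmid hG hfam s hκ hg c.1 (f.toLinearMap.comp (W.map (fst X X)).toLinearMap)
      (f.toLinearMap.comp (W.map (snd X X)).toLinearMap)
    have h4 : f (dB s κ c.1 (W.map (fst X X)) (W.map (snd X X))) =
        dB s κ c.1 (f.toLinearMap.comp (W.map (fst X X)).toLinearMap)
          (f.toLinearMap.comp (W.map (snd X X)).toLinearMap) := by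
      rw [dB, map_sum]
      refine Finset.sum_congr rfl fun i _ => ?_
      rw [map_mul]
      rfl
    rw [h4, ← h3, ← h4, dB, dB, map_sum, map_sum]
    refine Finset.sum_congr rfl fun i _ => ?_
    rw [map_mul, map_mul, h1, h2]
    rfl
  · rw [dP_zero hfam s hκ hc, map_zero, map_zero, smul_zero]

/-- If the Tate conjecture holds for the square, the classes of the blocks are algebraic. -/
theorem dP_alg (hmid : transcendental W X ≤ W.gr X X.dim) (hG : IsGalois W χ X ρ)
    (hfam : Fam (rform W X (transcendental W X)) U star) (s : SB W X)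
    {κ : Fin s.NT → C} (hκ : ∀ i, s.uT i ∈ U (κ i)) {Δ : Subgroup Γ} (hΔ : Δ.FiniteIndex)
    (hg : ∀ g ∈ Δ, ∀ c, ∀ x ∈ U c, rhoT hG g x ∈ U c)
    {υ : Γ →* (W.H (X.prod X) ≃ₐ[W.K] W.H (X.prod X))} (hυ : IsProdAct W ρ ρ υ)
    (hT : TateConj W χ (X.prod X) υ) (c : C × C) : dP s κ c ∈ algSpan W (X.prod X) := by
  have h1 := hT X.dim (dP s κ c) (dP_gr hmid s κ c) ⟨Δ, hΔ, fun g hgΔ => ?_⟩
  · exact Submodule.span_mono (Set.subset_iUnion _ _) h1
  · have h2 := dP_act hmid hG hfam s hκ (hg g hgΔ) c (f := AlgHom.id W.K _) (f' := υ g)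
      (fun x => (hυ g).1 x) (fun x => (hυ g).2 x)
    exact h2

end

end Pool.Agent.Y130
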