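import Pool.Agent.Y130.StepB

/-!
# Eigenvalues on products
-/

open CategoryTheory AlgebraicGeometry Finset Function

set_option linter.unusedSectionVars false

universe u

namespace Pool.Agent.Y130

open Pool.Agent.TH125.Gal Pool.Agent.TH118.SG Module

section alg

variable {K : Type} [Field K] {V V' : Type} [AddCommGroup V] [Module K V] [AddCommGroup V']
  [Module K V'] {A : Type} [Ring A] [Algebra K A]

theorem gen_of_sub {f : End K V} {α : K} {x : V} (h : f x - α • x ∈ f.maxGenEigenspace α) :
    x ∈ f.maxGenEigenspace α := by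
  obtain ⟨n, hn⟩ := mem_gen.1 h
  refine mem_gen.2 ⟨n + 1, ?_⟩
  rw [pow_succ, Module.End.mul_apply, LinearMap.sub_apply, Module.algebraMap_end_apply]
  exact hn

/-- Products of generalized eigenvectors. -/
theorem gen_mul_aux (f : A ≃ₐ[K] A) {α β : K} : ∀ (N n m : ℕ) (x y : A), n + m ≤ N →
    ((f.toLinearMap - algebraMap K (End K A) α) ^ n) x = 0 →
    ((f.toLinearMap - algebraMap K (End K A) β) ^ m) y = 0 →
    x * y ∈ Module.End.maxGenEigenspace f.toLinearMap (α * β) := by
  intro N
  induction N with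
  | zero =>
    intro n m x y hnm hx _
    have hn : n = 0 := by omega
    subst hn
    rw [pow_zero, Module.End.one_apply] at hx
    rw [hx, zero_mul]
    exact Submodule.zero_mem _
  | succ N ih =>
    intro n m x y hnm hx hy
    cases n with
    | zero =>
      rw [pow_zero, Module.End.one_apply] at hx
      rw [hx, zero_mul]
      exact Submodule.zero_mem _
    | succ n =>
      cases m with
      | zero =>
        rw [pow_zero, Module.End.one_apply] at hy
        rw [hy, mul_zero]
        exact Submodule.zero_mem _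
      | succ m =>
        apply gen_of_sub
        have h1 : f.toLinearMap (x * y) - (α * β) • (x * y) =
            ((f.toLinearMap - algebraMap K (End K A) α) x) * f.toLinearMap y +
              α • (x * ((f.toLinearMap - algebraMap K (End K A) β) y)) := by
          rw [LinearMap.sub_apply, LinearMap.sub_apply, Module.algebraMap_end_apply,
            Module.algebraMap_end_apply, AlgEquiv.toLinearMap_apply, AlgEquiv.toLinearMap_apply,
            AlgEquiv.toLinearMap_apply, map_mul, sub_mul, mul_sub, smul_mul_assoc,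
            mul_smul_comm, smul_sub, smul_smul]
          abel
        rw [h1]
        refine Submodule.add_mem _ ?_ (Submodule.smul_mem _ _ ?_)
        · refine ih n (m + 1) _ _ (by omega) ?_ ?_
          · rw [← Module.End.mul_apply, ← pow_succ]
            exact hx
          · have h2 : Commute ((f.toLinearMap - algebraMap K (End K A) β) ^ (m + 1))
                f.toLinearMap := by
              refine Commute.pow_left (Commute.sub_left (Commute.refl _) ?_) _
              exact Algebra.commutes β _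
            rw [← Module.End.mul_apply, h2.eq, Module.End.mul_apply, hy, map_zero]
        · refine ih (n + 1) m _ _ (by omega) hx ?_
          rw [← Module.End.mul_apply, ← pow_succ]
          exact hy

theorem gen_mul (f : A ≃ₐ[K] A) {α β : K} {x y : A}
    (hx : x ∈ Module.End.maxGenEigenspace f.toLinearMap α)
    (hy : y ∈ Module.End.maxGenEigenspace f.toLinearMap β) :
    x * y ∈ Module.End.maxGenEigenspace f.toLinearMap (α * β) := by
  obtain ⟨n, hn⟩ := mem_gen.1 hx
  obtain ⟨m, hm⟩ := mem_gen.1 hy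
  exact gen_mul_aux f (n + m) n m x y le_rfl hn hm

theorem gen_one (f : A ≃ₐ[K] A) : (1 : A) ∈ Module.End.maxGenEigenspace f.toLinearMap (1 : K) := by
  refine mem_gen.2 ⟨1, ?_⟩
  rw [pow_one, LinearMap.sub_apply, Module.algebraMap_end_apply, AlgEquiv.toLinearMap_apply,
    map_one, one_smul, sub_self]

theorem gen_map {f : End K V} {f' : End K V'} {φ : V →ₗ[K] V'} (h : ∀ x, f' (φ x) = φ (f x))
    {α : K} {x : V} (hx : x ∈ f.maxGenEigenspace α) : φ x ∈ f'.maxGenEigenspace α := by
  obtain ⟨n, hn⟩ := mem_gen.1 hx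
  refine mem_gen.2 ⟨n, ?_⟩
  have h1 : ∀ (n : ℕ) (x : V), ((f' - algebraMap K (End K V') α) ^ n) (φ x) =
      φ (((f - algebraMap K (End K V) α) ^ n) x) := by
    intro n
    induction n with
    | zero => intro x; rfl
    | succ n ih =>
      intro x
      rw [pow_succ, pow_succ, Module.End.mul_apply, Module.End.mul_apply, ← ih]
      congr 1
      rw [LinearMap.sub_apply, LinearMap.sub_apply, Module.algebraMap_end_apply,
        Module.algebraMap_end_apply, map_sub, map_smul, h]
  rw [h1, hn, map_zero]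

/-- The eigenvalues, if the space is spanned by generalized eigenvectors. -/
theorem eig_of_span {f : End K V} {A : Set K}
    (h : ∀ x, x ∈ Submodule.span K {x | ∃ α ∈ A, x ∈ f.maxGenEigenspace α}) {β : K}
    (hβ : IsEig f β) : β ∈ A := by
  by_contra hcon
  obtain ⟨x, hx0, hx⟩ := hβ
  have h1 : x ∈ f.maxGenEigenspace β := by
    refine mem_gen.2 ⟨1, ?_⟩
    rw [pow_one, LinearMap.sub_apply, hx, Module.algebraMap_end_apply, sub_self]
  have h2 : x ∈ ⨆ (j : K) (_ : j ≠ β), f.maxGenEigenspace j := by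
    refine (Submodule.span_le.2 ?_) (h x)
    rintro y ⟨α, hα, hy⟩
    have h3 : α ≠ β := fun h => hcon (h ▸ hα)
    exact (le_iSup₂ (f := fun (j : K) (_ : j ≠ β) => f.maxGenEigenspace j) α h3) hy
  have h3 := (Module.End.independent_maxGenEigenspace f) β
  exact hx0 (Submodule.disjoint_def.1 h3 x h1 h2)

end alg

open Pool.Agent.H914 Pool.Agent.H914.VarClass Pool.Agent.H914.VarClass.Obj
  Pool.Agent.H914.WeilCohomology Pool.Agent.H281R3.HT Pool.Agent.W552

variable {k : Type u} [Field k] {𝒱 : VarClass k} {ops : CycleOps 𝒱}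
  {W : WeilCohomology.{u, 0} ops} {P : Polarized 𝒱} {n : ℕ} {Z : 𝒱.Obj}
  {Γ : Type} [Group Γ] {ρ : Γ →* (W.H P.X ≃ₐ[W.K] W.H P.X)}
  {τ : Γ →* (W.H Z ≃ₐ[W.K] W.H Z)}
  {υ : Γ →* (W.H ((nest ops n fun _ => P).X.prod Z) ≃ₐ[W.K]
    W.H ((nest ops n fun _ => P).X.prod Z))}

/-- **The eigenvalues on a product with a power.** -/
theorem eig_prod [IsAlgClosed W.K] (hP : IsPowAct W P n Z ρ τ υ) {F : Γ} {A : Subgroup W.Kˣ}
    (h1 : ∀ u : W.Kˣ, IsEig (ρ F).toLinearMap (u : W.K) → u ∈ A)
    (h2 : ∀ u : W.Kˣ, IsEig (τ F).toLinearMap (u : W.K) → u ∈ A)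
    (u : W.Kˣ) (hu : IsEig (υ F).toLinearMap (u : W.K)) : u ∈ A := by
  classical
  obtain ⟨ι, _, e, β, he⟩ := exists_genBasis (ρ F).toLinearMap
  obtain ⟨ι', _, e', β', he'⟩ := exists_genBasis (τ F).toLinearMap
  obtain ⟨b, hb⟩ := exists_monoBasis (ops := ops) P e n
  have hβ : ∀ i, ∃ a ∈ A, (a : W.K) = β i := by
    intro i
    have h3 := isEig_of_gen (e.ne_zero i) (he i)
    have h4 : β i ≠ 0 := by
      intro h0
      obtain ⟨x, hx0, hx⟩ := h3
      rw [h0, zero_smul] at hx
      exact hx0 ((ρ F).injective (by rw [map_zero]; exact hx))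
    exact ⟨Units.mk0 _ h4, h1 _ h3, rfl⟩
  have hβ' : ∀ i, ∃ a ∈ A, (a : W.K) = β' i := by
    intro i
    have h3 := isEig_of_gen (e'.ne_zero i) (he' i)
    have h4 : β' i ≠ 0 := by
      intro h0
      obtain ⟨x, hx0, hx⟩ := h3
      rw [h0, zero_smul] at hx
      exact hx0 ((τ F).injective (by rw [map_zero]; exact hx))
    exact ⟨Units.mk0 _ h4, h2 _ h3, rfl⟩
  have hmono : ∀ r : Fin (n + 1) → ι, ∃ a ∈ A, W.map (fst _ Z) (b r) ∈
      Module.End.maxGenEigenspace (υ F).toLinearMap (a : W.K) := by
    intro r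
    rw [hb, mono, map_list_prod, List.map_ofFn, List.ofFn_eq_map]
    generalize List.finRange (n + 1) = L
    induction L with
    | nil =>
      refine ⟨1, A.one_mem, ?_⟩
      rw [List.map_nil, List.prod_nil, Units.val_one]
      exact gen_one _
    | cons p L ih =>
      obtain ⟨a, ha, h3⟩ := ih
      obtain ⟨a', ha', h4⟩ := hβ (r p)
      refine ⟨a' * a, A.mul_mem ha' ha, ?_⟩
      rw [List.map_cons, List.prod_cons, Units.val_mul]
      refine gen_mul _ ?_ h3
      rw [h4]
      exact gen_map (f := (ρ F).toLinearMap) (f' := (υ F).toLinearMap)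
        (φ := ((W.map (fst _ Z)).comp (W.map (prj ops n (fun _ => P) p))).toLinearMap)
        (fun x => (hP F).1 p x) (he (r p))
  have h5 := eig_of_span (f := (υ F).toLinearMap) (A := {x | ∃ a ∈ A, (a : W.K) = x})
    (fun c => by
      rw [expand b c]
      refine Submodule.sum_mem _ fun r _ => ?_
      have h6 : ctr (b.coord r) c = ∑ i, e'.repr (ctr (b.coord r) c) i • e' i :=
        (e'.sum_repr _).symm
      rw [h6, map_sum, Finset.mul_sum]
      refine Submodule.sum_mem _ fun i _ => ?_
      rw [map_smul, mul_smul_comm]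
      refine Submodule.smul_mem _ _ (Submodule.subset_span ?_)
      obtain ⟨a, ha, h3⟩ := hmono r
      obtain ⟨a', ha', h4⟩ := hβ' i
      refine ⟨(a * a' : W.Kˣ), ⟨_, A.mul_mem ha ha', rfl⟩, ?_⟩
      rw [Units.val_mul]
      refine gen_mul _ h3 ?_
      rw [h4]
      exact gen_map (f := (τ F).toLinearMap) (f' := (υ F).toLinearMap)
        (φ := (W.map (snd _ Z)).toLinearMap) (fun x => (hP F).2 x) (he' i)) hu
  obtain ⟨a, ha, h6⟩ := h5
  rwa [← Units.ext h6]

end Pool.Agent.Y130
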