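import Pool.Agent.TH125.Gal.Final

/-!
# Irreducibility from one projection of rank one
-/

set_option linter.unusedSectionVars false

open Module

namespace Pool.Agent.Y130

open Pool.Agent.TH125.Gal

universe u v w

variable {K : Type u} [Field K] [CharZero K] {T : Type v} [AddCommGroup T] [Module K T]
  [FiniteDimensional K T] {G : Type w} [Group G] {R : G →* End K T}
  {L₁ : Submodule K (End K T)} {U : Submodule K T} {v : T} {φ : T →ₗ[K] K}

/-- the algebra generated by the operators -/
noncomputable def AA (L₁ : Submodule K (End K T)) : Subalgebra K (End K T) :=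
  Algebra.adjoin K (L₁ : Set (End K T))

theorem Rinv (R : G →* End K T) (g : G) (x : T) : R g (R g⁻¹ x) = x := rho_inv R g x

theorem Rinv' (R : G →* End K T) (g : G) (x : T) : R g⁻¹ (R g x) = x := by
  have h := rho_inv R g⁻¹ x
  rwa [inv_inv] at h

theorem AA_conj (hconj : ∀ g : G, ∀ Y ∈ L₁, R g * Y * R g⁻¹ ∈ L₁) (g : G) {a : End K T}
    (ha : a ∈ AA L₁) : R g * a * R g⁻¹ ∈ AA L₁ := by
  have hinv : R g * R g⁻¹ = 1 := by rw [← map_mul, mul_inv_cancel, map_one]
  have hinv' : R g⁻¹ * R g = 1 := by rw [← map_mul, inv_mul_cancel, map_one]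
  induction ha using Algebra.adjoin_induction with
  | mem x hx => exact Algebra.subset_adjoin (hconj g x hx)
  | algebraMap r =>
    have h : R g * algebraMap K (End K T) r * R g⁻¹ = algebraMap K (End K T) r := by
      rw [← Algebra.commutes, mul_assoc, hinv, mul_one]
    rw [h]
    exact Subalgebra.algebraMap_mem _ _
  | add x y _ _ hx hy =>
    rw [mul_add, add_mul]
    exact Subalgebra.add_mem _ hx hy
  | mul x y _ _ hx hy =>
    have h : R g * (x * y) * R g⁻¹ = (R g * x * R g⁻¹) * (R g * y * R g⁻¹) := by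
      calc R g * (x * y) * R g⁻¹ = R g * x * 1 * y * R g⁻¹ := by simp only [mul_assoc, mul_one]
        _ = R g * x * (R g⁻¹ * R g) * y * R g⁻¹ := by rw [hinv']
        _ = _ := by simp only [mul_assoc]
    rw [h]
    exact Subalgebra.mul_mem _ hx hy

/-- the vectors `a v` -/
noncomputable def M0 (L₁ : Submodule K (End K T)) (v : T) : Submodule K T :=
  (Subalgebra.toSubmodule (AA L₁)).map (LinearMap.applyₗ v)

theorem mem_M0 {x : T} : x ∈ M0 L₁ v ↔ ∃ a ∈ AA L₁, a v = x := by
  constructor
  · rintro ⟨a, ha, rfl⟩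
    exact ⟨a, ha, rfl⟩
  · rintro ⟨a, ha, rfl⟩
    exact ⟨a, ha, rfl⟩

/-- **Irreducibility.** -/
theorem irr_of (hconj : ∀ g : G, ∀ Y ∈ L₁, R g * Y * R g⁻¹ ∈ L₁)
    (hirr : ∀ Δ : Subgroup G, Δ.FiniteIndex → ∀ U' ≤ U, (∀ g ∈ Δ, ∀ x ∈ U', R g x ∈ U') →
      U' = ⊥ ∨ U' = U)
    (hv : v ∈ U) (hφ : φ v = 1) {e : End K T} (he : e ∈ AA L₁) (hev : ∀ x, e x = φ x • v)
    {M : Submodule K T} (hMU : M ≤ U) (hvM : v ∈ M) (hM : ∀ Y ∈ L₁, ∀ x ∈ M, Y x ∈ M) :
    M = U := by
  have hv0 : v ≠ 0 := by
    rintro rfl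
    rw [map_zero] at hφ
    exact zero_ne_one hφ
  have hMA : ∀ a ∈ AA L₁, ∀ x ∈ M, a x ∈ M := by
    intro a ha
    induction ha using Algebra.adjoin_induction with
    | mem x hx => exact hM x hx
    | algebraMap r =>
      intro x hx
      rw [Module.algebraMap_end_apply]
      exact M.smul_mem _ hx
    | add a b _ _ ha hb => exact fun x hx => M.add_mem (ha x hx) (hb x hx)
    | mul a b _ _ ha hb => exact fun x hx => ha _ (hb x hx)
  have h0M : M0 L₁ v ≤ M := by
    intro x hx
    obtain ⟨a, ha, rfl⟩ := mem_M0.1 hx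
    exact hMA a ha v hvM
  have hv0M : v ∈ M0 L₁ v := mem_M0.2 ⟨1, Subalgebra.one_mem _, rfl⟩
  -- the dichotomy
  have hdi : ∀ g : G, φ (R g v) ≠ 0 → g ∈ stab R (M0 L₁ v) := by
    intro g hg
    have h1 : M0 L₁ v ≤ (M0 L₁ v).map (R g) := by
      intro x hx
      obtain ⟨a, ha, rfl⟩ := mem_M0.1 hx
      have h2 : R g⁻¹ * (a * e) * R g ∈ AA L₁ := by
        have h3 := AA_conj hconj g⁻¹ (Subalgebra.mul_mem _ ha he)
        rwa [inv_inv] at h3
      refine ⟨((φ (R g v))⁻¹ • (R g⁻¹ * (a * e) * R g)) v,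
        mem_M0.2 ⟨_, Subalgebra.smul_mem _ h2 _, rfl⟩, ?_⟩
      rw [LinearMap.smul_apply, map_smul, Module.End.mul_apply, Module.End.mul_apply, Rinv,
        Module.End.mul_apply, hev, map_smul, smul_smul, inv_mul_cancel₀ hg, one_smul]
    have hinj : Function.Injective (R g) := by
      intro x y hxy
      rw [← Rinv' R g x, ← Rinv' R g y, hxy]
    have h2 : M0 L₁ v = (M0 L₁ v).map (R g) := by
      refine Submodule.eq_of_le_of_finrank_eq h1 ?_
      exact (LinearEquiv.finrank_eq (Submodule.equivMapOfInjective (R g) hinj (M0 L₁ v)))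
    refine ⟨fun x hx => ?_, fun x hx => ?_⟩
    · rw [h2]
      exact ⟨x, hx, rfl⟩
    · rw [h2] at hx
      obtain ⟨y, hy, rfl⟩ := hx
      rw [Rinv']
      exact hy
  have hfi : (stab R (M0 L₁ v)).FiniteIndex := by
    have hfin : Finite (G ⧸ stab R (M0 L₁ v)) := by
      have hli : LinearIndependent K fun q : G ⧸ stab R (M0 L₁ v) => R q.out v := by
        rw [linearIndependent_iff']
        intro t c hc q hq
        have h1 := congrArg (fun x => φ (R q.out⁻¹ x)) hc
        simp only [map_sum, map_smul, map_zero] at h1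
        rw [Finset.sum_eq_single q] at h1
        · rw [Rinv', hφ, smul_eq_mul, mul_one] at h1
          exact h1
        · intro q' _ hqq
          have h2 : φ (R q.out⁻¹ (R q'.out v)) = 0 := by
            by_contra h3
            rw [← rho_mul_apply] at h3
            apply hqq
            have h4 := QuotientGroup.eq.2 (hdi _ h3)
            rw [QuotientGroup.out_eq', QuotientGroup.out_eq'] at h4
            exact h4.symm
          rw [h2, smul_zero]
        · intro h
          exact absurd hq h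
      exact hli.finite
    exact Subgroup.finiteIndex_of_finite_quotient
  rcases hirr _ hfi (M0 L₁ v) (h0M.trans hMU) (fun g hg x hx => hg.1 x hx) with h | h
  · rw [h, Submodule.mem_bot] at hv0M
    exact absurd hv0M hv0
  · exact le_antisymm hMU (h ▸ h0M)

end Pool.Agent.Y130
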