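import Pool.Agent.Y130.Iso3
import Pool.Agent.Y130.Irr

/-!
# Isolated weights of a diagonalizable element
-/

set_option linter.unusedSectionVars false

open Module Finset

namespace Pool.Agent.Y130

open Pool.Agent.TH125.Gal

universe u v w

section comp

variable {K : Type u} [Field K] {T : Type v} [AddCommGroup T] [Module K T] {ι : Type w}
  [Fintype ι] [DecidableEq K]

/-- the component of weight `α` of an operator -/
noncomputable def comp (b : Basis ι K T) (d : ι → K) (α : K) (Y : End K T) : End K T :=
  b.constr K fun j => ∑ i, if d i = d j + α then b.repr (Y (b j)) i • b i else 0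

variable {b : Basis ι K T} {d : ι → K} {α : K} {Y : End K T}

theorem comp_basis (j : ι) : comp b d α Y (b j) =
    ∑ i, if d i = d j + α then b.repr (Y (b j)) i • b i else 0 := by
  rw [comp, Basis.constr_basis]

/-- components are eigenvectors -/
theorem comp_ad {D : End K T} (hD : ∀ i, D (b i) = d i • b i) :
    D * comp b d α Y - comp b d α Y * D = α • comp b d α Y := by
  refine b.ext fun j => ?_
  rw [LinearMap.sub_apply, Module.End.mul_apply, Module.End.mul_apply, hD, map_smul,
    LinearMap.smul_apply, comp_basis, map_sum, Finset.smul_sum, Finset.smul_sum,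
    ← Finset.sum_sub_distrib]
  refine Finset.sum_congr rfl fun i _ => ?_
  by_cases h : d i = d j + α
  · rw [if_pos h, map_smul, hD, h]
    module
  · rw [if_neg h]
    simp

/-- the sum of the components -/
theorem comp_sum {t : Finset K} (ht : ∀ i j, d i - d j ∈ t) : ∑ α ∈ t, comp b d α Y = Y := by
  refine b.ext fun j => ?_
  rw [LinearMap.sum_apply]
  simp only [comp_basis]
  rw [Finset.sum_comm]
  conv_rhs => rw [← b.sum_repr (Y (b j))]
  refine Finset.sum_congr rfl fun i _ => ?_
  rw [Finset.sum_eq_single (d i - d j)]
  · rw [if_pos (by ring)]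
  · intro α _ hα
    rw [if_neg fun h => hα (by rw [h]; ring)]
  · intro h
    exact absurd (ht i j) h

/-- no component -/
theorem comp_zero (h : ∀ i j, d i - d j ≠ α) : comp b d α Y = 0 := by
  refine b.ext fun j => ?_
  rw [comp_basis, LinearMap.zero_apply]
  refine Finset.sum_eq_zero fun i _ => if_neg fun h' => h i j (by rw [h']; ring)

end comp

/-- sums of eigenvectors in a stable subspace -/
theorem sum_mem_eig {K V : Type*} [Field K] [AddCommGroup V] [Module K V] {A : End K V}
    {P : Submodule K V} (hA : ∀ x ∈ P, A x ∈ P) (t : Finset K) :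
    ∀ z : K → V, (∀ α ∈ t, A (z α) = α • z α) → ∑ α ∈ t, z α ∈ P → ∀ α ∈ t, z α ∈ P := by
  classical
  induction t using Finset.induction_on with
  | empty => exact fun _ _ _ α hα => absurd hα (Finset.notMem_empty _)
  | insert β t hβ ih =>
    intro z hz hsum
    have h1 : A (∑ α ∈ insert β t, z α) - β • ∑ α ∈ insert β t, z α ∈ P :=
      P.sub_mem (hA _ hsum) (P.smul_mem _ hsum)
    have h2 : A (∑ α ∈ insert β t, z α) - β • ∑ α ∈ insert β t, z α =
        ∑ α ∈ t, (α - β) • z α := by
      rw [Finset.sum_insert hβ, map_add, map_sum, smul_add, Finset.smul_sum,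
        hz β (Finset.mem_insert_self _ _), add_sub_add_left_eq_sub, ← Finset.sum_sub_distrib]
      refine Finset.sum_congr rfl fun α hα => ?_
      rw [hz α (Finset.mem_insert_of_mem hα), sub_smul]
    rw [h2] at h1
    have h3 := ih (fun α => (α - β) • z α) (fun α hα => by
      rw [map_smul, hz α (Finset.mem_insert_of_mem hα), smul_comm]) h1
    have h4 : ∀ α ∈ t, z α ∈ P := by
      intro α hα
      have h5 : α - β ≠ 0 := sub_ne_zero.2 fun h => hβ (h ▸ hα)
      have h6 := P.smul_mem (α - β)⁻¹ (h3 α hα)
      rwa [smul_smul, inv_mul_cancel₀ h5, one_smul] at h6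
    intro α hα
    rcases Finset.mem_insert.1 hα with rfl | hα
    · have h5 := P.sub_mem hsum (P.sum_mem h4)
      rwa [Finset.sum_insert hβ, add_sub_cancel_right] at h5
    · exact h4 α hα

section ext

variable {K : Type u} [Field K] [CharZero K] {T : Type v} [AddCommGroup T] [Module K T]
  {E : Type w} [AddCommGroup E] [Module K E] {B : T →ₗ[K] T →ₗ[K] K} {s : K}

/-- A Lie algebra of triples. -/
structure Trip (B : T →ₗ[K] T →ₗ[K] K) (Q : Submodule K (End K T × K × End K E)) : Prop where
  form : ∀ z ∈ Q, ∀ x y, B (z.1 x) y + B x (z.1 y) = z.2.1 * B x y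
  br : ∀ z ∈ Q, ∀ z' ∈ Q,
    ((z.1 * z'.1 - z'.1 * z.1, 0, z.2.2 * z'.2.2 - z'.2.2 * z.2.2) : End K T × K × End K E) ∈ Q

/-- the first components -/
def Q1 (Q : Submodule K (End K T × K × End K E)) : Submodule K (End K T) :=
  Q.map (LinearMap.fst K _ _)

/-- the elements with trivial second and third components -/
def Q0 (Q : Submodule K (End K T × K × End K E)) : Submodule K (End K T) :=
  Q.comap (LinearMap.inl K (End K T) (K × End K E))

theorem mem_Q1 {Q : Submodule K (End K T × K × End K E)} {Y : End K T} :
    Y ∈ Q1 Q ↔ ∃ c Y', (Y, c, Y') ∈ Q := by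
  constructor
  · rintro ⟨⟨Y, c, Y'⟩, h, rfl⟩
    exact ⟨c, Y', h⟩
  · rintro ⟨c, Y', h⟩
    exact ⟨_, h, rfl⟩

theorem mem_Q0 {Q : Submodule K (End K T × K × End K E)} {Y : End K T} :
    Y ∈ Q0 Q ↔ (Y, (0 : K), (0 : End K E)) ∈ Q := Iff.rfl

theorem Trip.le {Q : Submodule K (End K T × K × End K E)} : Q0 Q ≤ Q1 Q := fun _ hY =>
  mem_Q1.2 ⟨0, 0, hY⟩

theorem Trip.mult {Q : Submodule K (End K T × K × End K E)} (h : Trip B Q) :
    ∀ Y ∈ Q1 Q, ∃ c : K, ∀ x y, B (Y x) y + B x (Y y) = c * B x y := by
  intro Y hY
  obtain ⟨c, Y', h1⟩ := mem_Q1.1 hY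
  exact ⟨c, h.form _ h1⟩

theorem Trip.brk {Q : Submodule K (End K T × K × End K E)} (h : Trip B Q) :
    ∀ Y ∈ Q1 Q, ∀ Z ∈ Q0 Q, Y * Z - Z * Y ∈ Q0 Q := by
  intro Y hY Z hZ
  obtain ⟨c, Y', h1⟩ := mem_Q1.1 hY
  have h2 := h.br _ h1 _ hZ
  rw [mem_Q0]
  simpa using h2

variable {Q : Submodule K (End K T × K × End K E)} {ι ι' : Type} [Fintype ι] [Fintype ι']
  {b : Basis ι K T} {d : ι → K} {b' : Basis ι' K E} {d' : ι' → K} {D : End K T} {cD a : K}
  {D' : End K E} {v w : T}

/-- The data of an isolated weight `a` of the diagonalizable element `(D, cD, D')`. -/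
structure Isol (B : T →ₗ[K] T →ₗ[K] K) (s : K) (Q : Submodule K (End K T × K × End K E))
    (b : Basis ι K T) (d : ι → K) (b' : Basis ι' K E) (d' : ι' → K) (D : End K T) (cD : K)
    (D' : End K E) (a : K) (v w : T) : Prop where
  mem : (D, cD, D') ∈ Q
  diag : ∀ i, D (b i) = d i • b i
  diag' : ∀ i, D' (b' i) = d' i • b' i
  nd : ∀ x, (∀ y, B x y = 0) → x = 0
  eig : D v = a • v
  simp : ∀ i, d i = a → b i ∈ Submodule.span K {v}
  orth : ∀ i, d i ≠ a → B w (b i) = 0
  pair : B w v = 1
  rel : ∀ i j k, d i - d j = d k - a → d k = a ∨ d j = a ∨ d i = cD - a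
  rel' : ∀ k, d k ≠ a → ∀ i j, d' i - d' j ≠ d k - a

theorem Isol.ortho (hQ : Trip B Q) (I : Isol B s Q b d b' d' D cD D' a v w) (i j : ι)
    (h : B (b i) (b j) ≠ 0) : d i + d j = cD := by
  have h1 := hQ.form _ I.mem (b i) (b j)
  change B (D (b i)) (b j) + B (b i) (D (b j)) = cD * B (b i) (b j) at h1
  rw [I.diag, I.diag, map_smul, map_smul, LinearMap.smul_apply, smul_eq_mul, smul_eq_mul,
    ← add_mul] at h1
  exact mul_right_cancel₀ h h1

theorem Isol.orthov (hQ : Trip B Q) (I : Isol B s Q b d b' d' D cD D' a v w) (i : ι)
    (h : B v (b i) ≠ 0) : a + d i = cD := by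
  have h1 := hQ.form _ I.mem v (b i)
  change B (D v) (b i) + B v (D (b i)) = cD * B v (b i) at h1
  rw [I.diag, I.eig, map_smul, map_smul, LinearMap.smul_apply, smul_eq_mul, smul_eq_mul,
    ← add_mul] at h1
  exact mul_right_cancel₀ h h1

/-- the eigenvectors for the dual weight -/
theorem Isol.dual_simp (hQ : Trip B Q) (I : Isol B s Q b d b' d' D cD D' a v w) {x : T}
    (hx : D x = (cD - a) • x) : x = B x v • w := by
  rw [← sub_eq_zero]
  apply I.nd
  intro y
  have h0 : ∀ i, B (x - B x v • w) (b i) = 0 := by
    intro i
    rw [map_sub, map_smul, LinearMap.sub_apply, LinearMap.smul_apply]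
    by_cases hi : d i = a
    · obtain ⟨κ, hκ⟩ := Submodule.mem_span_singleton.1 (I.simp i hi)
      rw [← hκ, map_smul, map_smul, I.pair]
      simp only [smul_eq_mul]
      ring
    · rw [I.orth i hi]
      have h1 := hQ.form _ I.mem x (b i)
      change B (D x) (b i) + B x (D (b i)) = cD * B x (b i) at h1
      rw [hx, I.diag, map_smul, map_smul, LinearMap.smul_apply, smul_eq_mul, smul_eq_mul] at h1
      have h2 : (d i - a) * B x (b i) = 0 := by linear_combination h1
      rw [(mul_eq_zero.1 h2).resolve_left (sub_ne_zero.2 hi), smul_zero, sub_zero]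
  have h1 : B (x - B x v • w) = 0 := b.ext h0
  rw [h1, LinearMap.zero_apply]

theorem Isol.dual_eig (hQ : Trip B Q) (I : Isol B s Q b d b' d' D cD D' a v w) :
    D w = (cD - a) • w := by
  rw [← sub_eq_zero]
  apply I.nd
  intro y
  have h1 : B (D w - (cD - a) • w) = 0 := by
    refine b.ext fun i => ?_
    rw [map_sub, map_smul, LinearMap.sub_apply, LinearMap.smul_apply, LinearMap.zero_apply]
    have h1 := hQ.form _ I.mem w (b i)
    change B (D w) (b i) + B w (D (b i)) = cD * B w (b i) at h1
    rw [I.diag, map_smul, smul_eq_mul] at h1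
    by_cases hi : d i = a
    · rw [hi] at h1
      rw [smul_eq_mul]
      linear_combination h1
    · rw [I.orth i hi] at h1 ⊢
      rw [smul_zero, sub_zero]
      linear_combination h1
  rw [h1, LinearMap.zero_apply]

/-- the dual datum -/
theorem Isol.dual (hs : s * s = 1) (hsy : ∀ x y, B x y = s * B y x) (hQ : Trip B Q)
    (I : Isol B s Q b d b' d' D cD D' a v w) :
    Isol B s Q b d b' d' D cD D' (cD - a) w (s • v) := by
  have hd : ∀ i, ∃ j, d j = cD - d i := by
    intro i
    have h1 : ∃ j, B (b i) (b j) ≠ 0 := by
      by_contra hcon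
      push Not at hcon
      apply b.ne_zero i
      apply I.nd
      intro y
      have h2 : B (b i) = 0 := b.ext hcon
      rw [h2, LinearMap.zero_apply]
    obtain ⟨j, hj⟩ := h1
    exact ⟨j, by rw [← I.ortho hQ i j hj]; ring⟩
  refine ⟨I.mem, I.diag, I.diag', I.nd, I.dual_eig hQ, fun i hi => ?_, fun i hi => ?_, ?_,
    fun i j k h => ?_, fun k hk i j h => ?_⟩
  · rw [I.dual_simp hQ (x := b i) (by rw [I.diag, hi])]
    exact Submodule.smul_mem _ _ (Submodule.mem_span_singleton_self w)
  · rw [map_smul, LinearMap.smul_apply]
    by_cases h : B v (b i) = 0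
    · rw [h, smul_zero]
    · exact absurd (by rw [← I.orthov hQ i h]; ring) hi
  · rw [map_smul, LinearMap.smul_apply, hsy v w, I.pair, smul_eq_mul, mul_one, hs]
  · obtain ⟨i', hi'⟩ := hd i
    obtain ⟨j', hj'⟩ := hd j
    obtain ⟨k', hk'⟩ := hd k
    rcases I.rel i' j' k' (by rw [hi', hj', hk']; linear_combination -h) with h1 | h1 | h1
    · left
      rw [hk'] at h1
      linear_combination -h1
    · right; left
      rw [hj'] at h1
      linear_combination -h1
    · right; right
      rw [hi'] at h1
      linear_combination -h1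
  · obtain ⟨k', hk'⟩ := hd k
    refine I.rel' k' (fun h1 => hk ?_) j i ?_
    · rw [hk'] at h1
      linear_combination -h1
    · rw [hk']
      linear_combination -h

open Classical in
/-- **The extraction of an operator of rank two.** -/
theorem Isol.ext (hs : s * s = 1) (hsy : ∀ x y, B x y = s * B y x) (hQ : Trip B Q)
    (I : Isol B s Q b d b' d' D cD D' a v w) {Y : End K T} (hY : Y ∈ Q1 Q) :
    pp B s w (Y v - B w (Y v) • v) ∈ Q0 Q := by
  obtain ⟨c, Y', hz⟩ := mem_Q1.1 hY
  -- the set of the weights
  set t : Finset K := insert 0 ((univ.image fun p : ι × ι => d p.1 - d p.2) ∪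
    (univ.image fun p : ι' × ι' => d' p.1 - d' p.2)) with ht
  have ht1 : ∀ i j, d i - d j ∈ t := fun i j => Finset.mem_insert_of_mem
    (Finset.mem_union_left _ (Finset.mem_image.2 ⟨(i, j), Finset.mem_univ _, rfl⟩))
  have ht2 : ∀ i j, d' i - d' j ∈ t := fun i j => Finset.mem_insert_of_mem
    (Finset.mem_union_right _ (Finset.mem_image.2 ⟨(i, j), Finset.mem_univ _, rfl⟩))
  have ht0 : (0 : K) ∈ t := Finset.mem_insert_self _ _
  -- the adjoint action
  let A : End K (End K T × K × End K E) :=
    { toFun := fun z => (D * z.1 - z.1 * D, 0, D' * z.2.2 - z.2.2 * D')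
      map_add' := fun x y => by
        ext1
        · simp only [Prod.fst_add, mul_add, add_mul]
          abel
        · ext1
          · simp
          · simp only [Prod.snd_add, mul_add, add_mul]
            abel
      map_smul' := fun r x => by
        ext1
        · simp [smul_sub]
        · ext1
          · simp
          · simp [smul_sub] }
  have hA : ∀ z ∈ Q, A z ∈ Q := fun z hz => hQ.br _ I.mem _ hz
  let z : K → End K T × K × End K E := fun α =>
    (comp b d α Y, if α = 0 then c else 0, comp b' d' α Y')
  have hzA : ∀ α ∈ t, A (z α) = α • z α := by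
    intro α _
    change ((D * comp b d α Y - comp b d α Y * D, 0,
      D' * comp b' d' α Y' - comp b' d' α Y' * D') : End K T × K × End K E) = _
    rw [comp_ad I.diag, comp_ad I.diag']
    ext1
    · rfl
    · ext1
      · change (0 : K) = α • (if α = 0 then c else 0)
        by_cases h : α = 0
        · rw [h, zero_smul]
        · rw [if_neg h, smul_zero]
      · rfl
  have hzs : ∑ α ∈ t, z α = (Y, c, Y') := by
    ext1
    · rw [Prod.fst_sum]
      exact comp_sum ht1
    · ext1
      · rw [Prod.snd_sum, Prod.fst_sum]
        change ∑ α ∈ t, (if α = 0 then c else 0) = c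
        rw [Finset.sum_ite_eq', if_pos ht0]
      · rw [Prod.snd_sum, Prod.snd_sum]
        exact comp_sum ht2
  have hmem := sum_mem_eig hA t z hzA (by rw [hzs]; exact hz)
  -- each weight
  have key : ∀ α ∈ t, α ≠ 0 → pp B s w (comp b d α Y v) ∈ Q0 Q := by
    intro α hα hα0
    set N := comp b d α Y with hN
    by_cases hNv : N v = 0
    · rw [hNv, pp_zero_right]
      exact Submodule.zero_mem _
    -- the weight is in the list
    have hzα := hmem α hα
    have hDN : ∀ x m, D x = m • x → D (N x) = (m + α) • N x := by
      intro x m hx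
      have h1 := congrArg (fun f : End K T => f x) (comp_ad (Y := Y) (α := α) I.diag)
      simp only [LinearMap.sub_apply, Module.End.mul_apply, LinearMap.smul_apply, hx,
        map_smul] at h1
      rw [add_smul, ← h1]
      abel
    have heigb : ∀ x m, x ≠ 0 → D x = m • x → ∃ i, d i = m := by
      intro x m hx hxm
      by_contra hcon
      push Not at hcon
      apply hx
      have h1 : ∀ i, b.repr x i = 0 := by
        intro i
        have h2 := congrArg (fun y => b.repr y i) hxm
        simp only [map_smul] at h2
        have h3 : b.repr (D x) i = d i * b.repr x i := by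
          conv_lhs => rw [← b.sum_repr x]
          rw [map_sum, map_sum, Finset.sum_apply']
          rw [Finset.sum_eq_single i]
          · rw [map_smul, I.diag, map_smul, map_smul, Finsupp.smul_apply, Finsupp.smul_apply,
              Basis.repr_self, Finsupp.single_eq_same, smul_eq_mul, smul_eq_mul]
            ring
          · intro j _ hj
            rw [map_smul, I.diag, map_smul, map_smul, Finsupp.smul_apply, Finsupp.smul_apply,
              Basis.repr_self, Finsupp.single_eq_of_ne (Ne.symm hj)]
            simp
          · intro h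
            exact absurd (Finset.mem_univ _) h
        rw [h3, Finsupp.smul_apply, smul_eq_mul] at h2
        have h4 : (d i - m) * b.repr x i = 0 := by linear_combination h2
        exact (mul_eq_zero.1 h4).resolve_left (sub_ne_zero.2 (hcon i))
      rw [← b.sum_repr x]
      exact Finset.sum_eq_zero fun i _ => by rw [h1 i, zero_smul]
    obtain ⟨k, hk⟩ := heigb (N v) (a + α) hNv (hDN v a I.eig)
    have hka : d k ≠ a := fun h => hα0 (by rw [h] at hk; linear_combination -hk)
    have hαk : α = d k - a := by rw [hk]; ring
    -- the third component vanishes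
    have h3 : comp b' d' α Y' = 0 := comp_zero fun i j => by
      rw [hαk]
      exact I.rel' k hka i j
    have hN0 : N ∈ Q0 Q := by
      rw [mem_Q0]
      have h4 : z α = (N, 0, 0) := by
        change (comp b d α Y, (if α = 0 then c else 0), comp b' d' α Y') = _
        rw [if_neg hα0, h3]
      rw [← h4]
      exact hzα
    have hskew : ∀ x y, B (N x) y + B x (N y) = 0 := by
      intro x y
      have h4 := hQ.form _ hN0 x y
      change B (N x) y + B x (N y) = 0 * B x y at h4
      rw [zero_mul] at h4
      exact h4
    -- the image of the complement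
    have hline : ∀ x, N (x - B w x • v) ∈ Submodule.span K {w} := by
      have h4 : ∀ i, N (b i - B w (b i) • v) ∈ Submodule.span K {w} := by
        intro i
        by_cases hi : d i = a
        · obtain ⟨κ, hκ⟩ := Submodule.mem_span_singleton.1 (I.simp i hi)
          rw [← hκ, map_smul, I.pair, smul_eq_mul, mul_one, sub_self, map_zero]
          exact Submodule.zero_mem _
        · rw [I.orth i hi, zero_smul, sub_zero]
          by_cases hNi : N (b i) = 0
          · rw [hNi]
            exact Submodule.zero_mem _
          · have h5 := hDN (b i) (d i) (I.diag i)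
            obtain ⟨l, hl⟩ := heigb (N (b i)) (d i + α) hNi h5
            rcases I.rel l i k (by rw [hl, hαk]; ring) with h | h | h
            · exact absurd h hka
            · exact absurd h hi
            · rw [I.dual_simp hQ (x := N (b i)) (by rw [h5, ← hl, h])]
              exact Submodule.smul_mem _ _ (Submodule.mem_span_singleton_self w)
      intro x
      let F : T →ₗ[K] T := N ∘ₗ (LinearMap.id - (B w).smulRight v)
      have hF : ∀ x, F x = N (x - B w x • v) := fun x => rfl
      rw [← hF, ← b.sum_repr x, map_sum]
      refine Submodule.sum_mem _ fun i _ => ?_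
      rw [map_smul, hF]
      exact Submodule.smul_mem _ _ (h4 i)
    -- the formula
    have hform : ∀ x, N x = B w x • N v - B (x - B w x • v) (N v) • w := by
      intro x
      obtain ⟨μ, hμ⟩ := Submodule.mem_span_singleton.1 (hline x)
      have h4 := hskew (x - B w x • v) v
      rw [← hμ, map_smul, LinearMap.smul_apply, I.pair, smul_eq_mul, mul_one] at h4
      have h5 : N x = N (x - B w x • v) + B w x • N v := by
        rw [← map_smul, ← map_add, sub_add_cancel]
      have h6 : μ = - B (x - B w x • v) (N v) := by linear_combination h4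
      rw [h5, ← hμ, h6]
      module
    by_cases hvN : B v (N v) = 0
    · have h4 : N = pp B s w (N v) := by
        apply LinearMap.ext
        intro x
        rw [pp_apply]
        nth_rewrite 1 [hform x]
        rw [map_sub, map_smul, LinearMap.sub_apply, LinearMap.smul_apply, hvN, smul_zero,
          sub_zero, hsy x (N v)]
      rw [← h4]
      exact hN0
    · -- the dual weight
      have h4 : D (N v) = (cD - a) • N v := by
        have h5 := hDN v a I.eig
        have h6 := hQ.form _ I.mem v (N v)
        change B (D v) (N v) + B v (D (N v)) = cD * B v (N v) at h6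
        rw [I.eig, h5, map_smul, map_smul, LinearMap.smul_apply, smul_eq_mul, smul_eq_mul,
          ← add_mul] at h6
        have h7 := mul_right_cancel₀ hvN h6
        rw [h5]
        congr 1
        linear_combination h7
      have h5 := I.dual_simp hQ h4
      set κ := B (N v) v with hκ
      have hs1 : s = -1 := by
        have h6 := hskew v v
        rw [← hκ, hsy v (N v), ← hκ] at h6
        have h7 : (1 + s) * κ = 0 := by linear_combination h6
        rcases mul_eq_zero.1 h7 with h | h
        · linear_combination h
        · exfalso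
          apply hvN
          rw [hsy, ← hκ, h, mul_zero]
      have h6 : pp B s w (N v) = (2 : K) • N := by
        apply LinearMap.ext
        intro x
        rw [pp_apply, LinearMap.smul_apply, hform x, h5, hs1]
        have h7 : B v w = -1 := by rw [hsy, I.pair, hs1, mul_one]
        have h8 : B x w = - B w x := by rw [hsy, hs1, neg_one_mul]
        simp only [map_smul, map_sub, LinearMap.sub_apply, LinearMap.smul_apply, smul_eq_mul, h7,
          h8]
        module
      rw [h6]
      exact Submodule.smul_mem _ _ hN0
  -- the sum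
  have hsum : Y v - B w (Y v) • v = ∑ α ∈ t.erase 0, comp b d α Y v := by
    have h1 : Y v = ∑ α ∈ t, comp b d α Y v := by
      rw [← LinearMap.sum_apply, comp_sum ht1]
    have h2 : comp b d 0 Y v ∈ Submodule.span K {v} := by
      have h3 : D (comp b d 0 Y v) = a • comp b d 0 Y v := by
        have h4 := congrArg (fun f : End K T => f v) (comp_ad (Y := Y) (α := (0 : K)) I.diag)
        simp only [LinearMap.sub_apply, Module.End.mul_apply, LinearMap.smul_apply, I.eig,
          map_smul, zero_smul] at h4
        exact sub_eq_zero.1 h4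
      have h4 : ∀ x, D x = a • x → x ∈ Submodule.span K {v} := by
        intro x hx
        rw [← b.sum_repr x]
        refine Submodule.sum_mem _ fun i _ => ?_
        by_cases hi : d i = a
        · exact Submodule.smul_mem _ _ (I.simp i hi)
        · have h5 : b.repr (D x) i = d i * b.repr x i := by
            conv_lhs => rw [← b.sum_repr x]
            rw [map_sum, map_sum, Finset.sum_apply']
            rw [Finset.sum_eq_single i]
            · rw [map_smul, I.diag, map_smul, map_smul, Finsupp.smul_apply, Finsupp.smul_apply,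
                Basis.repr_self, Finsupp.single_eq_same, smul_eq_mul, smul_eq_mul]
              ring
            · intro j _ hj
              rw [map_smul, I.diag, map_smul, map_smul, Finsupp.smul_apply, Finsupp.smul_apply,
                Basis.repr_self, Finsupp.single_eq_of_ne (Ne.symm hj)]
              simp
            · intro h
              exact absurd (Finset.mem_univ _) h
          rw [hx, map_smul, Finsupp.smul_apply, smul_eq_mul] at h5
          have h6 : (d i - a) * b.repr x i = 0 := by linear_combination -h5
          rw [(mul_eq_zero.1 h6).resolve_left (sub_ne_zero.2 hi), zero_smul]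
          exact Submodule.zero_mem _
      exact h4 _ h3
    obtain ⟨μ, hμ⟩ := Submodule.mem_span_singleton.1 h2
    have h3 : ∀ α ∈ t.erase 0, B w (comp b d α Y v) = 0 := by
      intro α hα
      have hα0 := Finset.ne_of_mem_erase hα
      have h4 : D (comp b d α Y v) = (a + α) • comp b d α Y v := by
        have h4 := congrArg (fun f : End K T => f v) (comp_ad (Y := Y) (α := α) I.diag)
        simp only [LinearMap.sub_apply, Module.End.mul_apply, LinearMap.smul_apply, I.eig,
          map_smul] at h4
        rw [add_smul, ← h4]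
        abel
      have h5 := hQ.form _ I.mem w (comp b d α Y v)
      change B (D w) (comp b d α Y v) + B w (D (comp b d α Y v)) =
        cD * B w (comp b d α Y v) at h5
      rw [I.dual_eig hQ, h4, map_smul, map_smul, LinearMap.smul_apply, smul_eq_mul,
        smul_eq_mul] at h5
      have h6 : α * B w (comp b d α Y v) = 0 := by linear_combination h5
      exact (mul_eq_zero.1 h6).resolve_left hα0
    rw [← Finset.add_sum_erase _ _ ht0] at h1
    have h4 : B w (Y v) = μ := by
      rw [h1, map_add, map_sum, Finset.sum_eq_zero h3, add_zero, ← hμ, map_smul, I.pair,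
        smul_eq_mul, mul_one]
    rw [h4]
    nth_rewrite 1 [h1]
    rw [← hμ, add_sub_cancel_left]
  have hpp : pp B s w (∑ α ∈ t.erase 0, comp b d α Y v) =
      ∑ α ∈ t.erase 0, pp B s w (comp b d α Y v) := by
    induction t.erase 0 using Finset.induction_on with
    | empty => rw [Finset.sum_empty, Finset.sum_empty, pp_zero_right]
    | insert β t hβ ih => rw [Finset.sum_insert hβ, Finset.sum_insert hβ, pp_add_right, ih]
  rw [hsum, hpp]
  exact Submodule.sum_mem _ fun α hα =>
    key α (Finset.mem_of_mem_erase hα) (Finset.ne_of_mem_erase hα)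

end ext

end Pool.Agent.Y130
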