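import Pool.Agent.Y130.Alt

/-!
# The first fundamental theorem for products of general linear, orthogonal and symplectic Lie
algebras

The blocks are permuted by an involution `star`, the form pairs the block `i` with the block
`star i`. Two blocks `i ≠ star i` carry the general linear Lie algebra, a block `i = star i` the
orthogonal or the symplectic one.
-/

set_option linter.unusedSectionVars false

open Finset Function

namespace Pool.Agent.Y130

open Pool.Agent.TH125.Nod

universe u v

variable {K : Type u} [Field K] {B : Type} [Fintype B] [DecidableEq B] {ι : Type} [DecidableEq ι]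
  {M : Type v} [AddCommGroup M] [Module K M]

/-- The form is killed by the operators `x ↦ Q (v, x) u - s Q (u, x) v` with `v` in the block
`star i`, if `u` is in the block `i`. -/
def InvS (κ : B → ι) (Q : Matrix B B K) (star : ι → ι) (s : K) {S : Type} [Fintype S]
    [DecidableEq S] (f : (S → B) → M) : Prop :=
  ∀ u v, κ v = star (κ u) → ∀ J : S → B,
    ∑ j, (Q v (J j) • f (update J j u) - (s * Q u (J j)) • f (update J j v)) = 0

/-- contraction of two variables with the inverse matrix -/
def conS {S : Type} [DecidableEq S] (κ : B → ι) (R : Matrix B B K) (i : ι) (a b : S)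
    (f : (S → B) → M) : ({x // x ≠ a ∧ x ≠ b} → B) → M :=
  fun J => ∑ p ∈ blk κ i, ∑ q, R p q • f (ext2 a b p q J)

variable {κ : B → ι} {Q R : Matrix B B K} {star : ι → ι} {s : ℤ} (hs : s = 1 ∨ s = -1)
  (hstar : ∀ i, star (star i) = i)
  (hQb : ∀ a b, κ b ≠ star (κ a) → Q a b = 0) (hRb : ∀ a b, κ b ≠ star (κ a) → R a b = 0)
  (hQs : ∀ a b, Q a b = ((s : ℤ) : K) * Q b a)
  (hQR : Q * R = 1)

include hQR in
theorem sumS_QR (v u : B) : ∑ p, Q v p * R p u = if v = u then 1 else 0 := by
  have h := congrFun (congrFun hQR v) u
  rwa [Matrix.mul_apply, Matrix.one_apply] at h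

include hQR in
theorem sumS_RQ (p m : B) : ∑ u, R p u * Q u m = if p = m then 1 else 0 := by
  have hRQ : R * Q = 1 := mul_eq_one_comm.1 hQR
  have h := congrFun (congrFun hRQ p) m
  rwa [Matrix.mul_apply, Matrix.one_apply] at h

include hstar hQb hQR in
/-- sums over one block -/
theorem sumS_QR_blk (i : ι) (v u : B) :
    ∑ p ∈ blk κ i, Q v p * R p u = if κ v = star i ∧ v = u then 1 else 0 := by
  by_cases hv : κ v = star i
  · rw [← sumS_QR hQR v u |>.trans (by simp [hv] : (if v = u then (1 : K) else 0) =
      if κ v = star i ∧ v = u then 1 else 0)]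
    apply Finset.sum_subset (Finset.subset_univ _)
    intro x _ hx
    rw [mem_blk] at hx
    rw [hQb v x (by rw [hv, hstar]; exact hx), zero_mul]
  · rw [if_neg fun h => hv h.1]
    refine Finset.sum_eq_zero fun p hp => ?_
    rw [mem_blk] at hp
    rw [hQb v p (by
      rw [hp]
      intro h
      apply hv
      rw [h, hstar]), zero_mul]

include hs in
theorem sqS : ((s : ℤ) : K) * ((s : ℤ) : K) = 1 := by
  rcases hs with h | h <;> rw [h] <;> norm_num

section
variable {S : Type} [Fintype S] [DecidableEq S] {c : S → ι}

include hstar hQb hRb hQR hs in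
/-- the Casimir identity -/
theorem casS {f : (S → B) → M} (hf : InvS κ Q star ((s : ℤ) : K) f) {J : S → B}
    (hJ : ∀ j, κ (J j) = c j) {i : ι} {a : S} (ha : c a = i) :
    ((((blk κ i).card : ℤ) - (if star i = i then s else 0) : ℤ) : K) • f J +
      ∑ b ∈ (univ.filter fun j => c j = i).erase a, f (fun j => J (Equiv.swap a b j)) =
    ((s : ℤ) : K) • ∑ b ∈ (univ.filter fun j => c j = star i).erase a,
      Q (J a) (J b) • conS κ R i a b f (fun x => J x.1) := by
  set ε : K := ((s : ℤ) : K) with hε
  have hεε : ε * ε = 1 := sqS hs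
  have hJa : κ (J a) = i := by rw [hJ, ha]
  -- the contribution of each variable
  let G : S → M := fun j => ∑ p ∈ blk κ i, ∑ u, R p u •
    (Q (J a) (update J a p j) • f (update (update J a p) j u) -
      (ε * Q u (update J a p j)) • f (update (update J a p) j (J a)))
  have hG : ∑ j, G j = 0 := by
    show ∑ j, ∑ p ∈ blk κ i, ∑ u, _ = 0
    rw [Finset.sum_comm]
    refine Finset.sum_eq_zero fun p hp => ?_
    rw [mem_blk] at hp
    rw [Finset.sum_comm]
    refine Finset.sum_eq_zero fun u _ => ?_
    rw [← Finset.smul_sum]
    by_cases hu : κ u = star i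
    · have := hf u (J a) (by rw [hu, hstar, hJa]) (update J a p)
      rw [this, smul_zero]
    · rw [hRb p u (by rw [hp]; exact hu), zero_smul]
  have hGa : G a = (if star i = i then f J else 0) - (ε * ((blk κ i).card : K)) • f J := by
    show ∑ p ∈ blk κ i, ∑ u, _ = _
    simp only [update_self, update_idem, update_eq_self, smul_sub, Finset.sum_sub_distrib,
      smul_smul]
    congr 1
    · rw [Finset.sum_comm]
      have h1 : ∀ u ∈ (univ : Finset B), ∑ p ∈ blk κ i, (R p u * Q (J a) p) • f (update J a u) =
          (if κ (J a) = star i ∧ J a = u then (1 : K) else 0) • f (update J a u) := by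
        intro u _
        rw [← Finset.sum_smul, ← sumS_QR_blk hstar hQb hQR]
        congr 1
        exact Finset.sum_congr rfl fun p _ => mul_comm _ _
      rw [Finset.sum_congr rfl h1]
      by_cases hi : star i = i
      · have h2 : κ (J a) = star i := by rw [hJa, hi]
        simp only [h2, true_and, ite_smul, one_smul, zero_smul]
        rw [Finset.sum_ite_eq, if_pos (Finset.mem_univ _), update_eq_self, if_pos hi]
      · have h2 : ¬ κ (J a) = star i := by rw [hJa]; exact Ne.symm hi
        simp only [h2, false_and, if_false, zero_smul]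
        rw [Finset.sum_const_zero, if_neg hi]
    · simp only [← Finset.sum_smul]
      congr 1
      have h1 : ∀ p ∈ blk κ i, ∑ u, R p u * (ε * Q u p) = ε := by
        intro p _
        have := sumS_RQ hQR p p
        rw [if_pos rfl] at this
        calc ∑ u, R p u * (ε * Q u p) = ε * ∑ u, R p u * Q u p := by
              rw [Finset.mul_sum]
              exact Finset.sum_congr rfl fun u _ => by ring
          _ = ε := by rw [this, mul_one]
      rw [Finset.sum_congr rfl h1, Finset.sum_const, nsmul_eq_mul, mul_comm]
  have hup : ∀ j, j ≠ a → ∀ p u, update (update J a p) j u = ext2 a j p u (fun x => J x.1) := by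
    intro j hja p u
    funext x
    by_cases h1 : x = j
    · subst h1
      rw [update_self, ext2_b (Ne.symm hja)]
    rw [update_of_ne h1]
    by_cases h2 : x = a
    · subst h2
      rw [update_self, ext2_a]
    rw [update_of_ne h2]
    unfold ext2
    rw [dif_pos ⟨h2, h1⟩]
  have hG1 : ∀ j, j ≠ a → G j =
      (if c j = star i then Q (J a) (J j) • conS κ R i a j f (fun x => J x.1) else 0) -
      (if c j = i then ε • f (fun k => J (Equiv.swap a j k)) else 0) := by
    intro j hja
    show ∑ p ∈ blk κ i, ∑ u, _ = _
    simp only [update_of_ne hja, smul_sub, Finset.sum_sub_distrib, smul_smul]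
    congr 1
    · by_cases hj : c j = star i
      · rw [if_pos hj]
        unfold conS
        rw [Finset.smul_sum]
        refine Finset.sum_congr rfl fun p _ => ?_
        rw [Finset.smul_sum]
        refine Finset.sum_congr rfl fun u _ => ?_
        rw [hup j hja, smul_smul, mul_comm]
      · rw [if_neg hj]
        refine Finset.sum_eq_zero fun p _ => Finset.sum_eq_zero fun u _ => ?_
        rw [hQb (J a) (J j) (by rw [hJa, hJ]; exact hj), mul_zero, zero_smul]
    · have h1 : ∀ p ∈ blk κ i, ∑ u, (R p u * (ε * Q u (J j))) •
          f (update (update J a p) j (J a)) =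
          (if p = J j then ε else 0) • f (update (update J a p) j (J a)) := by
        intro p _
        rw [← Finset.sum_smul]
        congr 1
        have := sumS_RQ hQR p (J j)
        calc ∑ u, R p u * (ε * Q u (J j)) = ε * ∑ u, R p u * Q u (J j) := by
              rw [Finset.mul_sum]
              exact Finset.sum_congr rfl fun u _ => by ring
          _ = _ := by rw [this]; split_ifs <;> simp
      rw [Finset.sum_congr rfl h1]
      simp only [ite_smul, zero_smul]
      rw [Finset.sum_ite_eq']
      by_cases hj : c j = i
      · rw [if_pos (mem_blk.2 (by rw [hJ, hj])), if_pos hj]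
        congr 2
        funext x
        by_cases h1 : x = j
        · subst h1
          rw [update_self, Equiv.swap_apply_right]
        rw [update_of_ne h1]
        by_cases h2 : x = a
        · subst h2
          rw [update_self, Equiv.swap_apply_left]
        rw [update_of_ne h2, Equiv.swap_apply_of_ne_of_ne h2 h1]
      · rw [if_neg (fun h => hj (by rw [← hJ]; exact mem_blk.1 h)), if_neg hj]
  have hsum : ∑ j, G j = G a + ∑ j ∈ univ.erase a, G j :=
    (Finset.add_sum_erase univ G (Finset.mem_univ a)).symm
  have hfil : ∀ (i' : ι) (F : S → M), ∑ j ∈ univ.erase a, (if c j = i' then F j else 0) =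
      ∑ j ∈ (univ.filter fun j => c j = i').erase a, F j := by
    intro i' F
    rw [← Finset.sum_filter]
    refine Finset.sum_congr ?_ fun _ _ => rfl
    ext x
    simp only [Finset.mem_filter, Finset.mem_erase, Finset.mem_univ, and_true, true_and]
  rw [hG, hGa, Finset.sum_congr rfl fun j hj => hG1 j (Finset.ne_of_mem_erase hj),
    Finset.sum_sub_distrib, hfil, hfil, ← Finset.smul_sum] at hsum
  set X := ∑ j ∈ (univ.filter fun j => c j = star i).erase a,
        Q (J a) (J j) • conS κ R i a j f (fun x => J x.1) with hX
  set Y := ∑ j ∈ (univ.filter fun j => c j = i).erase a, f (fun k => J (Equiv.swap a j k)) with hY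
  have h3 : ε • X = ε • (ε • Y) -
      ε • ((if star i = i then f J else 0) - (ε * ((blk κ i).card : K)) • f J) := by
    rw [← smul_sub]
    congr 1
    have h4 : X = ε • Y - ((if star i = i then f J else 0) -
        (ε * ((blk κ i).card : K)) • f J) +
        ((if star i = i then f J else 0) - (ε * ((blk κ i).card : K)) • f J +
          (X - ε • Y)) := by abel
    rw [h4, ← hsum, add_zero]
  rw [h3, smul_smul, hεε, one_smul, smul_sub, smul_smul, ← mul_assoc, hεε, one_mul]
  by_cases hi : star i = i
  · rw [if_pos hi, if_pos hi]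
    push_cast
    rw [← hε, sub_smul]
    abel
  · rw [if_neg hi, if_neg hi]
    push_cast
    rw [smul_zero, sub_zero, zero_sub, sub_neg_eq_add]
    abel

include hs hstar hQb hQs hQR in
/-- contractions of invariant forms are invariant -/
theorem inv_conS {f : (S → B) → M} (hf : InvS κ Q star ((s : ℤ) : K) f) {i : ι} {a b : S}
    (hab : a ≠ b) : InvS κ Q star ((s : ℤ) : K) (conS κ R i a b f) := by
  intro u v huv J
  set ε : K := ((s : ℤ) : K) with hε
  have hεε : ε * ε = 1 := sqS hs
  have key : ∀ p q, ∑ x : {x // x ≠ a ∧ x ≠ b}, (Q v (J x) • f (ext2 a b p q (update J x u)) -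
      (ε * Q u (J x)) • f (ext2 a b p q (update J x v))) =
      -(Q v p • f (ext2 a b u q J) - (ε * Q u p) • f (ext2 a b v q J)) -
      (Q v q • f (ext2 a b p u J) - (ε * Q u q) • f (ext2 a b p v J)) := by
    intro p q
    have h1 := hf u v huv (ext2 a b p q J)
    rw [sum_split hab] at h1
    simp only [ext2_a, ext2_b hab, ext2_val, update_ext2_a, update_ext2_b hab,
      update_ext2_val] at h1
    rw [← sub_eq_zero, ← h1]
    abel
  have hlhs : ∑ j, (Q v (J j) • conS κ R i a b f (update J j u) -
      (ε * Q u (J j)) • conS κ R i a b f (update J j v)) =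
      ∑ p ∈ blk κ i, ∑ q, R p q •
        (-(Q v p • f (ext2 a b u q J) - (ε * Q u p) • f (ext2 a b v q J)) -
      (Q v q • f (ext2 a b p u J) - (ε * Q u q) • f (ext2 a b p v J))) := by
    simp only [← key]
    unfold conS
    simp only [Finset.smul_sum, smul_smul, smul_sub]
    simp only [← Finset.sum_sub_distrib]
    rw [Finset.sum_comm]
    refine Finset.sum_congr rfl fun p _ => ?_
    rw [Finset.sum_comm]
    refine Finset.sum_congr rfl fun q _ => ?_
    refine Finset.sum_congr rfl fun j _ => ?_
    rw [mul_comm (Q v (J j)), mul_comm (ε * Q u (J j))]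
  show ∑ j, (Q v (J j) • conS κ R i a b f (update J j u) -
      (ε * Q u (J j)) • conS κ R i a b f (update J j v)) = 0
  rw [hlhs]
  have hQs' : ∀ w q, Q w q = ε * Q q w := fun w q => hQs w q
  have e1 : ∑ p ∈ blk κ i, ∑ q, (R p q * Q v p) • f (ext2 a b u q J) =
      if κ v = star i then f (ext2 a b u v J) else 0 := by
    rw [Finset.sum_comm]
    have h1 : ∀ q ∈ (univ : Finset B), ∑ p ∈ blk κ i, (R p q * Q v p) • f (ext2 a b u q J) =
        (if κ v = star i ∧ v = q then (1 : K) else 0) • f (ext2 a b u q J) := by
      intro q _
      rw [← Finset.sum_smul, ← sumS_QR_blk hstar hQb hQR]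
      congr 1
      exact Finset.sum_congr rfl fun p _ => mul_comm _ _
    rw [Finset.sum_congr rfl h1]
    by_cases hv : κ v = star i
    · simp only [hv, true_and, ite_smul, one_smul, zero_smul, if_true]
      rw [Finset.sum_ite_eq, if_pos (Finset.mem_univ _)]
    · simp only [hv, false_and, if_false, zero_smul, Finset.sum_const_zero]
  have e2 : ∑ p ∈ blk κ i, ∑ q, (R p q * (ε * Q u p)) • f (ext2 a b v q J) =
      if κ u = star i then ε • f (ext2 a b v u J) else 0 := by
    rw [Finset.sum_comm]
    have h1 : ∀ q ∈ (univ : Finset B), ∑ p ∈ blk κ i, (R p q * (ε * Q u p)) •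
        f (ext2 a b v q J) =
        (if κ u = star i ∧ u = q then ε else 0) • f (ext2 a b v q J) := by
      intro q _
      rw [← Finset.sum_smul]
      congr 1
      calc ∑ p ∈ blk κ i, R p q * (ε * Q u p) = ε * ∑ p ∈ blk κ i, Q u p * R p q := by
            rw [Finset.mul_sum]
            exact Finset.sum_congr rfl fun p _ => by ring
        _ = _ := by rw [sumS_QR_blk hstar hQb hQR]; split_ifs <;> simp
    rw [Finset.sum_congr rfl h1]
    by_cases hu : κ u = star i
    · simp only [hu, true_and, ite_smul, zero_smul, if_true]
      rw [Finset.sum_ite_eq, if_pos (Finset.mem_univ _)]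
    · simp only [hu, false_and, if_false, zero_smul, Finset.sum_const_zero]
  have e3 : ∑ p ∈ blk κ i, ∑ q, (R p q * Q v q) • f (ext2 a b p u J) =
      if κ v = i then ε • f (ext2 a b v u J) else 0 := by
    have h1 : ∀ p ∈ blk κ i, ∑ q, (R p q * Q v q) • f (ext2 a b p u J) =
        (if p = v then ε else 0) • f (ext2 a b p u J) := by
      intro p _
      rw [← Finset.sum_smul]
      congr 1
      calc ∑ q, R p q * Q v q = ε * ∑ q, R p q * Q q v := by
            rw [Finset.mul_sum]
            exact Finset.sum_congr rfl fun q _ => by rw [hQs' v q]; ring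
        _ = _ := by rw [sumS_RQ hQR]; split_ifs <;> simp
    rw [Finset.sum_congr rfl h1]
    simp only [ite_smul, zero_smul]
    rw [Finset.sum_ite_eq']
    by_cases hv : κ v = i
    · rw [if_pos (mem_blk.2 hv), if_pos hv]
    · rw [if_neg (fun h => hv (mem_blk.1 h)), if_neg hv]
  have e4 : ∑ p ∈ blk κ i, ∑ q, (R p q * (ε * Q u q)) • f (ext2 a b p v J) =
      if κ u = i then f (ext2 a b u v J) else 0 := by
    have h1 : ∀ p ∈ blk κ i, ∑ q, (R p q * (ε * Q u q)) • f (ext2 a b p v J) =
        (if p = u then (1 : K) else 0) • f (ext2 a b p v J) := by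
      intro p _
      rw [← Finset.sum_smul, ← sumS_RQ hQR p u]
      congr 1
      refine Finset.sum_congr rfl fun q _ => ?_
      rw [hQs' u q, ← mul_assoc ε, hεε, one_mul]
    rw [Finset.sum_congr rfl h1]
    simp only [ite_smul, one_smul, zero_smul]
    rw [Finset.sum_ite_eq']
    by_cases hu : κ u = i
    · rw [if_pos (mem_blk.2 hu), if_pos hu]
    · rw [if_neg (fun h => hu (mem_blk.1 h)), if_neg hu]
  simp only [smul_sub, smul_neg, smul_smul, Finset.sum_sub_distrib, Finset.sum_neg_distrib,
    e1, e2, e3, e4]
  have h1 : κ v = star i ↔ κ u = i := by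
    rw [huv]
    exact ⟨fun h => by rw [← hstar (κ u), h, hstar], fun h => by rw [h]⟩
  have h2 : κ u = star i ↔ κ v = i := by
    rw [huv]
    exact ⟨fun h => by rw [h, hstar], fun h => by rw [← h, hstar]⟩
  simp only [h1, h2]
  split_ifs <;> simp

theorem sup_conS {f : (S → B) → M} (hf : Sup κ c f) {i : ι} {a b : S} (R : Matrix B B K) :
    Sup κ (fun x : {x // x ≠ a ∧ x ≠ b} => c x.1) (conS κ R i a b f) := by
  intro J hJ
  unfold conS
  refine Finset.sum_eq_zero fun p _ => Finset.sum_eq_zero fun q _ => ?_
  rw [hf, smul_zero]
  intro h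
  apply hJ
  intro x
  have := h x.1
  rwa [ext2_val] at this

end

include hs hstar hQb hRb hQs hQR in
/-- **The first fundamental theorem.** -/
theorem fftS [CharZero K] (N : ℕ) : ∀ (S : Type) [Fintype S] [DecidableEq S] (c : S → ι)
    (f : (S → B) → M), Fintype.card S = N → Sup κ c f → InvS κ Q star ((s : ℤ) : K) f →
    (∀ i, s = 1 → star i = i → (univ.filter fun j => c j = i).card < (blk κ i).card) →
    f ∈ Gen κ Q c := by
  classical
  induction N using Nat.strong_induction_on with
  | _ N ih =>
    intro S _ _ c f hN hsup hinv hcount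
    rcases isEmpty_or_nonempty S with hS | ⟨⟨a0⟩⟩
    · refine Submodule.subset_span ⟨0, Equiv.equivOfIsEmpty _ _, f (fun j => (hS.false j).elim), ?_⟩
      funext J
      unfold gen
      rw [if_pos (fun j => (hS.false j).elim), Finset.univ_eq_empty, Finset.prod_empty, one_smul]
      congr 1
      funext j
      exact (hS.false j).elim
    · set i := c a0 with hi
      refine alt_mem0 (K := K) (κ := κ) (c := c) (i := i) (Gen κ Q c)
        (fun a b ha hb f hf => rho_Gen (c_swap ha hb) hf) (blk κ i).card rfl
        (univ.filter (c · = i)) rfl (if star i = i then s else 0) ?_ ((blk κ i).card + 1) {a0} ?_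
        ⟨a0, by simp⟩ ?_ f hsup ?_ ?_
      · by_cases h0 : star i = i
        · rw [if_pos h0]
          rcases hs with h | h
          · exact Or.inr ⟨h, hcount i h h0⟩
          · exact Or.inl (by rw [h]; norm_num)
        · rw [if_neg h0]
          exact Or.inl le_rfl
      · intro x hx
        rw [Finset.mem_singleton] at hx
        rw [hx]
        simp [hi]
      · rw [Finset.card_singleton]
        omega
      · intro a ha
        have hai : c a = i := (Finset.mem_filter.1 ha).2
        have hcon : ∀ b ∈ (univ.filter fun j => c j = star i).erase a,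
            conS κ R i a b f ∈ Gen κ Q (fun x : {x // x ≠ a ∧ x ≠ b} => c x.1) := by
          intro b hb
          rw [Finset.mem_erase] at hb
          have hab : a ≠ b := Ne.symm hb.1
          refine ih (Fintype.card {x // x ≠ a ∧ x ≠ b}) ?_ _ _ _ rfl (sup_conS hsup R)
            (inv_conS hs hstar hQb hQs hQR hinv hab) ?_
          · rw [← hN]
            exact Fintype.card_subtype_lt (x := a) (fun h => h.1 rfl)
          · intro i' hi' hi''
            refine lt_of_le_of_lt ?_ (hcount i' hi' hi'')
            refine Finset.card_le_card_of_injOn (fun x => x.1) ?_ ?_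
            · intro x hx
              simp only [Finset.coe_filter, Finset.mem_univ, true_and, Set.mem_ofPred_eq] at hx ⊢
              exact hx
            · intro x _ y _ h
              exact Subtype.ext h
        have hsum : ((s : ℤ) : K) • ∑ b ∈ (univ.filter fun j => c j = star i).erase a,
            (fun J : S → B => if ∀ j, κ (J j) = c j then
              Q (J a) (J b) • conS κ R i a b f (fun x => J x.1) else 0) ∈ Gen κ Q c := by
          refine Submodule.smul_mem _ _ (Submodule.sum_mem _ fun b hb => ?_)
          exact mul_Gen κ Q c (Ne.symm (Finset.mem_erase.1 hb).1) (hcon b hb)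
        convert hsum using 1
        funext J
        rw [Pi.add_apply, Pi.smul_apply, Finset.sum_apply, Pi.smul_apply, Finset.sum_apply]
        by_cases hJ : ∀ j, κ (J j) = c j
        · simp only [if_pos hJ]
          exact casS hs hstar hQb hRb hQR hinv hJ hai
        · simp only [if_neg hJ, Finset.sum_const_zero, smul_zero]
          rw [hsup J hJ, smul_zero, zero_add]
          refine Finset.sum_eq_zero fun b hb => ?_
          rw [Finset.mem_erase, Finset.mem_filter] at hb
          exact Sup_rho (K := K) (c_swap hai hb.2.2) hsup J hJ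
      · intro a ha b hb hab
        rw [Finset.mem_singleton] at ha hb
        exact absurd (ha.trans hb.symm) hab

end Pool.Agent.Y130
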