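import Pool.Agent.Y130.Iso
import Pool.Agent.Y130.Fft

/-!
# Equivariant multilinear maps in a basis adapted to the blocks
-/

set_option linter.unusedSectionVars false

open Module Finset Function

namespace Pool.Agent.Y130

open Pool.Agent.TH125.Gal Pool.Agent.TH125.Nod

universe u v w x

section

variable {K : Type u} [Field K] {B : Type} [Fintype B] [DecidableEq B] {ι : Type} [DecidableEq ι]
  {M : Type v} [AddCommGroup M] [Module K M] {S : Type} [Fintype S] [DecidableEq S]

/-- the span of the products, for all patterns -/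
noncomputable def GenA (κ : B → ι) (Q : Matrix B B K) (S : Type) : Submodule K ((S → B) → M) :=
  Submodule.span K {g | ∃ (c : S → ι) (m : ℕ) (e : Fin m × Fin 2 ≃ S) (w : M),
    g = gen κ Q c e w}

theorem Gen_le (κ : B → ι) (Q : Matrix B B K) (c : S → ι) :
    (Gen κ Q c : Submodule K ((S → B) → M)) ≤ GenA κ Q S :=
  Submodule.span_mono fun _ ⟨m, e, w, h⟩ => ⟨c, m, e, w, h⟩

/-- the component of a form of a pattern -/
noncomputable def cpt (κ : B → ι) (c : S → ι) (f : (S → B) → M) : (S → B) → M :=
  fun J => if (fun j => κ (J j)) = c then f J else 0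

theorem cpt_sum [Fintype ι] (κ : B → ι) (f : (S → B) → M) : ∑ c : S → ι, cpt κ c f = f := by
  funext J
  rw [Finset.sum_apply]
  unfold cpt
  rw [Finset.sum_ite_eq, if_pos (mem_univ _)]

theorem cpt_sup (κ : B → ι) (c : S → ι) (f : (S → B) → M) : Sup κ c (cpt κ c f) := by
  intro J hJ
  unfold cpt
  rw [if_neg]
  intro h
  exact hJ fun j => congrFun h j

theorem cpt_inv {κ : B → ι} {Q : Matrix B B K} {star : ι → ι} {s : K}
    (hstar : ∀ i, star (star i) = i) (hQb : ∀ a b, κ b ≠ star (κ a) → Q a b = 0)
    {f : (S → B) → M} (hf : InvS κ Q star s f) (c : S → ι) : InvS κ Q star s (cpt κ c f) := by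
  intro u v huv J
  have key : ∀ j, (Q v (J j) • cpt κ c f (update J j u) -
      (s * Q u (J j)) • cpt κ c f (update J j v)) =
      if (fun j => κ (J j)) = c then (Q v (J j) • f (update J j u) -
        (s * Q u (J j)) • f (update J j v)) else 0 := by
    intro j
    have hpat : ∀ z, κ z = κ (J j) → (fun i => κ (update J j z i)) = fun i => κ (J i) := by
      intro z hz
      funext i
      by_cases hi : i = j
      · subst hi
        rw [update_self, hz]
      · rw [update_of_ne hi]
    have e1 : Q v (J j) • cpt κ c f (update J j u) =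
        if (fun j => κ (J j)) = c then Q v (J j) • f (update J j u) else 0 := by
      by_cases h : κ (J j) = star (κ v)
      · unfold cpt
        rw [hpat u (by rw [h, huv, hstar])]
        split_ifs
        · rfl
        · rw [smul_zero]
      · rw [hQb v (J j) h, zero_smul, zero_smul, ite_self]
    have e2 : (s * Q u (J j)) • cpt κ c f (update J j v) =
        if (fun j => κ (J j)) = c then (s * Q u (J j)) • f (update J j v) else 0 := by
      by_cases h : κ (J j) = star (κ u)
      · unfold cpt
        rw [hpat v (by rw [h, huv])]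
        split_ifs
        · rfl
        · rw [smul_zero]
      · rw [hQb u (J j) h, mul_zero, zero_smul, zero_smul, ite_self]
    rw [e1, e2]
    split_ifs
    · rfl
    · rw [sub_zero]
  rw [Finset.sum_congr rfl fun j _ => key j]
  by_cases hc : (fun j => κ (J j)) = c
  · simp only [if_pos hc]
    exact hf u v huv J
  · simp only [if_neg hc, Finset.sum_const_zero]

end

variable {K : Type u} [Field K] [CharZero K] {T : Type v} [AddCommGroup T] [Module K T]
  {E : Type w} [AddCommGroup E] [Module K E] {S : Type} [Fintype S] [DecidableEq S]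
  {G : Type x} [Group G] {B : T →ₗ[K] T →ₗ[K] K} {ρ : G →* (T →ₗ[K] T)} {σ : G →* (E →ₗ[K] E)}
  {C : Type} [Fintype C] [DecidableEq C] {U : C → Submodule K T} {star : C → C}

/-- **Equivariant multilinear maps in a basis.** -/
theorem gen_blocks [Module.Finite K T] {s : ℤ} (hs : s = 1 ∨ s = -1)
    (hsy : ∀ x y, B x y = ((s : ℤ) : K) * B y x) (hnd : ∀ x, (∀ y, B x y = 0) → x = 0)
    (hstar : ∀ c, star (star c) = c)
    (horth : ∀ c d, d ≠ star c → ∀ x ∈ U c, ∀ y ∈ U d, B x y = 0)
    (hall : ∀ c, ∀ x ∈ U (star c), ∀ y ∈ U c, pp B ((s : ℤ) : K) x y ∈ LL S B ρ σ)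
    {h : MultilinearMap K (fun _ : S => T) E} (hh : Eqv ρ σ h) {J : Type} [Fintype J]
    [DecidableEq J] (t : Module.Basis J K T) {κ : J → C} (ht : ∀ j, t j ∈ U (κ j))
    (hcard : ∀ c, s = 1 → star c = c → Fintype.card S < (blk κ c).card) :
    (fun r : S → J => h fun j => t (r j)) ∈
      (GenA κ (Matrix.of fun i j => B (t i) (t j)) S : Submodule K ((S → J) → E)) := by
  classical
  -- the inverse of the Gram matrix
  have hBnd : LinearMap.BilinForm.Nondegenerate (LinearMap.flip B) := by
    refine ⟨fun x hx => hnd x fun y => ?_, fun x hx => hnd x fun y => hx y⟩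
    rw [hsy, show B y x = 0 from hx y, mul_zero]
  set Q : Matrix J J K := Matrix.of fun i j => B (t i) (t j) with hQ
  have hQb : ∀ a b, κ b ≠ star (κ a) → Q a b = 0 := fun a b hab =>
    horth (κ a) (κ b) hab _ (ht a) _ (ht b)
  obtain ⟨R0, hR0⟩ : ∃ R : Matrix J J K, Q * R = 1 := by
    refine ⟨Matrix.of fun j k =>
      t.repr (LinearMap.BilinForm.dualBasis (LinearMap.flip B) hBnd t k) j, ?_⟩
    ext i k
    rw [Matrix.mul_apply, Matrix.one_apply]
    simp only [hQ, Matrix.of_apply]
    have h1 := LinearMap.BilinForm.apply_dualBasis_left (B := LinearMap.flip B) hBnd t k i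
    rw [LinearMap.flip_apply] at h1
    rw [← h1]
    conv_rhs => rw [← t.sum_repr (LinearMap.BilinForm.dualBasis (LinearMap.flip B) hBnd t k)]
    rw [map_sum]
    refine Finset.sum_congr rfl fun j _ => ?_
    rw [map_smul, smul_eq_mul, mul_comm]
  let R : Matrix J J K := Matrix.of fun i j => if κ j = star (κ i) then R0 i j else 0
  have hRb : ∀ a b, κ b ≠ star (κ a) → R a b = 0 := fun a b hab => if_neg hab
  have hQR : Q * R = 1 := by
    ext i k
    have h1 := congrFun (congrFun hR0 i) k
    rw [Matrix.mul_apply] at h1 ⊢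
    by_cases hik : κ k = κ i
    · rw [← h1]
      refine Finset.sum_congr rfl fun j _ => ?_
      by_cases hj : κ j = star (κ i)
      · change Q i j * (if κ k = star (κ j) then R0 j k else 0) = _
        rw [if_pos (by rw [hj, hstar, hik])]
      · rw [hQb i j hj, zero_mul, zero_mul]
    · have h2 : i ≠ k := fun h => hik (by rw [h])
      rw [Matrix.one_apply_ne h2]
      refine Finset.sum_eq_zero fun j _ => ?_
      by_cases hj : κ j = star (κ i)
      · change Q i j * (if κ k = star (κ j) then R0 j k else 0) = _
        rw [if_neg (by rw [hj, hstar]; exact hik), mul_zero]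
      · rw [hQb i j hj, zero_mul]
  have hinv : InvS κ Q star ((s : ℤ) : K) (fun r : S → J => h fun j => t (r j)) := by
    intro u v huv r
    have h1 := (hall (κ u) (t v) (by rw [← huv]; exact ht v) (t u) (ht u)).2 h hh
      (fun j => t (r j))
    rw [← h1]
    refine Finset.sum_congr rfl fun j _ => ?_
    rw [pp_apply, MultilinearMap.map_update_sub, MultilinearMap.map_update_smul,
      MultilinearMap.map_update_smul]
    have e2 : ∀ a, (fun i => t (update r j a i)) = update (fun i => t (r i)) j (t a) := by
      intro a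
      funext i
      by_cases hi : i = j
      · subst hi
        rw [update_self, update_self]
      · rw [update_of_ne hi, update_of_ne hi]
    change Q v (r j) • h (fun i => t (update r j u i)) -
      (((s : ℤ) : K) * Q u (r j)) • h (fun i => t (update r j v i)) = _
    rw [e2 u, e2 v]
    rfl
  have hcpt : ∀ c : S → C, cpt κ c (fun r : S → J => h fun j => t (r j)) ∈
      (Gen κ Q c : Submodule K ((S → J) → E)) := by
    intro c
    refine fftS hs hstar hQb hRb (fun a b => hsy _ _) hQR (Fintype.card S) S c _ rfl
      (cpt_sup κ c _) (cpt_inv hstar hQb hinv c) ?_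
    intro i hi hi'
    exact lt_of_le_of_lt (Finset.card_le_univ _) (hcard i hi hi')
  rw [← cpt_sum κ (fun r : S → J => h fun j => t (r j))]
  exact Submodule.sum_mem _ fun c _ => Gen_le κ Q c (hcpt c)

end Pool.Agent.Y130
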