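import Pool.Agent.Y130.Alg
import Pool.Agent.Y130.Gen
import Pool.Agent.TH118.SG.Step

/-!
# Bases adapted to the blocks, and the classes of the blocks on the square
-/

open CategoryTheory AlgebraicGeometry Finset

set_option linter.unusedSectionVars false

universe u

namespace Pool.Agent.Y130

open Pool.Agent.TH125.Gal
open Pool.Agent.H914 Pool.Agent.H914.VarClass Pool.Agent.H914.VarClass.Obj
  Pool.Agent.H914.WeilCohomology Pool.Agent.H281R3.HT Pool.Agent.W552

variable {k : Type u} [Field k] {𝒱 : VarClass k} {ops : CycleOps 𝒱}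
  {W : WeilCohomology.{u, 0} ops} {X Y Z : 𝒱.Obj}

/-- A basis of the transcendental part gives a basis of the cohomology with a dual basis. -/
theorem exists_SB_of (hDX : HomEqNum W X) (hmid : transcendental W X ≤ W.gr X X.dim) {N : ℕ}
    (t : Module.Basis (Fin N) W.K (transcendental W X)) :
    ∃ (s : SB W X) (h : s.NT = N), ∀ i, s.uT i = t (Fin.cast h i) := by
  obtain ⟨s0⟩ := exists_SB hDX
  have hnd : LinearMap.BilinForm.Nondegenerate
      (LinearMap.flip (rform W X (transcendental W X))) := by
    refine ⟨fun x hx => trans_nondeg hDX x fun y => ?_, fun x hx => trans_nondeg hDX x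
      fun y => hx y⟩
    rw [rform_apply, trans_symm hmid x.2 y.2]
    have h1 : bil W X y x = 0 := hx y
    rw [h1, mul_zero]
  let bT := LinearMap.BilinForm.dualBasis _ hnd t
  refine ⟨{
    NC := s0.NC
    NT := N
    bC := s0.bC
    jC := s0.jC
    alg := s0.alg
    bT := bT
    e := (s0.bC.prod bT).map (Submodule.prodEquivOfIsCompl _ _ (isCompl hDX))
    e_inl := fun i => by
      rw [Module.Basis.map_apply, Module.Basis.prod_apply]
      simp
    e_inr := fun i => by
      rw [Module.Basis.map_apply, Module.Basis.prod_apply]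
      simp
    uC := s0.uC
    uT := t
    uC_bC := s0.uC_bC
    uT_bT := fun i j => ?_ }, rfl, fun i => rfl⟩
  have h1 := LinearMap.BilinForm.apply_dualBasis_left hnd t j i
  rw [LinearMap.flip_apply, rform_apply] at h1
  rw [h1]
  by_cases h : i = j
  · rw [if_pos h, if_pos h.symm]
  · rw [if_neg h, if_neg (Ne.symm h)]

variable {C : Type} {U : C → Submodule W.K (transcendental W X)} {star : C → C}

/-- expansion of the elements of a block -/
theorem expand_blk [DecidableEq C]
    (hfam : Fam (rform W X (transcendental W X)) U star) (s : SB W X) {κ : Fin s.NT → C}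
    (hκ : ∀ i, s.uT i ∈ U (κ i)) {d : C} {y : transcendental W X} (hy : y ∈ U d) :
    y = ∑ j with κ j = d, s.uT.repr y j • s.uT j := by
  have h6 : y = ∑ j, s.uT.repr y j • s.uT j := (s.uT.sum_repr y).symm
  rw [← Finset.sum_filter_add_sum_filter_not univ (fun j => κ j = d)] at h6
  have h8 : ∑ j with ¬ κ j = d, s.uT.repr y j • s.uT j = 0 := by
    have h9 : y - ∑ j with κ j = d, s.uT.repr y j • s.uT j =
        ∑ j with ¬ κ j = d, s.uT.repr y j • s.uT j := by
      rw [sub_eq_iff_eq_add']
      exact h6
    have h10 : y - ∑ j with κ j = d, s.uT.repr y j • s.uT j ∈ U d :=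
      Submodule.sub_mem _ hy (Submodule.sum_mem _ fun j hj =>
        Submodule.smul_mem _ _ (by rw [← (Finset.mem_filter.1 hj).2]; exact hκ j))
    rw [h9] at h10
    refine hfam.ext fun e z hz => ?_
    by_cases he : e = star d
    · subst he
      rw [map_sum, LinearMap.sum_apply]
      refine Finset.sum_eq_zero fun j hj => ?_
      rw [map_smul, LinearMap.smul_apply, hfam.orth (κ j) (star d) (fun h =>
        (Finset.mem_filter.1 hj).2 (hfam.star_inj h).symm) _ (hκ j) z hz, smul_zero]
    · exact hfam.orth d e he _ h10 z hz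
  rw [h8, add_zero] at h6
  exact h6

/-- the dual basis of an adapted basis -/
theorem bT_mem (hmid : transcendental W X ≤ W.gr X X.dim)
    (hfam : Fam (rform W X (transcendental W X)) U star) (s : SB W X) {κ : Fin s.NT → C}
    (hκ : ∀ i, s.uT i ∈ U (κ i)) (i : Fin s.NT) : s.bT i ∈ U (star (κ i)) := by
  classical
  refine hfam.mem_star fun d hd y hy => ?_
  rw [rform_apply, trans_symm hmid (s.bT i).2 y.2]
  have h1 : bil W X y (s.bT i) = 0 := by
    have h2 := expand_blk hfam s hκ hy
    have h3 : (y : W.H X) = ∑ j with κ j = d, s.uT.repr y j • (s.uT j : W.H X) := by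
      conv_lhs => rw [h2]
      rw [Submodule.coe_sum]
      rfl
    rw [h3, map_sum, LinearMap.sum_apply]
    refine Finset.sum_eq_zero fun j hj => ?_
    rw [map_smul, LinearMap.smul_apply, s.uT_bT, if_neg, smul_zero]
    rintro rfl
    exact hd (Finset.mem_filter.1 hj).2.symm
  rw [h1, mul_zero]

/-- the size of the blocks -/
theorem finrank_le_blk [DecidableEq C]
    (hfam : Fam (rform W X (transcendental W X)) U star) (s : SB W X) {κ : Fin s.NT → C}
    (hκ : ∀ i, s.uT i ∈ U (κ i)) (d : C) :
    Module.finrank W.K (U d) ≤ (Pool.Agent.TH125.Nod.blk κ d).card := by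
  classical
  have h1 : U d ≤ Submodule.span W.K
      (((Pool.Agent.TH125.Nod.blk κ d).image fun j => s.uT j : Finset (transcendental W X)) :
        Set (transcendental W X)) := by
    intro y hy
    rw [expand_blk hfam s hκ hy]
    refine Submodule.sum_mem _ fun j hj => Submodule.smul_mem _ _ (Submodule.subset_span ?_)
    rw [Finset.mem_coe, Finset.mem_image]
    exact ⟨j, Pool.Agent.TH125.Nod.mem_blk.2 (Finset.mem_filter.1 hj).2, rfl⟩
  exact (Submodule.finrank_mono h1).trans ((finrank_span_finset_le_card _).trans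
    Finset.card_image_le)

/-- **A basis adapted to the blocks.** -/
theorem exists_SB_ad [Finite C] [IsAlgClosed W.K] (hDX : HomEqNum W X)
    (hmid : transcendental W X ≤ W.gr X X.dim)
    (hfam : Fam (rform W X (transcendental W X)) U star) :
    ∃ (s : SB W X) (κ : Fin s.NT → C), ∀ i, s.uT i ∈ U (κ i) := by
  classical
  have := Fintype.ofFinite C
  obtain ⟨ι, _, b, κ, -, hb, -, -⟩ := exists_adapted hfam
    (f := (1 : Module.End W.K (transcendental W X))) (fun c x hx => hx)
  obtain ⟨s, h, hs⟩ := exists_SB_of hDX hmid (b.reindex (Fintype.equivFin ι))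
  refine ⟨s, fun i => κ ((Fintype.equivFin ι).symm (Fin.cast h i)), fun i => ?_⟩
  rw [hs, Module.Basis.reindex_apply]
  exact hb _

end Pool.Agent.Y130
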