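import Pool.Agent.TH125.Gal.Node

/-!
# Lie algebras with isolated weights
-/

set_option linter.unusedSectionVars false

open Module

namespace Pool.Agent.Y130

open Pool.Agent.TH125.Gal

universe u v

variable {K : Type u} [Field K] [CharZero K] {T : Type v} [AddCommGroup T] [Module K T]

/-- the operator `z ↦ B (x, z) y - s B (y, z) x` -/
def pp (B : T →ₗ[K] T →ₗ[K] K) (s : K) (x y : T) : End K T := rk B x y - s • rk B y x

variable {B : T →ₗ[K] T →ₗ[K] K} {s : K}

theorem pp_apply (x y z : T) : pp B s x y z = B x z • y - (s * B y z) • x := by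
  rw [pp, LinearMap.sub_apply, LinearMap.smul_apply, rk_apply, rk_apply, smul_smul]

theorem pp_add_right (x y y' : T) : pp B s x (y + y') = pp B s x y + pp B s x y' := by
  apply LinearMap.ext
  intro z
  simp only [pp_apply, LinearMap.add_apply, map_add]
  module

theorem pp_add_left (x x' y : T) : pp B s (x + x') y = pp B s x y + pp B s x' y := by
  apply LinearMap.ext
  intro z
  simp only [pp_apply, LinearMap.add_apply, map_add]
  module

theorem pp_smul_right (c : K) (x y : T) : pp B s x (c • y) = c • pp B s x y := by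
  apply LinearMap.ext
  intro z
  simp only [pp_apply, LinearMap.smul_apply, map_smul, smul_eq_mul]
  module

theorem pp_smul_left (c : K) (x y : T) : pp B s (c • x) y = c • pp B s x y := by
  apply LinearMap.ext
  intro z
  simp only [pp_apply, LinearMap.smul_apply, map_smul, smul_eq_mul]
  module

theorem pp_zero_right (x : T) : pp B s x 0 = 0 := by
  have h := pp_smul_right (B := B) (s := s) 0 x 0
  rwa [zero_smul, zero_smul] at h

theorem pp_zero_left (y : T) : pp B s 0 y = 0 := by
  have h := pp_smul_left (B := B) (s := s) 0 0 y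
  rwa [zero_smul, zero_smul] at h

theorem pp_sub_right (x y y' : T) : pp B s x (y - y') = pp B s x y - pp B s x y' := by
  rw [sub_eq_add_neg, ← neg_one_smul K y', pp_add_right, pp_smul_right, neg_one_smul,
    ← sub_eq_add_neg]

theorem pp_sub_left (x x' y : T) : pp B s (x - x') y = pp B s x y - pp B s x' y := by
  rw [sub_eq_add_neg, ← neg_one_smul K x', pp_add_left, pp_smul_left, neg_one_smul,
    ← sub_eq_add_neg]

theorem pp_swap (hs : s * s = 1) (x y : T) : pp B s y x = -(s • pp B s x y) := by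
  apply LinearMap.ext
  intro z
  rw [LinearMap.neg_apply, LinearMap.smul_apply, pp_apply, pp_apply, smul_sub, smul_smul,
    smul_smul, ← mul_assoc, hs, one_mul]
  module

theorem pp_bracket {Y : End K T} {c : K} (hY : ∀ x y, B (Y x) y + B x (Y y) = c * B x y)
    (x y : T) : Y * pp B s x y - pp B s x y * Y =
      pp B s (Y x) y + pp B s x (Y y) - c • pp B s x y := by
  apply LinearMap.ext
  intro z
  have h1 := hY x z
  have h2 := hY y z
  simp only [LinearMap.sub_apply, LinearMap.add_apply, LinearMap.smul_apply, Module.End.mul_apply,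
    pp_apply, map_sub, map_smul]
  have h3 : B x (Y z) = c * B x z - B (Y x) z := by linear_combination h1
  have h4 : B y (Y z) = c * B y z - B (Y y) z := by linear_combination h2
  rw [h3, h4]
  module

theorem pp_skew (hs : s * s = 1) (hsy : ∀ x y, B x y = s * B y x) (x y z w : T) :
    B (pp B s x y z) w + B z (pp B s x y w) = 0 := by
  rw [pp_apply, pp_apply, map_sub, map_sub, map_smul, map_smul, map_smul, map_smul,
    LinearMap.sub_apply, LinearMap.smul_apply, LinearMap.smul_apply]
  simp only [smul_eq_mul]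
  rw [hsy z y, hsy z x]
  linear_combination (-(B x z * B y w)) * hs

/-- The pair `v`, `w` of vectors in `U`, `U'` comes from an isolated weight. -/
structure Iso (B : T →ₗ[K] T →ₗ[K] K) (s : K) (L₁ L : Submodule K (End K T))
    (U U' : Submodule K T) (v w : T) : Prop where
  memv : v ∈ U
  memw : w ∈ U'
  pair : B w v = 1
  ext : ∀ Y ∈ L₁, pp B s w (Y v - B w (Y v) • v) ∈ L
  irr : ∀ M ≤ U, v ∈ M → (∀ Y ∈ L₁, ∀ x ∈ M, Y x ∈ M) → M = U

/-- the vectors `b` of `U` such that `w ∧ b` is in the Lie algebra -/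
def BB (B : T →ₗ[K] T →ₗ[K] K) (s : K) (L : Submodule K (End K T)) (U : Submodule K T) (w : T) :
    Submodule K T where
  carrier := {b | b ∈ U ∧ pp B s w b ∈ L}
  zero_mem' := ⟨U.zero_mem, by rw [pp_zero_right]; exact L.zero_mem⟩
  add_mem' := fun {x y} hx hy => ⟨U.add_mem hx.1 hy.1, by
    rw [pp_add_right]; exact L.add_mem hx.2 hy.2⟩
  smul_mem' := fun c {x} hx => ⟨U.smul_mem c hx.1, by
    rw [pp_smul_right]; exact L.smul_mem c hx.2⟩

theorem mem_BB {L : Submodule K (End K T)} {U : Submodule K T} {w b : T} :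
    b ∈ BB B s L U w ↔ b ∈ U ∧ pp B s w b ∈ L := Iff.rfl

section

variable {L₁ L : Submodule K (End K T)} {U U' : Submodule K T} {v w : T}
  (hs : s * s = 1) (hsy : ∀ x y, B x y = s * B y x)
  (hL1 : ∀ Y ∈ L₁, ∃ c : K, ∀ x y, B (Y x) y + B x (Y y) = c * B x y)
  (hLL : L ≤ L₁) (hbr : ∀ Y ∈ L₁, ∀ Z ∈ L, Y * Z - Z * Y ∈ L)
  (hU : ∀ Y ∈ L₁, ∀ x ∈ U, Y x ∈ U)

include hU in
theorem Iso.step1 (I : Iso B s L₁ L U U' v w) {Y : End K T} (hY : Y ∈ L₁) :
    Y v - B w (Y v) • v ∈ BB B s L U w :=
  ⟨U.sub_mem (hU Y hY v I.memv) (U.smul_mem _ I.memv), I.ext Y hY⟩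

include hL1 hLL hbr hU in
/-- the bracket with an element of the Lie algebra -/
theorem Iso.step2 (I : Iso B s L₁ L U U' v w) {Y : End K T} (hY : Y ∈ L₁) {b : T}
    (hb : b ∈ BB B s L U w) :
    Y b - (s * B b v) • Y w - (s * B (Y b) v) • w ∈
      Submodule.span K {v} ⊔ BB B s L U w ⊔ Submodule.span K {s • (B b v • w)} := by
  obtain ⟨c, hc⟩ := hL1 Y hY
  have hZ := hbr Y hY _ hb.2
  have h1 := I.step1 hU (hLL hZ)
  have h2 : (Y * pp B s w b - pp B s w b * Y) v = Y b - (s * B b v) • Y w - (s * B (Y b) v) • w +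
      ((B (Y w) v - c) • b + c • (s • (B b v • w))) := by
    rw [pp_bracket hc]
    simp only [LinearMap.sub_apply, LinearMap.add_apply, LinearMap.smul_apply, pp_apply, I.pair]
    module
  rw [h2] at h1
  have h3 : Y b - (s * B b v) • Y w - (s * B (Y b) v) • w =
      (Y b - (s * B b v) • Y w - (s * B (Y b) v) • w +
        ((B (Y w) v - c) • b + c • (s • (B b v • w))) -
        B w (Y b - (s * B b v) • Y w - (s * B (Y b) v) • w +
        ((B (Y w) v - c) • b + c • (s • (B b v • w)))) • v) +
      (B w (Y b - (s * B b v) • Y w - (s * B (Y b) v) • w +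
        ((B (Y w) v - c) • b + c • (s • (B b v • w)))) • v) -
        (B (Y w) v - c) • b - c • (s • (B b v • w)) := by
    abel
  rw [h3]
  refine Submodule.sub_mem _ (Submodule.sub_mem _ (Submodule.add_mem _ ?_ ?_) ?_) ?_
  · exact Submodule.mem_sup_left (Submodule.mem_sup_right h1)
  · exact Submodule.mem_sup_left (Submodule.mem_sup_left
      (Submodule.smul_mem _ _ (Submodule.mem_span_singleton_self v)))
  · exact Submodule.mem_sup_left (Submodule.mem_sup_right (Submodule.smul_mem _ _ hb))
  · exact Submodule.mem_sup_right (Submodule.smul_mem _ _ (Submodule.mem_span_singleton_self _))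

include hL1 hLL hbr hU in
/-- **half of the special linear Lie algebra** -/
theorem Iso.gl_half (I : Iso B s L₁ L U U' v w) (hUU : ∀ x ∈ U, ∀ y ∈ U, B x y = 0) {y : T}
    (hy : y ∈ U) (hwy : B w y = 0) : pp B s w y ∈ L := by
  have hM : Submodule.span K {v} ⊔ BB B s L U w = U := by
    refine I.irr _ (sup_le ?_ fun b hb => hb.1) (Submodule.mem_sup_left
      (Submodule.mem_span_singleton_self v)) fun Y hY x hx => ?_
    · rw [Submodule.span_singleton_le_iff_mem]
      exact I.memv
    · obtain ⟨a, ha, b, hb, rfl⟩ := Submodule.mem_sup.1 hx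
      obtain ⟨κ, rfl⟩ := Submodule.mem_span_singleton.1 ha
      rw [map_add, map_smul]
      refine Submodule.add_mem _ (Submodule.smul_mem _ _ ?_) ?_
      · have h1 := I.step1 hU hY
        have h2 : Y v = B w (Y v) • v + (Y v - B w (Y v) • v) := by abel
        rw [h2]
        exact Submodule.add_mem_sup (Submodule.smul_mem _ _
          (Submodule.mem_span_singleton_self v)) h1
      · have h1 := I.step2 hL1 hLL hbr hU hY hb
        rw [hUU b hb.1 v I.memv, hUU (Y b) (hU Y hY b hb.1) v I.memv] at h1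
        simp only [mul_zero, zero_smul, sub_zero, smul_zero, Submodule.span_zero_singleton,
          sup_bot_eq] at h1
        exact h1
  have hy' : y ∈ Submodule.span K {v} ⊔ BB B s L U w := by rw [hM]; exact hy
  obtain ⟨a, ha, b, hb, rfl⟩ := Submodule.mem_sup.1 hy'
  obtain ⟨κ, rfl⟩ := Submodule.mem_span_singleton.1 ha
  have h1 := I.ext _ (hLL hb.2)
  rw [pp_apply, I.pair, one_smul, hUU b hb.1 v I.memv, mul_zero, zero_smul, sub_zero] at h1
  have h2 : κ • v + b = b - B w b • v := by
    rw [map_add, map_smul, I.pair, smul_eq_mul, mul_one] at hwy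
    have : κ = - B w b := by linear_combination hwy
    rw [this]
    module
  rw [h2]
  exact h1

include hs hsy hL1 hLL hbr hU in
/-- **The special linear Lie algebra.** -/
theorem Iso.gl (hU' : ∀ Y ∈ L₁, ∀ x ∈ U', Y x ∈ U') (I : Iso B s L₁ L U U' v w)
    (I' : Iso B s L₁ L U' U w (s • v)) (hUU : ∀ x ∈ U, ∀ y ∈ U, B x y = 0)
    (hUU' : ∀ x ∈ U', ∀ y ∈ U', B x y = 0) {x y : T} (hx : x ∈ U') (hy : y ∈ U) :
    pp B s x y - B x y • pp B s w v ∈ L := by
  have hwv := I.pair
  have h1 : ∀ y ∈ U, B w y = 0 → pp B s w y ∈ L := fun y hy h =>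
    I.gl_half hL1 hLL hbr hU hUU hy h
  have h2 : ∀ x ∈ U', B x v = 0 → pp B s x v ∈ L := by
    intro x hx h
    have h3 := I'.gl_half hL1 hLL hbr hU' hUU' hx (by
      rw [map_smul, LinearMap.smul_apply, hsy v x, h, mul_zero, smul_zero])
    rw [pp_smul_left, pp_swap hs x v, smul_neg, smul_smul, hs, one_smul] at h3
    exact (Submodule.neg_mem_iff _).1 h3
  have h3 : ∀ x ∈ U', B x v = 0 → ∀ y ∈ U, B w y = 0 → pp B s x y - B x y • pp B s w v ∈ L := by
    intro x hx hxv y hy hwy
    have h4 := hbr _ (hLL (h1 y hy hwy)) _ (h2 x hx hxv)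
    rw [pp_bracket (c := 0) (fun a b => by rw [pp_skew hs hsy, zero_mul]), zero_smul, sub_zero,
      pp_apply, pp_apply, hUU' w I.memw x hx, hUU y hy v I.memv, hwv] at h4
    have h5 : pp B s ((0 : K) • y - (s * B y x) • w) v + pp B s x ((1 : K) • y - (s * 0) • w) =
        pp B s x y - B x y • pp B s w v := by
      rw [zero_smul, zero_sub, ← neg_smul, pp_smul_left, mul_zero, zero_smul, sub_zero, one_smul,
        hsy x y]
      module
    rwa [h5] at h4
  have hx0 : x - B x v • w ∈ U' := U'.sub_mem hx (U'.smul_mem _ I.memw)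
  have hxv : B (x - B x v • w) v = 0 := by
    rw [map_sub, map_smul, LinearMap.sub_apply, LinearMap.smul_apply, hwv, smul_eq_mul, mul_one,
      sub_self]
  have hy0 : y - B w y • v ∈ U := U.sub_mem hy (U.smul_mem _ I.memv)
  have hwy : B w (y - B w y • v) = 0 := by
    rw [map_sub, map_smul, hwv, smul_eq_mul, mul_one, sub_self]
  have h4 := h3 _ hx0 hxv _ hy0 hwy
  have h5 := h1 _ hy0 hwy
  have h6 := h2 _ hx0 hxv
  have h7 := L.add_mem (L.add_mem h4 (L.smul_mem (B x v) h5)) (L.smul_mem (B w y) h6)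
  convert h7 using 1
  have e1 : pp B s x y = pp B s (x - B x v • w) (y - B w y • v) +
      B x v • pp B s w (y - B w y • v) + B w y • pp B s (x - B x v • w) v +
      (B x v * B w y) • pp B s w v := by
    simp only [pp_sub_left, pp_sub_right, pp_smul_left, pp_smul_right]
    module
  have e2 : B (x - B x v • w) (y - B w y • v) = B x y - B x v * B w y := by
    simp only [map_sub, map_smul, LinearMap.sub_apply, LinearMap.smul_apply, smul_eq_mul, hwv]
    ring
  rw [e2]
  nth_rewrite 1 [e1]
  module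

end

end Pool.Agent.Y130
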