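import Pool.Agent.Y130.Iso

/-!
# Lie algebras with isolated weights: the symplectic case and the anisotropic orthogonal case
-/

set_option linter.unusedSectionVars false

open Module

namespace Pool.Agent.Y130

open Pool.Agent.TH125.Gal

universe u v

variable {K : Type u} [Field K] [CharZero K] {T : Type v} [AddCommGroup T] [Module K T]
  {B : T →ₗ[K] T →ₗ[K] K} {s : K}

/-- brackets of the operators -/
theorem pp_pp (hs : s * s = 1) (hsy : ∀ x y, B x y = s * B y x) (a b x y : T) :
    pp B s a b * pp B s x y - pp B s x y * pp B s a b =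
      pp B s (pp B s a b x) y + pp B s x (pp B s a b y) := by
  rw [pp_bracket (c := 0) (fun x y => by rw [pp_skew hs hsy, zero_mul]), zero_smul, sub_zero]

section sp

variable {L₁ L : Submodule K (End K T)} {U : Submodule K T} {v w : T}
  (hsy : ∀ x y, B x y = (-1) * B y x)
  (hL1 : ∀ Y ∈ L₁, ∃ c : K, ∀ x y, B (Y x) y + B x (Y y) = c * B x y)
  (hLL : L ≤ L₁) (hbr : ∀ Y ∈ L₁, ∀ Z ∈ L, Y * Z - Z * Y ∈ L)
  (hU : ∀ Y ∈ L₁, ∀ x ∈ U, Y x ∈ U)

include hsy in
theorem alt_of (x : T) : B x x = 0 := by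
  have h1 := hsy x x
  have h2 : (2 : K) * B x x = 0 := by linear_combination h1
  exact (mul_eq_zero.1 h2).resolve_left two_ne_zero

theorem ppn_apply (x y z : T) : pp B (-1) x y z = B x z • y + B y z • x := by
  rw [pp_apply]
  module

theorem ppn_comm (x y : T) : pp B (-1) y x = pp B (-1) x y := by
  apply LinearMap.ext
  intro z
  rw [ppn_apply, ppn_apply, add_comm]

include hsy hLL in
theorem Iso.spA (I : Iso B (-1) L₁ L U U v w) {b : T} (hb : b ∈ BB B (-1) L U w)
    (hbv : B b v ≠ 0) : w ∈ BB B (-1) L U w := by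
  have hww := alt_of hsy w
  have hvv := alt_of hsy v
  have hwv := I.pair
  have h1 := I.ext _ (hLL hb.2)
  rw [ppn_apply, hwv, one_smul] at h1
  have h2 := L.sub_mem h1 hb.2
  rw [← pp_sub_right] at h2
  have h3 : b + B b v • w - B w (b + B b v • w) • v - b = B b v • w - B w b • v := by
    rw [map_add, map_smul, hww, smul_zero, add_zero]
    abel
  rw [h3] at h2
  have h4 := I.ext _ (hLL h2)
  have h5 : pp B (-1) w (B b v • w - B w b • v) v =
      (2 * B b v) • w - B w b • v := by
    rw [ppn_apply, hwv, map_sub, map_smul, map_smul, LinearMap.sub_apply, LinearMap.smul_apply,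
      LinearMap.smul_apply, hwv, hvv]
    module
  rw [h5] at h4
  have h6 : (2 * B b v) • w - B w b • v - B w ((2 * B b v) • w - B w b • v) • v =
      (2 * B b v) • w := by
    rw [map_sub, map_smul, map_smul, hww, hwv]
    module
  rw [h6, pp_smul_right] at h4
  have h7 := L.smul_mem (2 * B b v)⁻¹ h4
  rw [smul_smul, inv_mul_cancel₀ (mul_ne_zero two_ne_zero hbv), one_smul] at h7
  exact ⟨I.memw, h7⟩

include hsy hL1 hLL hbr hU in
theorem Iso.spB (I : Iso B (-1) L₁ L U U v w) : w ∈ BB B (-1) L U w := by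
  have hs : (-1 : K) * (-1) = 1 := by norm_num
  have hww := alt_of hsy w
  have hvv := alt_of hsy v
  have hwv := I.pair
  by_contra hw
  have hbv : ∀ b ∈ BB B (-1) L U w, B b v = 0 := by
    intro b hb
    by_contra h
    exact hw (I.spA hsy hLL hb h)
  have hbb : ∀ b ∈ BB B (-1) L U w, ∀ b' ∈ BB B (-1) L U w, B b b' = 0 := by
    intro b hb b' hb'
    by_contra h
    apply hw
    have h1 := hbr _ (hLL hb.2) _ hb'.2
    rw [pp_pp hs hsy, ppn_apply w b w, ppn_apply w b b', hww, zero_smul, zero_add, pp_smul_left,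
      pp_add_right, pp_smul_right, pp_smul_right] at h1
    have h2 := L.sub_mem (L.sub_mem h1 (L.smul_mem (B b w) hb'.2)) (L.smul_mem (B w b') hb.2)
    have h3 : B b w • pp B (-1) w b' + (B w b' • pp B (-1) w b + B b b' • pp B (-1) w w) -
        B b w • pp B (-1) w b' - B w b' • pp B (-1) w b = B b b' • pp B (-1) w w := by
      abel
    rw [h3] at h2
    have h4 := L.smul_mem (B b b')⁻¹ h2
    rw [smul_smul, inv_mul_cancel₀ h, one_smul] at h4
    exact ⟨I.memw, h4⟩
  have hM : Submodule.span K {v} ⊔ BB B (-1) L U w = U := by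
    refine I.irr _ (sup_le ?_ fun b hb => hb.1) (Submodule.mem_sup_left
      (Submodule.mem_span_singleton_self v)) fun Y hY x hx => ?_
    · rw [Submodule.span_singleton_le_iff_mem]
      exact I.memv
    · obtain ⟨a, ha, b, hb, rfl⟩ := Submodule.mem_sup.1 hx
      obtain ⟨κ, rfl⟩ := Submodule.mem_span_singleton.1 ha
      have h1 := I.step1 hU hY
      have h2 : Y v = B w (Y v) • v + (Y v - B w (Y v) • v) := by abel
      rw [map_add, map_smul]
      refine Submodule.add_mem _ (Submodule.smul_mem _ _ ?_) ?_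
      · rw [h2]
        exact Submodule.add_mem_sup (Submodule.smul_mem _ _
          (Submodule.mem_span_singleton_self v)) h1
      · have h3 := I.step2 hL1 hLL hbr hU hY hb
        obtain ⟨c, hc⟩ := hL1 Y hY
        have h4 : B (Y b) v = 0 := by
          have h5 := hc b v
          rw [hbv b hb, mul_zero] at h5
          have h6 : B b (Y v) = 0 := by
            rw [h2, map_add, map_smul, hbv b hb, smul_zero, zero_add]
            exact hbb b hb _ h1
          rw [h6, add_zero] at h5
          exact h5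
        rw [hbv b hb, h4] at h3
        simp only [mul_zero, zero_smul, sub_zero, smul_zero, Submodule.span_zero_singleton,
          sup_bot_eq] at h3
        exact h3
  have hwM : w ∈ Submodule.span K {v} ⊔ BB B (-1) L U w := by rw [hM]; exact I.memw
  obtain ⟨a, ha, b, hb, hab⟩ := Submodule.mem_sup.1 hwM
  obtain ⟨κ, rfl⟩ := Submodule.mem_span_singleton.1 ha
  rw [← hab, map_add, map_smul, LinearMap.add_apply, LinearMap.smul_apply, hvv, hbv b hb,
    smul_zero, add_zero] at hwv
  exact zero_ne_one hwv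

include hsy hL1 hLL hbr hU in
/-- **The symplectic Lie algebra.** -/
theorem Iso.sp (I : Iso B (-1) L₁ L U U v w) (I' : Iso B (-1) L₁ L U U w ((-1 : K) • v))
    {x y : T} (hx : x ∈ U) (hy : y ∈ U) : pp B (-1) x y ∈ L := by
  have hs : (-1 : K) * (-1) = 1 := by norm_num
  have hww := alt_of hsy w
  have hvv := alt_of hsy v
  have hwv := I.pair
  have hvw : B v w = -1 := by rw [hsy, hwv, mul_one]
  have h1 := (I.spB hsy hL1 hLL hbr hU).2
  have h2 : pp B (-1) v v ∈ L := by
    have h3 := (I'.spB hsy hL1 hLL hbr hU).2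
    rw [pp_smul_left, pp_smul_right, smul_smul, hs, one_smul] at h3
    exact h3
  have h3 : pp B (-1) w v ∈ L := by
    have h4 := hbr _ (hLL h2) _ h1
    rw [pp_pp hs hsy, ppn_apply, hvw, ← add_smul, pp_smul_left, pp_smul_right, ppn_comm w v,
      ← add_smul] at h4
    have h5 := L.smul_mem (-(1 / 4) : K) h4
    rw [smul_smul] at h5
    have h6 : (-(1 / 4) : K) * (-1 + -1 + (-1 + -1)) = 1 := by norm_num
    rwa [h6, one_smul] at h5
  have hto : ∀ b, pp B (-1) w b ∈ L → pp B (-1) v b ∈ L := by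
    intro b hb
    have h4 := hbr _ (hLL h2) _ hb
    rw [pp_pp hs hsy, ppn_apply, ppn_apply, hvw, ← add_smul, ← add_smul, pp_smul_left,
      pp_smul_right] at h4
    have h5 := L.smul_mem (-(1 / 2) : K) (L.sub_mem h4 (L.smul_mem (B v b + B v b) h3))
    rw [add_sub_cancel_right, smul_smul] at h5
    have h6 : (-(1 / 2) : K) * (-1 + -1) = 1 := by norm_num
    rwa [h6, one_smul] at h5
  have hfrom : ∀ b, pp B (-1) v b ∈ L → pp B (-1) w b ∈ L := by
    intro b hb
    have h4 := hbr _ (hLL h1) _ hb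
    rw [pp_pp hs hsy, ppn_apply, ppn_apply, hwv, ← add_smul, ← add_smul, pp_smul_left,
      pp_smul_right, ppn_comm w v] at h4
    have h5 := L.smul_mem ((1 / 2) : K) (L.sub_mem h4 (L.smul_mem (B w b + B w b) h3))
    rw [add_sub_cancel_right, smul_smul] at h5
    have h6 : ((1 / 2) : K) * (1 + 1) = 1 := by norm_num
    rwa [h6, one_smul] at h5
  have hvB : v ∈ BB B (-1) L U w := ⟨I.memv, h3⟩
  have hwB : w ∈ BB B (-1) L U w := ⟨I.memw, h1⟩
  have hM : BB B (-1) L U w = U := by
    refine I.irr _ (fun b hb => hb.1) hvB fun Y hY b hb => ?_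
    have h4 := I.step2 hL1 hLL hbr hU hY hb
    have h5 : Submodule.span K {v} ⊔ BB B (-1) L U w ⊔
        Submodule.span K {(-1 : K) • (B b v • w)} ≤ BB B (-1) L U w := by
      refine sup_le (sup_le ?_ le_rfl) ?_
      · rw [Submodule.span_singleton_le_iff_mem]
        exact hvB
      · rw [Submodule.span_singleton_le_iff_mem]
        exact Submodule.smul_mem _ _ (Submodule.smul_mem _ _ hwB)
    have h6 := h5 h4
    have h7 : Y w ∈ BB B (-1) L U w := by
      have h8 := I'.ext Y hY
      rw [pp_smul_left] at h8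
      have h9 := L.smul_mem (-1 : K) h8
      rw [smul_smul, hs, one_smul] at h9
      have h10 : Y w - B ((-1 : K) • v) (Y w) • w ∈ BB B (-1) L U w :=
        ⟨U.sub_mem (hU Y hY w I.memw) (U.smul_mem _ I.memw), hfrom _ h9⟩
      have h11 := Submodule.add_mem _ h10 (Submodule.smul_mem _ (B ((-1 : K) • v) (Y w)) hwB)
      rwa [sub_add_cancel] at h11
    have h8 := Submodule.add_mem _ (Submodule.add_mem _ h6
      (Submodule.smul_mem _ (-1 * B (Y b) v) hwB)) (Submodule.smul_mem _ (-1 * B b v) h7)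
    rwa [sub_add_cancel, sub_add_cancel] at h8
  have hxB : x ∈ BB B (-1) L U w := by rw [hM]; exact hx
  have hyB : y ∈ BB B (-1) L U w := by rw [hM]; exact hy
  have h4 := hbr _ (hLL hxB.2) _ (hto y hyB.2)
  rw [pp_pp hs hsy, ppn_apply w x v, ppn_apply w x y, hwv, one_smul, pp_add_left, pp_smul_left,
    pp_add_right, pp_smul_right, pp_smul_right, ppn_comm w v] at h4
  have h5 := L.sub_mem (L.sub_mem (L.sub_mem h4 (L.smul_mem (B x v) hyB.2))
    (L.smul_mem (B w y) (hto x hxB.2))) (L.smul_mem (B x y) h3)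
  convert h5 using 1
  abel

end sp

section so1

variable {L₁ L : Submodule K (End K T)} {U : Submodule K T} {v w : T}
  (hsy : ∀ x y, B x y = 1 * B y x)
  (hL1 : ∀ Y ∈ L₁, ∃ c : K, ∀ x y, B (Y x) y + B x (Y y) = c * B x y)
  (hLL : L ≤ L₁) (hbr : ∀ Y ∈ L₁, ∀ Z ∈ L, Y * Z - Z * Y ∈ L)
  (hU : ∀ Y ∈ L₁, ∀ x ∈ U, Y x ∈ U)

theorem ppo_apply (x y z : T) : pp B 1 x y z = B x z • y - B y z • x := by
  rw [pp_apply, one_mul]

theorem ppo_comm (x y : T) : pp B 1 y x = -pp B 1 x y := by
  apply LinearMap.ext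
  intro z
  rw [LinearMap.neg_apply, ppo_apply, ppo_apply]
  abel

theorem ppo_self (x : T) : pp B 1 x x = 0 := by
  apply LinearMap.ext
  intro z
  rw [ppo_apply, sub_self, LinearMap.zero_apply]

include hsy hL1 hLL hbr hU in
/-- **The orthogonal Lie algebra, if the isolated weight is self-dual.** -/
theorem Iso.so1 (I : Iso B 1 L₁ L U U v w) {κ : K} (hκ : w = κ • v) {x y : T} (hx : x ∈ U)
    (hy : y ∈ U) : pp B 1 x y ∈ L := by
  have hs : (1 : K) * 1 = 1 := by norm_num
  have hwv := I.pair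
  have hκ0 : κ ≠ 0 := by
    rintro rfl
    rw [hκ, zero_smul, map_zero, LinearMap.zero_apply] at hwv
    exact zero_ne_one hwv
  have hvv : B v v ≠ 0 := by
    intro h
    rw [hκ, map_smul, LinearMap.smul_apply, h, smul_zero] at hwv
    exact zero_ne_one hwv
  have hto : ∀ b, pp B 1 w b ∈ L → pp B 1 v b ∈ L := by
    intro b hb
    rw [hκ, pp_smul_left] at hb
    have h1 := L.smul_mem κ⁻¹ hb
    rwa [smul_smul, inv_mul_cancel₀ hκ0, one_smul] at h1
  have hvB : v ∈ BB B 1 L U w := ⟨I.memv, by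
    rw [hκ, pp_smul_left, ppo_self, smul_zero]
    exact L.zero_mem⟩
  have hwB : w ∈ BB B 1 L U w := ⟨I.memw, by
    rw [ppo_self]
    exact L.zero_mem⟩
  have hM : BB B 1 L U w = U := by
    refine I.irr _ (fun b hb => hb.1) hvB fun Y hY b hb => ?_
    have h4 := I.step2 hL1 hLL hbr hU hY hb
    have h5 : Submodule.span K {v} ⊔ BB B 1 L U w ⊔
        Submodule.span K {(1 : K) • (B b v • w)} ≤ BB B 1 L U w := by
      refine sup_le (sup_le ?_ le_rfl) ?_
      · rw [Submodule.span_singleton_le_iff_mem]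
        exact hvB
      · rw [Submodule.span_singleton_le_iff_mem]
        exact Submodule.smul_mem _ _ (Submodule.smul_mem _ _ hwB)
    have h6 := h5 h4
    have h7 : Y w ∈ BB B 1 L U w := by
      have h8 := Submodule.add_mem _ (I.step1 hU hY) (Submodule.smul_mem _ (B w (Y v)) hvB)
      rw [sub_add_cancel] at h8
      rw [hκ, map_smul]
      rw [hκ] at h8
      exact Submodule.smul_mem _ _ h8
    have h8 := Submodule.add_mem _ (Submodule.add_mem _ h6
      (Submodule.smul_mem _ (1 * B (Y b) v) hwB)) (Submodule.smul_mem _ (1 * B b v) h7)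
    rwa [sub_add_cancel, sub_add_cancel] at h8
  have hB : ∀ z ∈ U, pp B 1 v z ∈ L := by
    intro z hz
    have h1 : z ∈ BB B 1 L U w := by rw [hM]; exact hz
    exact hto z h1.2
  have h4 := hbr _ (hLL (hB x hx)) _ (hB y hy)
  rw [pp_pp hs hsy, ppo_apply v x v, pp_sub_left, pp_smul_left, pp_smul_left] at h4
  have h5 : pp B 1 v x y ∈ U := by
    rw [ppo_apply]
    exact U.sub_mem (U.smul_mem _ hx) (U.smul_mem _ I.memv)
  have h6 := L.add_mem (L.sub_mem h4 (hB _ h5)) (L.smul_mem (B x v) (hB y hy))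
  have h7 : B v v • pp B 1 x y - B x v • pp B 1 v y + pp B 1 v (pp B 1 v x y) -
      pp B 1 v (pp B 1 v x y) + B x v • pp B 1 v y = B v v • pp B 1 x y := by abel
  rw [h7] at h6
  have h8 := L.smul_mem (B v v)⁻¹ h6
  rwa [smul_smul, inv_mul_cancel₀ hvv, one_smul] at h8

end so1

end Pool.Agent.Y130
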