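import Pool.Agent.Y130.Iso2

/-!
# Lie algebras with isolated weights: the orthogonal case
-/

set_option linter.unusedSectionVars false

open Module

namespace Pool.Agent.Y130

open Pool.Agent.TH125.Gal

universe u v

variable {K : Type u} [Field K] [CharZero K] {T : Type v} [AddCommGroup T] [Module K T]
  {B : T →ₗ[K] T →ₗ[K] K}

/-- the vectors orthogonal to `v` and `w` -/
def B0 (B : T →ₗ[K] T →ₗ[K] K) (L : Submodule K (End K T)) (U : Submodule K T) (v w : T) :
    Submodule K T where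
  carrier := {b | b ∈ BB B 1 L U w ∧ B v b = 0 ∧ B w b = 0}
  zero_mem' := ⟨Submodule.zero_mem _, map_zero _, map_zero _⟩
  add_mem' := fun {x y} hx hy => ⟨Submodule.add_mem _ hx.1 hy.1, by
    rw [map_add, hx.2.1, hy.2.1, add_zero], by rw [map_add, hx.2.2, hy.2.2, add_zero]⟩
  smul_mem' := fun c {x} hx => ⟨Submodule.smul_mem _ c hx.1, by
    rw [map_smul, hx.2.1, smul_zero], by rw [map_smul, hx.2.2, smul_zero]⟩

variable {L₁ L : Submodule K (End K T)} {U : Submodule K T} {v w : T}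
  (hsy : ∀ x y, B x y = 1 * B y x)
  (hL1 : ∀ Y ∈ L₁, ∃ c : K, ∀ x y, B (Y x) y + B x (Y y) = c * B x y)
  (hLL : L ≤ L₁) (hbr : ∀ Y ∈ L₁, ∀ Z ∈ L, Y * Z - Z * Y ∈ L)
  (hU : ∀ Y ∈ L₁, ∀ x ∈ U, Y x ∈ U) (hvv : B v v = 0) (hww : B w w = 0)

include hsy hLL hvv hww in
theorem Iso.soA (I : Iso B 1 L₁ L U U v w) {b : T} (hb : b ∈ BB B 1 L U w) :
    b - B b v • w - B w b • v ∈ B0 B L U v w := by
  have hwv := I.pair
  have hvw : B v w = 1 := by rw [hsy, hwv, mul_one]
  have h1 := I.ext _ (hLL hb.2)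
  rw [ppo_apply, hwv, one_smul] at h1
  have h2 : B w (b - B b v • w) = B w b := by
    rw [map_sub, map_smul, hww, smul_zero, sub_zero]
  rw [h2] at h1
  refine ⟨⟨U.sub_mem (U.sub_mem hb.1 (U.smul_mem _ I.memw)) (U.smul_mem _ I.memv), h1⟩, ?_, ?_⟩
  · rw [map_sub, map_sub, map_smul, map_smul, hvw, hvv, hsy v b]
    simp
  · rw [map_sub, map_sub, map_smul, map_smul, hww, hwv]
    simp

include hsy hLL hvv hww in
theorem Iso.soA' (I : Iso B 1 L₁ L U U v w) :
    Submodule.span K {v} ⊔ BB B 1 L U w ≤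
      Submodule.span K {v} ⊔ Submodule.span K {w} ⊔ B0 B L U v w := by
  refine sup_le (le_sup_of_le_left le_sup_left) fun b hb => ?_
  have h1 := I.soA hsy hLL hvv hww hb
  have h2 : b = (b - B b v • w - B w b • v) + B b v • w + B w b • v := by abel
  rw [h2]
  refine Submodule.add_mem _ (Submodule.add_mem _ (Submodule.mem_sup_right h1) ?_) ?_
  · exact Submodule.mem_sup_left (Submodule.mem_sup_right
      (Submodule.smul_mem _ _ (Submodule.mem_span_singleton_self w)))
  · exact Submodule.mem_sup_left (Submodule.mem_sup_left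
      (Submodule.smul_mem _ _ (Submodule.mem_span_singleton_self v)))

include hsy hL1 hU hvv in
theorem Iso.soB (I : Iso B 1 L₁ L U U v w) {Y : End K T} (hY : Y ∈ L₁) :
    Y v - B w (Y v) • v ∈ B0 B L U v w := by
  have hwv := I.pair
  obtain ⟨c, hc⟩ := hL1 Y hY
  have h1 := hc v v
  rw [hsy (Y v) v, hvv, mul_zero] at h1
  have h2 : (2 : K) * B v (Y v) = 0 := by linear_combination h1
  have h3 : B v (Y v) = 0 := (mul_eq_zero.1 h2).resolve_left two_ne_zero
  refine ⟨I.step1 hU hY, ?_, ?_⟩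
  · rw [map_sub, map_smul, h3, hvv]
    simp
  · rw [map_sub, map_smul, hwv]
    simp

include hsy hL1 hLL hbr hU hvv hww in
theorem Iso.soC (I : Iso B 1 L₁ L U U v w) {Y : End K T} (hY : Y ∈ L₁) {b : T}
    (hb : b ∈ B0 B L U v w) :
    Y b ∈ Submodule.span K {v} ⊔ Submodule.span K {w} ⊔ B0 B L U v w := by
  have h1 := I.step2 hL1 hLL hbr hU hY hb.1
  rw [hsy b v, hb.2.1] at h1
  simp only [mul_zero, zero_smul, sub_zero, smul_zero, Submodule.span_zero_singleton,
    sup_bot_eq] at h1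
  have h2 := Submodule.add_mem _ (I.soA' hsy hLL hvv hww h1) (Submodule.mem_sup_left
    (Submodule.mem_sup_right (Submodule.smul_mem _ (1 * B (Y b) v)
      (Submodule.mem_span_singleton_self w))))
  rwa [sub_add_cancel] at h2

include hsy hL1 hLL hbr hU hvv hww in
theorem Iso.soD (I : Iso B 1 L₁ L U U v w) :
    ∃ b ∈ B0 B L U v w, ∃ b' ∈ B0 B L U v w, B b b' ≠ 0 := by
  have hwv := I.pair
  by_contra hcon
  push Not at hcon
  have hM : Submodule.span K {v} ⊔ B0 B L U v w = U := by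
    refine I.irr _ (sup_le ?_ fun b hb => hb.1.1) (Submodule.mem_sup_left
      (Submodule.mem_span_singleton_self v)) fun Y hY x hx => ?_
    · rw [Submodule.span_singleton_le_iff_mem]
      exact I.memv
    · obtain ⟨a, ha, b, hb, rfl⟩ := Submodule.mem_sup.1 hx
      obtain ⟨κ, rfl⟩ := Submodule.mem_span_singleton.1 ha
      have h1 := I.soB hsy hL1 hU hvv hY
      have h2 : Y v = B w (Y v) • v + (Y v - B w (Y v) • v) := by abel
      rw [map_add, map_smul]
      refine Submodule.add_mem _ (Submodule.smul_mem _ _ ?_) ?_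
      · rw [h2]
        exact Submodule.add_mem_sup (Submodule.smul_mem _ _
          (Submodule.mem_span_singleton_self v)) h1
      · obtain ⟨c, hc⟩ := hL1 Y hY
        have h3 := I.soC hsy hL1 hLL hbr hU hvv hww hY hb
        obtain ⟨z, hz, b', hb', hzb⟩ := Submodule.mem_sup.1 h3
        obtain ⟨z1, hz1, z2, hz2, hzz⟩ := Submodule.mem_sup.1 hz
        obtain ⟨α, rfl⟩ := Submodule.mem_span_singleton.1 hz1
        obtain ⟨β, rfl⟩ := Submodule.mem_span_singleton.1 hz2
        have hbv : B b v = 0 := by rw [hsy, hb.2.1, mul_zero]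
        have h4 : B (Y b) v = 0 := by
          have h5 := hc b v
          rw [hbv, mul_zero] at h5
          have h6 : B b (Y v) = 0 := by
            rw [h2, map_add, map_smul, hbv, smul_zero, zero_add]
            exact hcon b hb _ h1
          rw [h6, add_zero] at h5
          exact h5
        have h5 : β = 0 := by
          have hb'v : B b' v = 0 := by rw [hsy, hb'.2.1, mul_zero]
          rw [← hzb, ← hzz] at h4
          simp only [map_add, map_smul, LinearMap.add_apply, LinearMap.smul_apply, hvv, hwv,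
            hb'v, mul_zero, add_zero, zero_add, smul_eq_mul, mul_one] at h4
          exact h4
        rw [← hzb, ← hzz, h5, zero_smul, add_zero]
        exact Submodule.add_mem_sup hz1 hb'
  have hwM : w ∈ Submodule.span K {v} ⊔ B0 B L U v w := by rw [hM]; exact I.memw
  obtain ⟨a, ha, b, hb, hab⟩ := Submodule.mem_sup.1 hwM
  obtain ⟨κ, rfl⟩ := Submodule.mem_span_singleton.1 ha
  have hbv : B b v = 0 := by rw [hsy, hb.2.1, mul_zero]
  rw [← hab, map_add, map_smul, LinearMap.add_apply, LinearMap.smul_apply, hvv, hbv,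
    smul_zero, add_zero] at hwv
  exact zero_ne_one hwv

include hsy hLL hbr in
/-- the element attached to two vectors -/
theorem Iso.soZ (I : Iso B 1 L₁ L U U v w) {b b' : T} (hb : b ∈ B0 B L U v w)
    (hb' : b' ∈ B0 B L U w v) : pp B 1 b b' - B b b' • pp B 1 v w ∈ L := by
  have hs : (1 : K) * 1 = 1 := by norm_num
  have hwv := I.pair
  have h1 := hbr _ (hLL hb.1.2) _ hb'.1.2
  rw [pp_pp hs hsy, ppo_apply w b v, ppo_apply w b b', hwv, hsy b v, hb.2.1, hb'.2.1] at h1
  have h2 : pp B 1 ((1 : K) • b - (1 * 0 : K) • w) b' +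
      pp B 1 v ((0 : K) • b - B b b' • w) = pp B 1 b b' - B b b' • pp B 1 v w := by
    rw [mul_zero, zero_smul, zero_smul, sub_zero, one_smul, zero_sub, ← neg_smul, pp_smul_right,
      neg_smul, ← sub_eq_add_neg]
  rwa [h2] at h1

include hsy hLL hbr hww in
theorem Iso.soE (I : Iso B 1 L₁ L U U v w) {b1 b2 : T} (hb1 : b1 ∈ B0 B L U v w)
    (hb2 : b2 ∈ B0 B L U v w) (h12 : B b1 b2 ≠ 0) {b' : T} (hb' : b' ∈ B0 B L U w v) :
    b' ∈ B0 B L U v w := by
  have hs : (1 : K) * 1 = 1 := by norm_num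
  have hwv := I.pair
  have hvw : B v w = 1 := by rw [hsy, hwv, mul_one]
  have hZ := I.soZ hsy hLL hbr hb1 hb'
  have h1 := hbr _ (hLL hZ) _ hb2.1.2
  have h2 : (pp B 1 b1 b' - B b1 b' • pp B 1 v w) * pp B 1 w b2 -
      pp B 1 w b2 * (pp B 1 b1 b' - B b1 b' • pp B 1 v w) =
      (pp B 1 b1 b' * pp B 1 w b2 - pp B 1 w b2 * pp B 1 b1 b') -
        B b1 b' • (pp B 1 v w * pp B 1 w b2 - pp B 1 w b2 * pp B 1 v w) := by
    rw [sub_mul, mul_sub, smul_mul_assoc, mul_smul_comm, smul_sub]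
    abel
  have e1 : pp B 1 b1 b' w = 0 := by
    rw [ppo_apply, hsy b1 w, hsy b' w, hb1.2.2, hb'.2.1]
    simp
  have e2 : pp B 1 v w w = w := by
    rw [ppo_apply, hvw, hww]
    simp
  have e3 : pp B 1 v w b2 = 0 := by
    rw [ppo_apply, hb2.2.1, hb2.2.2]
    simp
  rw [h2, pp_pp hs hsy, pp_pp hs hsy, e1, e2, e3, pp_zero_left, zero_add, pp_zero_right, add_zero,
    ppo_apply b1 b' b2, pp_sub_right, pp_smul_right, pp_smul_right] at h1
  have h3 := L.add_mem (L.add_mem h1 (L.smul_mem (B b1 b') hb2.1.2))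
    (L.smul_mem (B b' b2) hb1.1.2)
  have h4 : B b1 b2 • pp B 1 w b' - B b' b2 • pp B 1 w b1 - B b1 b' • pp B 1 w b2 +
      B b1 b' • pp B 1 w b2 + B b' b2 • pp B 1 w b1 = B b1 b2 • pp B 1 w b' := by abel
  rw [h4] at h3
  have h5 := L.smul_mem (B b1 b2)⁻¹ h3
  rw [smul_smul, inv_mul_cancel₀ h12, one_smul] at h5
  exact ⟨⟨hb'.1.1, h5⟩, hb'.2.2, hb'.2.1⟩

include hsy hL1 hLL hbr hU hvv hww in
/-- **The orthogonal Lie algebra.** -/
theorem Iso.so (I : Iso B 1 L₁ L U U v w) (I' : Iso B 1 L₁ L U U w v) {x y : T} (hx : x ∈ U)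
    (hy : y ∈ U) : pp B 1 x y ∈ L := by
  obtain ⟨b1, hb1, b2, hb2, h12⟩ := I.soD hsy hL1 hLL hbr hU hvv hww
  obtain ⟨c1, hc1, c2, hc2, k12⟩ := I'.soD hsy hL1 hLL hbr hU hww hvv
  have hto : ∀ b ∈ B0 B L U w v, b ∈ B0 B L U v w := fun b hb =>
    I.soE hsy hLL hbr hww hb1 hb2 h12 hb
  have hfrom : ∀ b ∈ B0 B L U v w, b ∈ B0 B L U w v := fun b hb =>
    I'.soE hsy hLL hbr hvv hc1 hc2 k12 hb
  have hM : Submodule.span K {v} ⊔ Submodule.span K {w} ⊔ B0 B L U v w = U := by
    refine I.irr _ (sup_le (sup_le ?_ ?_) fun b hb => hb.1.1) (Submodule.mem_sup_left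
      (Submodule.mem_sup_left (Submodule.mem_span_singleton_self v))) fun Y hY x hx => ?_
    · rw [Submodule.span_singleton_le_iff_mem]
      exact I.memv
    · rw [Submodule.span_singleton_le_iff_mem]
      exact I.memw
    · obtain ⟨z, hz, b, hb, rfl⟩ := Submodule.mem_sup.1 hx
      obtain ⟨z1, hz1, z2, hz2, rfl⟩ := Submodule.mem_sup.1 hz
      obtain ⟨α, rfl⟩ := Submodule.mem_span_singleton.1 hz1
      obtain ⟨β, rfl⟩ := Submodule.mem_span_singleton.1 hz2
      rw [map_add, map_add, map_smul, map_smul]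
      refine Submodule.add_mem _ (Submodule.add_mem _ (Submodule.smul_mem _ _ ?_)
        (Submodule.smul_mem _ _ ?_)) (I.soC hsy hL1 hLL hbr hU hvv hww hY hb)
      · have h1 := I.soB hsy hL1 hU hvv hY
        have h2 : Y v = B w (Y v) • v + (Y v - B w (Y v) • v) := by abel
        rw [h2]
        exact Submodule.add_mem _ (Submodule.mem_sup_left (Submodule.mem_sup_left
          (Submodule.smul_mem _ _ (Submodule.mem_span_singleton_self v))))
          (Submodule.mem_sup_right h1)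
      · have h1 := hto _ (I'.soB hsy hL1 hU hww hY)
        have h2 : Y w = B v (Y w) • w + (Y w - B v (Y w) • w) := by abel
        rw [h2]
        exact Submodule.add_mem _ (Submodule.mem_sup_left (Submodule.mem_sup_right
          (Submodule.smul_mem _ _ (Submodule.mem_span_singleton_self w))))
          (Submodule.mem_sup_right h1)
  have hvw : pp B 1 v w ∈ L := by
    have h1 := I.soZ hsy hLL hbr hb1 (hfrom b2 hb2)
    have h2 := I.soZ hsy hLL hbr hb2 (hfrom b1 hb1)
    have h3 := L.add_mem h1 h2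
    rw [ppo_comm b1 b2, hsy b2 b1, one_mul] at h3
    have h4 : pp B 1 b1 b2 - B b1 b2 • pp B 1 v w + (-pp B 1 b1 b2 - B b1 b2 • pp B 1 v w) =
        (-(2 * B b1 b2)) • pp B 1 v w := by
      module
    rw [h4] at h3
    have h5 := L.smul_mem (-(2 * B b1 b2))⁻¹ h3
    rwa [smul_smul, inv_mul_cancel₀ (neg_ne_zero.2 (mul_ne_zero two_ne_zero h12)),
      one_smul] at h5
  have hbb : ∀ b ∈ B0 B L U v w, ∀ b' ∈ B0 B L U v w, pp B 1 b b' ∈ L := by
    intro b hb b' hb'
    have h1 := L.add_mem (I.soZ hsy hLL hbr hb (hfrom b' hb')) (L.smul_mem (B b b') hvw)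
    rwa [sub_add_cancel] at h1
  have hx' : x ∈ Submodule.span K {v} ⊔ Submodule.span K {w} ⊔ B0 B L U v w := by
    rw [hM]; exact hx
  have hy' : y ∈ Submodule.span K {v} ⊔ Submodule.span K {w} ⊔ B0 B L U v w := by
    rw [hM]; exact hy
  obtain ⟨z, hz, b, hb, rfl⟩ := Submodule.mem_sup.1 hx'
  obtain ⟨z1, hz1, z2, hz2, rfl⟩ := Submodule.mem_sup.1 hz
  obtain ⟨α, rfl⟩ := Submodule.mem_span_singleton.1 hz1
  obtain ⟨β, rfl⟩ := Submodule.mem_span_singleton.1 hz2
  obtain ⟨z', hz', b', hb', rfl⟩ := Submodule.mem_sup.1 hy'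
  obtain ⟨z1', hz1', z2', hz2', rfl⟩ := Submodule.mem_sup.1 hz'
  obtain ⟨α', rfl⟩ := Submodule.mem_span_singleton.1 hz1'
  obtain ⟨β', rfl⟩ := Submodule.mem_span_singleton.1 hz2'
  simp only [pp_add_left, pp_add_right, pp_smul_left, pp_smul_right, ppo_self, smul_zero]
  have hwv' : pp B 1 w v ∈ L := by
    rw [ppo_comm v w]
    exact L.neg_mem hvw
  have hbv : pp B 1 b v ∈ L := by
    rw [ppo_comm v b]
    exact L.neg_mem (hfrom b hb).1.2
  have hbw : pp B 1 b w ∈ L := by
    rw [ppo_comm w b]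
    exact L.neg_mem hb.1.2
  repeat' first
    | exact L.zero_mem
    | exact hvw
    | exact hwv'
    | exact hbv
    | exact hbw
    | exact hbb b hb b' hb'
    | exact hb'.1.2
    | exact (hfrom b' hb').1.2
    | apply L.add_mem
    | apply L.smul_mem

end Pool.Agent.Y130
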