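import Pool.Agent.TH125.Gal.Pub

/-!
# Isolated eigenvalues: definitions
-/

open CategoryTheory AlgebraicGeometry

universe u

namespace Pool.Agent.Y130

open Pool.Agent.TH125.Gal

section Alg

variable {K : Type} [Field K] {A : Type} [Ring A] [Algebra K A] {Γ : Type} [Group Γ] {C : Type}

/-- Two elements which differ by a root of unity. -/
def UpTo (a b : K) : Prop := ∃ n : ℕ, 0 < n ∧ a ^ n = b ^ n

/-- The eigenvalues of `F` on the subspace `T`. -/
def eigOn (T : Submodule K A) (ρ : Γ →* (A ≃ₐ[K] A)) (F : Γ) : Set K :=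
  {β | ∃ x ∈ T, x ≠ 0 ∧ ρ F x = β • x}

/-- The multiplicative group generated by the nonzero elements of a set. -/
def mulGrp (E : Set K) : Subgroup Kˣ := Subgroup.closure {u | (u : K) ∈ E}

/-- The vector `v` is an isolated eigenvector of `F` on `T` with the eigenvalue `a` (`α ~ β` means
that `α` and `β` differ by a root of unity): the generalized eigenspaces of `F` on `T` for the `β ~ a`
are contained in the line of `v`; if `a δ ~ β γ` for eigenvalues `β`, `γ`, `δ` of `F` on `T`
then `β ~ a` or `γ ~ a` or `a δ ~ m`; and no positive power of a quotient `β / a` for an eigenvalue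
`β` on `T`, not `~ a`, is in the group generated by the nonzero elements of `E`. -/
structure IsolatedVec (T : Submodule K A) (ρ : Γ →* (A ≃ₐ[K] A)) (F : Γ) (m : K) (E : Set K)
    (a : K) (v : A) : Prop where
  ne : v ≠ 0
  eig : ρ F v = a • v
  simple : ∀ β, UpTo β a → ∀ x ∈ T,
    x ∈ Module.End.maxGenEigenspace (ρ F).toLinearMap β → ∃ r : K, x = r • v
  rel : ∀ β ∈ eigOn T ρ F, ∀ γ ∈ eigOn T ρ F, ∀ δ ∈ eigOn T ρ F,
    UpTo (a * δ) (β * γ) → UpTo β a ∨ UpTo γ a ∨ UpTo (a * δ) m
  indep : ∀ β ∈ eigOn T ρ F, ∀ n : ℕ, 0 < n → ∀ u ∈ mulGrp E, β ^ n = u * a ^ n → UpTo β a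

/-- `F` maps the subspaces `U d` to themselves and no positive power of the determinant of `F` on
`U c` is in the group generated by the nonzero elements of `E` and the determinants of `F` on the
`U d` with `d` different from `c` and `c'`. -/
def IndepDet (ρ : Γ →* (A ≃ₐ[K] A)) (F : Γ) (U : C → Submodule K A) (c c' : C) (E : Set K) :
    Prop :=
  ∃ h : ∀ d, ∀ x ∈ U d, (ρ F).toLinearMap x ∈ U d, ∀ n : ℕ, 0 < n →
    ∀ u ∈ mulGrp (E ∪ {x | ∃ d, d ≠ c ∧ d ≠ c' ∧
      x = LinearMap.det ((ρ F).toLinearMap.restrict (h d))}),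
    (u : K) ≠ LinearMap.det ((ρ F).toLinearMap.restrict (h c)) ^ n

/-- `T` is the sum of the nonzero subspaces `U c`, which are stable under the subgroup `Δ` of finite
index and irreducible under all subgroups of finite index, and `U c` is orthogonal to all `U d`
except for the one with `d = star c`, for an involution `star`. -/
structure IsBlockDec (tr : A →ₗ[K] K) (T : Submodule K A) (ρ : Γ →* (A ≃ₐ[K] A))
    (U : C → Submodule K A) (star : C → C) (Δ : Subgroup Γ) : Prop where
  nonempty : Nonempty C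
  span : ⨆ c, U c = T
  ne : ∀ c, U c ≠ ⊥
  star_star : ∀ c, star (star c) = c
  orth : ∀ c d, d ≠ star c → ∀ x ∈ U c, ∀ y ∈ U d, tr (x * y) = 0
  index : Δ.FiniteIndex
  stable : ∀ g ∈ Δ, ∀ c, ∀ x ∈ U c, ρ g x ∈ U c
  irreducible : ∀ c, IrredAct ρ (U c)

/-- The transcendental cohomology `T` has a decomposition into subspaces `U c` as in `IsBlockDec`;
each `U c` is at most a line or contains an isolated eigenvector of some element `F` of `Γ` on `T`
with `m = χ F ^ n` and the set `E F`; for `star c ≠ c` some element `F` has the property `IndepDet`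
for `U c` and the union of the set `E F` and of `χ F`. -/
structure IsolatedAct (χ : Γ →* Kˣ) (tr : A →ₗ[K] K) (n : ℕ) (T : Submodule K A)
    (ρ : Γ →* (A ≃ₐ[K] A)) (E : Γ → Set K) (U : C → Submodule K A) (star : C → C)
    (Δ : Subgroup Γ) : Prop where
  blocks : IsBlockDec tr T ρ U star Δ
  isolated : ∀ c, Module.finrank K (U c) ≤ 1 ∨
    ∃ F a, ∃ v ∈ U c, IsolatedVec T ρ F ((χ F : K) ^ n) (E F) a v
  det : ∀ c, star c ≠ c → ∃ F, IndepDet ρ F U c (star c) ({(χ F : K)} ∪ E F)

end Alg

open Pool.Agent.H914 Pool.Agent.H914.VarClass Pool.Agent.H914.VarClass.Obj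
  Pool.Agent.H914.WeilCohomology Pool.Agent.H281R3.HT Pool.Agent.W552

variable {k : Type u} [Field k] {𝒱 : VarClass k} {ops : CycleOps 𝒱}
  {W : WeilCohomology.{u, 0} ops} {Γ : Type} [Group Γ]

/-- The eigenvalues of `F` on the cohomology of `Z` and of the `X j`, `j ≠ i`. -/
def otherEig {ι : Type} (X : ι → GVar W Γ) (Z : GVar W Γ) (i : ι) (F : Γ) : Set W.K :=
  eigOn ⊤ Z.act F ∪ {β | ∃ j, j ≠ i ∧ β ∈ eigOn ⊤ (X j).act F}

/-- Numerical and homological equivalence coincide for `X` and the transcendental cohomology is in the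
middle degree. -/
def MiddleVar (X : GVar W Γ) : Prop :=
  HomEqNum W X.X ∧ transcendental W X.X ≤ W.gr X.X X.X.dim

/-- `Γ` acts on the cohomology of `X` like a Galois group; numerical and homological equivalence
coincide for `X`; the transcendental cohomology is in the middle degree and has the property
`IsolatedAct`. -/
def IsolatedVar (χ : Γ →* W.Kˣ) (X : GVar W Γ) (E : Γ → Set W.K) {C : Type}
    (U : C → Submodule W.K (W.H X.X)) (star : C → C) (Δ : Subgroup Γ) : Prop :=
  IsGaloisAct χ (W.gr X.X) X.X.dim (W.tr X.X) (algClasses W X.X) X.act ∧ MiddleVar X ∧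
    IsolatedAct χ (W.tr X.X) X.X.dim (transcendental W X.X) X.act E U star Δ

/-- The varieties `Y = X_1^(n_1 + 1) × (X_2^(n_2 + 1) × ( ⋯ × Z))`, where the `X_i` are pairwise
different members of the family `X` (`S` is the set of the indices which are used) and `adm i n_i`
holds for the exponents. -/
inductive PTower {ι : Type} (X : ι → GVar W Γ) (Z : GVar W Γ) (adm : ι → ℕ → Prop) :
    Set ι → GVar W Γ → Prop
  | base : PTower X Z adm ∅ Z
  | step {S Y Y'} (i : ι) (n : ℕ) : PTower X Z adm S Y → i ∉ S → adm i n →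
      IsPowProd (X i) n Y Y' → PTower X Z adm (insert i S) Y'

end Pool.Agent.Y130
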