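import Pool.Agent.Y130.Eig
import Pool.Agent.Y130.Pub

/-!
# The Tate conjecture for products of powers of varieties with isolated eigenvalues
-/

open CategoryTheory AlgebraicGeometry

set_option linter.unusedSectionVars false

universe u

namespace Pool.Agent.Y130

open Pool.Agent.TH125.Gal Pool.Agent.TH118.SG
open Pool.Agent.H914 Pool.Agent.H914.VarClass Pool.Agent.H914.VarClass.Obj
  Pool.Agent.H914.WeilCohomology Pool.Agent.H281R3.HT Pool.Agent.W552

variable {k : Type u} [Field k] {𝒱 : VarClass k} {ops : CycleOps 𝒱}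
  {W : WeilCohomology.{u, 0} ops} {Γ : Type} [Group Γ] {χ : Γ →* W.Kˣ}

/-- determinants on subspaces -/
theorem det_sub {K V : Type} [Field K] [AddCommGroup V] [Module K V] {T U : Submodule K V}
    (hU : U ≤ T) {f : Module.End K V} {g : Module.End K T} (hg : ∀ x, (g x : V) = f x)
    (hf : ∀ x ∈ U, f x ∈ U) (hf' : ∀ x ∈ U.comap T.subtype, g x ∈ U.comap T.subtype) :
    LinearMap.det (g.restrict hf') = LinearMap.det (f.restrict hf) := by
  rw [← LinearMap.det_conj (g.restrict hf') (Submodule.comapSubtypeEquivOfLe hU)]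
  congr 1
  apply LinearMap.ext
  intro x
  apply Subtype.ext
  exact hg _

section sub

variable {X : 𝒱.Obj} {ρ : Γ →* (W.H X ≃ₐ[W.K] W.H X)} {C : Type}
  {U : C → Submodule W.K (W.H X)} {star : C → C}

/-- the subspaces of the transcendental cohomology -/
noncomputable def sb (U : C → Submodule W.K (W.H X)) (c : C) :
    Submodule W.K (transcendental W X) := (U c).comap (transcendental W X).subtype

theorem mem_sb {c : C} {x : transcendental W X} : x ∈ sb U c ↔ (x : W.H X) ∈ U c := Iff.rfl

theorem map_sb (hU : ∀ c, U c ≤ transcendental W X) (c : C) :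
    (sb U c).map (transcendental W X).subtype = U c := by
  rw [sb, Submodule.map_comap_subtype, inf_eq_right]
  exact hU c

noncomputable def sbEquiv (hU : ∀ c, U c ≤ transcendental W X) (c : C) :
    sb U c ≃ₗ[W.K] U c := Submodule.comapSubtypeEquivOfLe (hU c)

theorem sbEquiv_apply (hU : ∀ c, U c ≤ transcendental W X) (c : C) (x : sb U c) :
    (sbEquiv hU c x : W.H X) = (x : transcendental W X) := rfl

theorem finrank_sb (hU : ∀ c, U c ≤ transcendental W X) (c : C) :
    Module.finrank W.K (sb U c) = Module.finrank W.K (U c) :=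
  (sbEquiv hU c).finrank_eq

theorem iSup_sb (hU : ⨆ c, U c = transcendental W X) : ⨆ c, sb U c = ⊤ := by
  have h1 : ∀ c, U c ≤ transcendental W X := fun c => hU ▸ le_iSup U c
  apply Submodule.map_injective_of_injective (transcendental W X).injective_subtype
  rw [Submodule.map_iSup, Submodule.map_subtype_top]
  exact (iSup_congr fun c => map_sb h1 c).trans hU

end sub

section fam

variable {ι : Type} {X : ι → GVar W Γ} {Z : GVar W Γ} {C : ι → Type}
  {U : ∀ i, C i → Submodule W.K (W.H (X i).X)} {star : ∀ i, C i → C i} {Δ : ι → Subgroup Γ}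

theorem isEig_iff {V : GVar W Γ} {F : Γ} {β : W.K} :
    IsEig (V.act F).toLinearMap β ↔ β ∈ eigOn ⊤ V.act F :=
  ⟨fun ⟨x, hx, h⟩ => ⟨x, Submodule.mem_top, hx, h⟩, fun ⟨x, _, hx, h⟩ => ⟨x, hx, h⟩⟩

/-- the family -/
def IsolatedFamily (χ : Γ →* W.Kˣ) (X : ι → GVar W Γ) (Z : GVar W Γ)
    (U : ∀ i, C i → Submodule W.K (W.H (X i).X)) (star : ∀ i, C i → C i)
    (Δ : ι → Subgroup Γ) : Prop :=
  ∀ i, IsolatedVar χ (X i) (otherEig X Z i) (U i) (star i) (Δ i)

theorem IsolatedFamily.blocks (h : IsolatedFamily χ X Z U star Δ) (i : ι) :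
    IsBlockDec (W.tr (X i).X) (transcendental W (X i).X) (X i).act (U i) (star i) (Δ i) :=
  (h i).2.2.blocks

theorem IsolatedFamily.homEqNum (h : IsolatedFamily χ X Z U star Δ) (i : ι) :
    HomEqNum W (X i).X := (h i).2.1.1

theorem IsolatedFamily.middle (h : IsolatedFamily χ X Z U star Δ) (i : ι) :
    transcendental W (X i).X ≤ W.gr (X i).X (X i).X.dim := (h i).2.1.2

theorem IsolatedFamily.le (h : IsolatedFamily χ X Z U star Δ) (i : ι) (c : C i) :
    U i c ≤ transcendental W (X i).X := (h.blocks i).span ▸ le_iSup (U i) c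

theorem IsolatedFamily.isGalois (h : IsolatedFamily χ X Z U star Δ) (i : ι) :
    IsGalois W χ (X i).X (X i).act := Pool.Agent.TH125.Gal.isGalois (h i).1

theorem IsolatedFamily.fam (h : IsolatedFamily χ X Z U star Δ) (i : ι) :
    Fam (rform W (X i).X (transcendental W (X i).X)) (sb (U i)) (star i) where
  nd := trans_nondeg (h.homEqNum i)
  sup := iSup_sb (h.blocks i).span
  orth := fun c d hcd x hx y hy => (h.blocks i).orth c d hcd x hx y hy
  star_star := (h.blocks i).star_star

theorem IsolatedFamily.dat (h : IsolatedFamily χ X Z U star Δ) (i : ι) :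
    Dat (rform W (X i).X (transcendental W (X i).X)) (rhoT (h.isGalois i)) (sb (U i)) (star i)
      (Δ i) where
  fam := h.fam i
  fin := (h.blocks i).index
  stab := fun g hg c x hx => (h.blocks i).stable g hg c x hx
  ne := fun c hc => (h.blocks i).ne c (by
    rw [← map_sb (h.le i) c, hc, Submodule.map_bot])
  irr := fun c Δ' hΔ' V hV hst => by
    have hinj : Function.Injective (Submodule.map (transcendental W (X i).X).subtype) :=
      Submodule.map_injective_of_injective (transcendental W (X i).X).injective_subtype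
    rcases (h.blocks i).irreducible c Δ' hΔ' (V.map (transcendental W (X i).X).subtype)
      (by rw [← map_sb (h.le i) c]; exact Submodule.map_mono hV)
      (by
        rintro g hg _ ⟨x, hx, rfl⟩
        exact ⟨_, hst g hg x hx, rfl⟩) with h1 | h1
    · left
      apply hinj
      rw [h1, Submodule.map_bot]
    · right
      apply hinj
      rw [h1]
      exact (map_sb (h.le i) c).symm

theorem isEig_T (h : IsolatedFamily χ X Z U star Δ) {i : ι} {F : Γ} {β : W.K}
    (hβ : IsEig (rhoT (h.isGalois i) F) β) :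
    β ∈ eigOn (transcendental W (X i).X) (X i).act F := by
  obtain ⟨x, hx0, hx⟩ := hβ
  exact ⟨x, x.2, fun h => hx0 (Subtype.ext h), congrArg Subtype.val hx⟩

theorem isEig_twist {Y : GVar W Γ} {lam : Γ →* W.Kˣ} {F : Γ} {β : W.K}
    (hβ : IsEig (twist lam Y.act F) β) : ∃ u : W.Kˣ, IsEig (Y.act F).toLinearMap (u : W.K) ∧
      β = (lam F : W.K) * u := by
  obtain ⟨x, hx0, hx⟩ := hβ
  rw [twist_apply] at hx
  have h1 : (Y.act F).toLinearMap x = ((lam F : W.K)⁻¹ * β) • x := by
    change Y.act F x = _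
    rw [mul_smul, ← hx, smul_smul, inv_mul_cancel₀ (Units.ne_zero _), one_smul]
  have h2 : (lam F : W.K)⁻¹ * β ≠ 0 := by
    intro h0
    rw [h0, zero_smul] at h1
    exact hx0 ((Y.act F).injective (by rw [map_zero]; exact h1))
  refine ⟨Units.mk0 _ h2, ⟨x, hx0, h1⟩, ?_⟩
  rw [Units.val_mk0, mul_inv_cancel_left₀ (Units.ne_zero _)]

/-- **All operators of the blocks are in the Lie algebras.** -/
theorem IsolatedFamily.full [IsAlgClosed W.K] [∀ i, Finite (C i)]
    (h : IsolatedFamily χ X Z U star Δ) (i : ι) {Y : GVar W Γ}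
    (hY : ∀ (F : Γ) (u : W.Kˣ), IsEig (Y.act F).toLinearMap (u : W.K) →
      u ∈ mulGrp (otherEig X Z i F)) :
    FullB (P := ⟨(X i).X, 0⟩) (h.isGalois i) Y.act (sb (U i)) (star i) := by
  intro S _ _ lam hlam c x hx y hy
  refine alg_main (μ := mult χ (X i).X.dim) (Δ₀ := Δ i) ?_ (fun a b => ?_) (fun g a b => ?_)
    (h.dat i) (fun c => ?_) (fun c hc => ?_) c hx hy
  · rcases neg_one_pow_eq_or ℤ (X i).X.dim with h1 | h1
    · left
      change (((-1) ^ (X i).X.dim : ℤ) : W.K) = 1
      rw [h1, Int.cast_one]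
    · right
      change (((-1) ^ (X i).X.dim : ℤ) : W.K) = -1
      rw [h1, Int.cast_neg, Int.cast_one]
  · rw [rform_apply, rform_apply, trans_symm (h.middle i) a.2 b.2]
    push_cast
    rfl
  · rw [mult_apply]
    exact bil_act (h.isGalois i) g a b
  · rcases (h i).2.2.isolated c with h1 | ⟨F, a, v, hv, hI⟩
    · left
      rwa [finrank_sb (h.le i)]
    · right
      refine ⟨F, a, ⟨v, h.le i c hv⟩, hv, ?_⟩
      exact {
        ne := fun h0 => hI.ne (congrArg Subtype.val h0)
        eig := Subtype.ext hI.eig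
        simple := fun β hβ x hx => by
          have h2 : (x : W.H (X i).X) ∈
              Module.End.maxGenEigenspace ((X i).act F).toLinearMap β :=
            gen_map (φ := (transcendental W (X i).X).subtype)
              (f := rhoT (h.isGalois i) F) (fun _ => rfl) hx
          obtain ⟨r, hr⟩ := hI.simple β hβ x x.2 h2
          exact Submodule.mem_span_singleton.2 ⟨r, Subtype.ext hr.symm⟩
        rel := fun β γ δ hβ hγ hδ hr => by
          rw [mult_apply]
          exact hI.rel β (isEig_T h hβ) γ (isEig_T h hγ) δ (isEig_T h hδ) hr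
        rel' := fun β γ δ hβ hγ hδ hr => by
          obtain ⟨u, hu, rfl⟩ := isEig_twist hγ
          obtain ⟨u', hu', rfl⟩ := isEig_twist hδ
          obtain ⟨m, hm, hr⟩ := hr
          refine hI.indep β (isEig_T h hβ) m hm (u' ^ m * (u ^ m)⁻¹)
            (Subgroup.mul_mem _ (Subgroup.pow_mem _ (hY F _ hu') _)
              (Subgroup.inv_mem _ (Subgroup.pow_mem _ (hY F _ hu) _))) ?_
          have h3 : (lam F : W.K) ≠ 0 := Units.ne_zero _
          have h4 : (u : W.K) ≠ 0 := Units.ne_zero _
          have h5 : (u' : W.K) ≠ 0 := Units.ne_zero _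
          push_cast
          have h6 : β ^ m * ((lam F : W.K) ^ m * (u : W.K) ^ m) =
              a ^ m * ((lam F : W.K) ^ m * (u' : W.K) ^ m) := by
            rw [← mul_pow, ← mul_pow, ← mul_pow, ← mul_pow]
            exact hr.symm
          field_simp
          have h7 : (lam F : W.K) ^ m * (β ^ m * (u : W.K) ^ m) =
              (lam F : W.K) ^ m * (a ^ m * (u' : W.K) ^ m) := by
            linear_combination h6
          have h8 := mul_left_cancel₀ (pow_ne_zero m h3) h7
          linear_combination h8 }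
  · obtain ⟨F, hf, hF⟩ := (h i).2.2.det c hc
    have hf' : ∀ d, ∀ x ∈ sb (U i) d, rhoT (h.isGalois i) F x ∈ sb (U i) d :=
      fun d x hx => hf d x hx
    refine ⟨F, hf', fun m hm u hu hcon => hF m hm u ?_ (hcon.trans (congrArg (· ^ m)
      (det_sub (h.le i c) (f := ((X i).act F).toLinearMap) (fun _ => rfl) (hf c) (hf' c))))⟩
    set E : Set W.K := ({(χ F : W.K)} ∪ otherEig X Z i F) ∪ {x | ∃ d, d ≠ c ∧ d ≠ star i c ∧
      x = LinearMap.det (((X i).act F).toLinearMap.restrict (hf d))} with hE
    have hχ : χ F ∈ mulGrp E := Subgroup.subset_closure (Or.inl (Or.inl rfl))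
    have hmono : mulGrp (otherEig X Z i F) ≤ mulGrp E :=
      Subgroup.closure_mono fun u hu => Or.inl (Or.inr hu)
    refine (Subgroup.closure_le _).2 ?_ hu
    rintro w ((hw | hw) | ⟨d, hd1, hd2, hw⟩)
    · have h1 : w = χ F ^ (X i).X.dim := by
        apply Units.ext
        rw [Units.val_pow_eq_pow_val, ← mult_apply]
        exact hw
      rw [h1]
      exact Subgroup.pow_mem _ hχ _
    · obtain ⟨u', hu', h1⟩ := isEig_twist hw
      have h2 : w = lam F * u' := Units.ext (by rw [Units.val_mul]; exact h1)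
      rw [h2]
      refine Subgroup.mul_mem _ ?_ ?_
      · exact (Subgroup.zpowers_le.2 hχ) (hlam F)
      · exact hmono (hY F _ hu')
    · refine Subgroup.subset_closure (Or.inr ⟨d, hd1, hd2, ?_⟩)
      rw [hw]
      exact det_sub (h.le i d) (f := ((X i).act F).toLinearMap) (fun _ => rfl) (hf d) (hf' d)

/-- The eigenvalues on the towers. -/
theorem eig_tower [IsAlgClosed W.K] {adm : ι → ℕ → Prop} {S : Set ι} {Y : GVar W Γ}
    (hY : PTower X Z adm S Y) {F : Γ} {A : Subgroup W.Kˣ}
    (hZ : ∀ u : W.Kˣ, IsEig (Z.act F).toLinearMap (u : W.K) → u ∈ A)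
    (hX : ∀ j ∈ S, ∀ u : W.Kˣ, IsEig ((X j).act F).toLinearMap (u : W.K) → u ∈ A) :
    ∀ u : W.Kˣ, IsEig (Y.act F).toLinearMap (u : W.K) → u ∈ A := by
  induction hY with
  | base => exact hZ
  | step i n _ _ _ hP ih =>
    obtain ⟨υ, h1, h2⟩ := hP
    exact eig_prod (isPowAct h1 h2) (hX i (Set.mem_insert _ _))
      (ih fun j hj => hX j (Set.mem_insert_of_mem _ hj))

/-- **The Tate conjecture for towers.** -/
theorem tate_isolated [IsAlgClosed W.K] [∀ i, Finite (C i)]
    (h : IsolatedFamily χ X Z U star Δ) {S : Set ι} {Y : GVar W Γ}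
    (hY : PTower X Z (fun i n => Even (X i).X.dim → ∀ c, star i c = c →
      n + 1 < Module.finrank W.K (U i c)) S Y)
    (hS : ∀ i ∈ S, Subsingleton (C i) ∨ ∃ Q, IsPowProd (X i) 0 (X i) Q ∧ TateConjecture χ Q) :
    TateConjecture χ Y ↔ TateConjecture χ Z := by
  classical
  induction hY with
  | base => exact Iff.rfl
  | @step S Y Y' i n hT hi hn hP ih =>
    rw [← ih fun j hj => hS j (Set.mem_insert_of_mem _ hj)]
    obtain ⟨υ, h1, h2⟩ := hP
    have hG := h.isGalois i
    have hfull := h.full i (Y := Y) fun F => by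
      refine eig_tower hT (fun u hu => ?_) (fun j hj u hu => ?_)
      · exact Subgroup.subset_closure (Or.inl (isEig_iff.1 hu))
      · exact Subgroup.subset_closure (Or.inr ⟨j, fun h' => hi (h' ▸ hj), isEig_iff.1 hu⟩)
    constructor
    · refine tate_conv (P := ⟨(X i).X, 0⟩) (h.homEqNum i) ?_ (isPowAct h1 h2)
      intro h3
      obtain ⟨c⟩ := (h.blocks i).nonempty
      apply (h.blocks i).ne c
      rw [eq_bot_iff]
      intro x _
      rw [Submodule.mem_bot, ← one_mul x, h3, zero_mul]
    · have := Fintype.ofFinite (C i)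
      refine tate_stepB (P := ⟨(X i).X, 0⟩) (h.homEqNum i) (h.middle i) hG
        (isPowAct h1 h2) (h.fam i) (h.blocks i).index
        (fun g hg c x hx => (h.blocks i).stable g hg c x hx) hfull
        (fun he c hc => by rw [finrank_sb (h.le i)]; exact hn he c hc) (fun s κ hκ c => ?_)
      have h5 : (∀ a b : C i, a = b) → dP s κ c = dQ s := fun hs => dP_eq_dQ hs s κ c
      rcases hS i (Set.mem_insert _ _) with hs | ⟨Q, hQ, hTQ⟩
      · rw [h5 fun a b => Subsingleton.elim a b]
        exact dQ_alg (h.homEqNum i) (h.middle i) s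
      · obtain ⟨υ', h3, h4⟩ := hQ
        have h6 := isPowAct h3 h4
        have h7 : IsProdAct W (X i).act (X i).act υ' := by
          intro g
          refine ⟨fun a => ?_, fun a => (h6 g).2 a⟩
          have h8 := (h6 g).1 0 a
          have h9 : ∀ y, W.map (prj ops 0 (fun _ => (⟨(X i).X, 0⟩ : Polarized 𝒱)) 0) y = y :=
            fun y => W.map_id (X i).X y
          rw [h9, h9] at h8
          exact h8
        exact dP_alg (h.middle i) hG (h.fam i) s hκ (h.blocks i).index
          (fun g hg c x hx => (h.blocks i).stable g hg c x hx) h7 hTQ c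

end fam

end Pool.Agent.Y130
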