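import Pool.Agent.Y130.Cls

/-!
# Products of algebraic classes on factors and of classes of blocks on pairs of factors
-/

open CategoryTheory AlgebraicGeometry Finset

set_option linter.unusedSectionVars false

universe u v

namespace Pool.Agent.Y130

open Pool.Agent.TH125.Gal

/-- **Sums of monomials over the free positions of a pattern.** -/
theorem sum_pattern' {K : Type u} [Field K] {A : Type v} [Ring A] [Algebra K A] {JC JT : Type}
    {N : ℕ} [Fintype JT] [DecidableEq JT] {E : Fin N → JC ⊕ JT → A} {dg : JC ⊕ JT → ℕ}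
    {d : ℕ} (hd : ∀ j, dg (Sum.inr j) = d)
    (hE : ∀ p q, p ≠ q → ∀ i j, E p i * E q j = (-1 : K) ^ (dg i * dg j) • (E q j * E p i))
    {c : Fin N → Option JC} {m : ℕ} (e : Fin m × Fin 2 ≃ Free c) (Q : Fin m → JT → JT → K) :
    ∃ ε : ℤ, ∑ r : Free c → JT, (∏ l, Q l (r (e (l, 0))) (r (e (l, 1)))) •
        (List.ofFn fun p => E p (comb c r p)).prod =
      (ε : K) • ((List.ofFn fun l : Fin m => ∑ a : Fin 2 → JT, Q l (a 0) (a 1) •
        (E (e (l, 0)).1 (Sum.inr (a 0)) * E (e (l, 1)).1 (Sum.inr (a 1)))).prod *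
        ((fixList c).map fun p => (c p).elim 1 fun i => E p (Sum.inl i)).prod) := by
  obtain ⟨ε, h1, h2⟩ := perm_sign (K := K) (A := A)
    (fun p => (c p).elim d fun i => dg (Sum.inl i)) (perm_lists e) (List.nodup_finRange N)
  refine ⟨ε, ?_⟩
  have hdeg : ∀ (r : Free c → JT) p, dg (comb c r p) = (c p).elim d fun i => dg (Sum.inl i) := by
    intro r p
    cases h : c p with
    | none => rw [comb_none r ⟨p, h⟩, hd]; rfl
    | some i => rw [comb_some r h]; rfl
  have h3 : ∀ r : Free c → JT, (List.ofFn fun p => E p (comb c r p)).prod =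
      (ε : K) • ((List.ofFn fun l : Fin m =>
        E (e (l, 0)).1 (Sum.inr (r (e (l, 0)))) * E (e (l, 1)).1 (Sum.inr (r (e (l, 1))))).prod *
        ((fixList c).map fun p => (c p).elim 1 fun i => E p (Sum.inl i)).prod) := by
    intro r
    have h4 := h2 (fun p => E p (comb c r p)) fun p q hpq => by
      rw [hE p q hpq, hdeg, hdeg]
    have h5 : ((pairList e).map fun p => E p (comb c r p)).prod = (List.ofFn fun l : Fin m =>
        E (e (l, 0)).1 (Sum.inr (r (e (l, 0)))) *
          E (e (l, 1)).1 (Sum.inr (r (e (l, 1))))).prod := by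
      rw [pairList, List.map_flatMap, List.ofFn_eq_map]
      generalize List.finRange m = L
      induction L with
      | nil => rfl
      | cons l L ih =>
        rw [List.flatMap_cons, List.prod_append, ih, List.map_cons, List.prod_cons]
        congr 1
        simp only [List.map_cons, List.map_nil, List.prod_cons, List.prod_nil, mul_one]
        rw [comb_none, comb_none]
    have h6 : ((fixList c).map fun p => E p (comb c r p)) =
        ((fixList c).map fun p => (c p).elim 1 fun i => E p (Sum.inl i)) := by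
      refine List.map_congr_left fun p hp => ?_
      rw [mem_fixList] at hp
      cases h : c p with
      | none => exact absurd h hp
      | some i => rw [comb_some r h]; rfl
    rw [List.map_append, List.prod_append, h5, h6] at h4
    rw [List.ofFn_eq_map, h4, smul_smul]
    have h7 : (ε : K) * (ε : K) = 1 := by
      rw [← Int.cast_mul, h1, Int.cast_one]
    rw [h7, one_smul]
  have h8 : ∑ r : Free c → JT, (∏ l, Q l (r (e (l, 0))) (r (e (l, 1)))) •
      (List.ofFn fun l : Fin m =>
        E (e (l, 0)).1 (Sum.inr (r (e (l, 0)))) * E (e (l, 1)).1 (Sum.inr (r (e (l, 1))))).prod =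
      (List.ofFn fun l : Fin m => ∑ a : Fin 2 → JT, Q l (a 0) (a 1) •
        (E (e (l, 0)).1 (Sum.inr (a 0)) * E (e (l, 1)).1 (Sum.inr (a 1)))).prod := by
    rw [← sum_prod]
    refine Fintype.sum_equiv ((Equiv.arrowCongr e.symm (Equiv.refl JT)).trans
      (Equiv.curry _ _ _)) _ _ fun r => ?_
    rfl
  rw [← h8, Finset.sum_mul, Finset.smul_sum]
  refine Finset.sum_congr rfl fun r _ => ?_
  rw [h3, smul_comm, smul_mul_assoc]

open Pool.Agent.H914 Pool.Agent.H914.VarClass Pool.Agent.H914.VarClass.Obj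
  Pool.Agent.H914.WeilCohomology Pool.Agent.H281R3.HT Pool.Agent.W552

variable {k : Type u} [Field k] {𝒱 : VarClass k} {ops : CycleOps 𝒱}
  {W : WeilCohomology.{u, 0} ops} {X Y Z : 𝒱.Obj} {Λ : Type}

/-- Products of algebraic classes on factors and of classes `D e` on pairs of factors. -/
inductive Md (s : SB W X) (D : Λ → W.H (X.prod X)) {N : ℕ} (π : Fin N → (Y ⟶ X)) :
    Finset (Fin N) → ℕ → W.H Y → Prop
  | one : Md s D π ∅ 0 1
  | single {S i c p} (l : Fin s.NC) : Md s D π S i c → p ∉ S →
      Md s D π (insert p S) (s.jC l + i) (W.map (π p) (s.bC l) * c)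
  | pair {S i c p q} (e : Λ) : Md s D π S i c → p ∉ S → q ∉ S → p ≠ q →
      Md s D π (insert p (insert q S)) (X.dim + i) (W.map (Obj.lift (π p) (π q)) (D e) * c)

variable {s : SB W X} {D : Λ → W.H (X.prod X)} {N : ℕ} {π : Fin N → (Y ⟶ X)}

theorem Md.gr (hD : ∀ e, D e ∈ W.gr (X.prod X) (2 * X.dim)) {S : Finset (Fin N)} {i : ℕ}
    {c : W.H Y} (h : Md s D π S i c) : c ∈ W.gr Y (2 * i) := by
  induction h with
  | one => exact W.one_mem Y
  | single l _ _ ih =>
    rw [mul_add]
    exact W.mul_mem (W.map_mem _ (alg_gr (s.alg l))) ih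
  | pair e _ _ _ _ ih =>
    rw [mul_add]
    exact W.mul_mem (W.map_mem _ (hD e)) ih

theorem Md.alg (hD : ∀ e, D e ∈ algSpan W (X.prod X))
    {S : Finset (Fin N)} {i : ℕ} {c : W.H Y} (h : Md s D π S i c) : c ∈ algSpan W Y := by
  induction h with
  | one => exact algSpan_one
  | single l _ _ ih => exact algSpan_mul (algSpan_map _ (s.bC l).2) ih
  | pair e _ _ _ _ ih => exact algSpan_mul (algSpan_map _ (hD e)) ih

/-- the fixed positions -/
theorem md_fix (c : Fin N → Option (Fin s.NC)) (L : List (Fin N)) (hL : L.Nodup)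
    (hc : ∀ p ∈ L, c p ≠ none) : ∃ i, Md s D π L.toFinset i
      (L.map fun p => (c p).elim 1 fun i => W.map (π p) (s.bC i)).prod := by
  induction L with
  | nil => exact ⟨0, Md.one⟩
  | cons p L ih =>
    obtain ⟨i, hi⟩ := ih (List.nodup_cons.1 hL).2 fun q hq => hc q (List.mem_cons_of_mem _ hq)
    rw [List.map_cons, List.prod_cons, List.toFinset_cons]
    cases h : c p with
    | none => exact absurd h (hc p List.mem_cons_self)
    | some l =>
      exact ⟨_, Md.single l hi (fun h0 => (List.nodup_cons.1 hL).1 (List.mem_toFinset.1 h0))⟩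

/-- the pairs -/
theorem md_pairs {c : Fin N → Option (Fin s.NC)} {m : ℕ} (e : Fin m × Fin 2 ≃ Free c)
    (t : Fin m → Λ)
    {S : Finset (Fin N)} {i : ℕ} {x : W.H Y} (hx : Md s D π S i x) (hS : ∀ p ∈ S, c p ≠ none)
    (L : List (Fin m)) (hL : L.Nodup) : ∃ S' i', (∀ p ∈ S', c p ≠ none ∨
      ∃ l ∈ L, ∃ j, p = (e (l, j)).1) ∧ Md s D π S' i'
        ((L.map fun l => W.map (Obj.lift (π (e (l, 0)).1) (π (e (l, 1)).1)) (D (t l))).prod *
          x) := by
  induction L with
  | nil =>
    refine ⟨S, i, fun p hp => Or.inl (hS p hp), ?_⟩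
    rw [List.map_nil, List.prod_nil, one_mul]
    exact hx
  | cons l L ih =>
    obtain ⟨S', i', hS', h⟩ := ih (List.nodup_cons.1 hL).2
    have hnot : ∀ j, (e (l, j)).1 ∉ S' := by
      intro j hj
      rcases hS' _ hj with h1 | ⟨l', hl', j', h1⟩
      · exact h1 (e (l, j)).2
      · have h2 := (Prod.mk.inj (e.injective (Subtype.ext h1))).1
        rw [h2] at hL
        exact (List.nodup_cons.1 hL).1 hl'
    refine ⟨insert (e (l, 0)).1 (insert (e (l, 1)).1 S'), X.dim + i', ?_, ?_⟩
    · intro p hp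
      rw [Finset.mem_insert, Finset.mem_insert] at hp
      rcases hp with h1 | h1 | h1
      · exact Or.inr ⟨l, List.mem_cons_self, 0, h1⟩
      · exact Or.inr ⟨l, List.mem_cons_self, 1, h1⟩
      · rcases hS' p h1 with h2 | ⟨l', hl', j', h2⟩
        · exact Or.inl h2
        · exact Or.inr ⟨l', List.mem_cons_of_mem _ hl', j', h2⟩
    · rw [List.map_cons, List.prod_cons, mul_assoc]
      refine Md.pair (t l) h (hnot 0) (hnot 1) ?_
      intro h1
      have h2 := (Prod.mk.inj (e.injective (Subtype.ext h1))).2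
      exact absurd h2 (by decide)

/-- **The sums over the free positions.** -/
theorem md_sum {C : Type} [DecidableEq C] (hmid : transcendental W X ≤ W.gr X X.dim)
    (κ : Fin s.NT → C) {c : Fin N → Option (Fin s.NC)}
    {m : ℕ} (e : Fin m × Fin 2 ≃ Free c) (t : Free c → C) :
    ∃ (ε : ℤ) (S : Finset (Fin N)) (i : ℕ) (x : W.H Y),
      Md s (dP s κ) π S i x ∧ ∑ r : Free c → Fin s.NT,
        (if ∀ j, κ (r j) = t j then
          (∏ l, bil W X (s.uT (r (e (l, 0)))) (s.uT (r (e (l, 1))))) else 0) •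
        mono π (fun p => s.e (comb c r p)) = (ε : W.K) • x := by
  classical
  obtain ⟨ε, hε⟩ := sum_pattern' (K := W.K) (E := fun p i => W.map (π p) (s.e i)) (dg := s.dg)
    (d := X.dim) (fun _ => rfl) (fun p q _ i j => W.comm (W.map_mem _ (s.e_gr hmid i))
      (W.map_mem _ (s.e_gr hmid j))) e
      (fun l i j => if κ i = t (e (l, 0)) ∧ κ j = t (e (l, 1)) then
        bil W X (s.uT i) (s.uT j) else 0)
  obtain ⟨i, hi⟩ := md_fix (s := s) (D := dP s κ) (π := π) c (fixList c)
    ((List.nodup_finRange N).filter _) fun p hp => (mem_fixList c p).1 hp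
  obtain ⟨S', i', -, h⟩ := md_pairs e (fun l => (t (e (l, 0)), t (e (l, 1)))) hi
    (fun p hp => (mem_fixList c p).1 (List.mem_toFinset.1 hp)) (List.finRange m)
    (List.nodup_finRange m)
  refine ⟨ε, S', i', _, h, ?_⟩
  have h0 : ∀ r : Free c → Fin s.NT, (∏ l, (if κ (r (e (l, 0))) = t (e (l, 0)) ∧
      κ (r (e (l, 1))) = t (e (l, 1)) then
        bil W X (s.uT (r (e (l, 0)))) (s.uT (r (e (l, 1)))) else 0)) =
      if ∀ j, κ (r j) = t j then
          (∏ l, bil W X (s.uT (r (e (l, 0)))) (s.uT (r (e (l, 1))))) else 0 := by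
    intro r
    by_cases hr : ∀ j, κ (r j) = t j
    · rw [if_pos hr]
      refine Finset.prod_congr rfl fun l _ => ?_
      rw [if_pos ⟨hr _, hr _⟩]
    · rw [if_neg hr]
      push Not at hr
      obtain ⟨j, hj⟩ := hr
      obtain ⟨⟨l, b⟩, hl⟩ := e.surjective j
      refine Finset.prod_eq_zero (Finset.mem_univ l) (if_neg fun h => hj ?_)
      rw [← hl]
      fin_cases b
      · exact h.1
      · exact h.2
  simp only [h0] at hε
  refine hε.trans ?_
  congr 2
  · rw [List.ofFn_eq_map]
    congr 2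
    funext l
    rw [dP, map_sum]
    refine Finset.sum_congr rfl fun a _ => ?_
    rw [map_smul, map_mul, ← W.map_comp, ← W.map_comp, Obj.lift_fst, Obj.lift_snd, s.e_inr,
      s.e_inr]
  · congr 2
    funext p
    cases c p with
    | none => rfl
    | some l =>
      change W.map (π p) (s.e (Sum.inl l)) = W.map (π p) (s.bC l : W.H X)
      rw [s.e_inl]

end Pool.Agent.Y130
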