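import Pool.Agent.Y130.Mon
import Pool.Agent.TH118.SG.Family

/-!
# Products with powers: the step
-/

open CategoryTheory AlgebraicGeometry Finset Function

set_option linter.unusedSectionVars false

universe u

namespace Pool.Agent.Y130

open Pool.Agent.TH125.Gal Pool.Agent.TH118.SG
open Pool.Agent.H914 Pool.Agent.H914.VarClass Pool.Agent.H914.VarClass.Obj
  Pool.Agent.H914.WeilCohomology Pool.Agent.H281R3.HT Pool.Agent.W552

variable {k : Type u} [Field k] {𝒱 : VarClass k} {ops : CycleOps 𝒱}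
  {W : WeilCohomology.{u, 0} ops} {P : Polarized 𝒱} {n : ℕ} {Z : 𝒱.Obj} {s : SB W P.X}
  {Γ : Type} [Group Γ] {χ : Γ →* W.Kˣ} {ρ : Γ →* (W.H P.X ≃ₐ[W.K] W.H P.X)}
  {τ : Γ →* (W.H Z ≃ₐ[W.K] W.H Z)}
  {υ : Γ →* (W.H ((nest ops n fun _ => P).X.prod Z) ≃ₐ[W.K]
    W.H ((nest ops n fun _ => P).X.prod Z))}
  {C : Type} [Fintype C] [DecidableEq C] {U : C → Submodule W.K (transcendental W P.X)}
  {star : C → C} {κ : Fin s.NT → C}

/-- the classes `Md` are semi-invariant -/
theorem md_act (hmid : transcendental W P.X ≤ W.gr P.X P.X.dim) (hG : IsGalois W χ P.X ρ)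
    (hP : IsPowAct W P n Z ρ τ υ) (hfam : Fam (rform W P.X (transcendental W P.X)) U star)
    (hκ : ∀ i, s.uT i ∈ U (κ i)) {g : Γ}
    (hg : ∀ i, ρ g (s.bC i) = (χ g : W.K) ^ s.jC i • (s.bC i : W.H P.X))
    (hg' : ∀ c, ∀ x ∈ U c, rhoT hG g x ∈ U c)
    {S : Finset (Fin (n + 1))} {i : ℕ} {m : W.H (nest ops n fun _ => P).X}
    (h : Md s (dP s κ) (prj ops n fun _ => P) S i m) :
    υ g (W.map (fst _ Z) m) = (χ g : W.K) ^ i • W.map (fst _ Z) m := by
  induction h with
  | one => rw [map_one, map_one, pow_zero, one_smul]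
  | single l _ _ ih =>
    rw [map_mul, map_mul, ih, (hP g).1, hg, map_smul, map_smul, smul_mul_smul_comm, pow_add]
  | @pair S i c p q e _ _ _ _ ih =>
    rw [map_mul, map_mul, ih, pow_add, ← smul_mul_smul_comm]
    congr 1
    have e1 : ∀ x, W.map (Obj.lift (prj ops n (fun _ => P) p) (prj ops n (fun _ => P) q))
        (W.map (fst P.X P.X) x) = W.map (prj ops n (fun _ => P) p) x := fun x => by
      rw [← W.map_comp, Obj.lift_fst]
    have e2 : ∀ x, W.map (Obj.lift (prj ops n (fun _ => P) p) (prj ops n (fun _ => P) q))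
        (W.map (snd P.X P.X) x) = W.map (prj ops n (fun _ => P) q) x := fun x => by
      rw [← W.map_comp, Obj.lift_snd]
    refine dP_act hmid hG hfam s hκ hg' e
      (f := (W.map (fst _ Z)).comp (W.map (Obj.lift (prj ops n (fun _ => P) p)
        (prj ops n (fun _ => P) q)))) (fun x => ?_) (fun x => ?_)
    · rw [AlgHom.comp_apply, AlgHom.comp_apply, e1, e1]
      exact (hP g).1 p x
    · rw [AlgHom.comp_apply, AlgHom.comp_apply, e2, e2]
      exact (hP g).1 q x

/-- All operators of the blocks are in the Lie algebras. -/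
def FullB (hG : IsGalois W χ P.X ρ) (τ : Γ →* (W.H Z ≃ₐ[W.K] W.H Z))
    (U : C → Submodule W.K (transcendental W P.X)) (star : C → C) : Prop :=
  ∀ (S : Type) [Fintype S] [DecidableEq S] (lam : Γ →* W.Kˣ),
    (∀ g, lam g ∈ Subgroup.zpowers (χ g)) → ∀ c, ∀ x ∈ U (star c), ∀ y ∈ U c,
      pp (rform W P.X (transcendental W P.X)) ((((-1) ^ P.X.dim : ℤ) : ℤ) : W.K) x y ∈
        LL S (rform W P.X (transcendental W P.X)) (rhoT hG) (twist lam τ)

theorem lamb_mem (s : SB W P.X) (c₀ : Fin (n + 1) → Option (Fin s.NC)) (j : ℕ) (g : Γ) :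
    lamb χ s c₀ j g ∈ Subgroup.zpowers (χ g) := by
  rw [lamb_apply]
  refine Subgroup.mul_mem _ (Subgroup.mul_mem _ (Subgroup.prod_mem _ fun p _ =>
    Subgroup.inv_mem _ (Subgroup.pow_mem _ (Subgroup.mem_zpowers _) _))
    (Subgroup.inv_mem _ (Subgroup.pow_mem _ (Subgroup.mem_zpowers _) _)))
    (Subgroup.pow_mem _ (Subgroup.pow_mem _ (Subgroup.mem_zpowers _) _) _)

variable {b : Module.Basis (Fin (n + 1) → Fin s.NC ⊕ Fin s.NT) W.K (W.H (nest ops n fun _ => P).X)}
  (hb : ∀ r, b r = mono (prj ops n fun _ => P) fun p => s.e (r p))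

include hb in
/-- the coordinates at the free positions are invariant -/
theorem gen_freeB (hDX : HomEqNum W P.X) (hmid : transcendental W P.X ≤ W.gr P.X P.X.dim)
    (hG : IsGalois W χ P.X ρ) (hP : IsPowAct W P n Z ρ τ υ)
    (hfam : Fam (rform W P.X (transcendental W P.X)) U star)
    (hκ : ∀ i, s.uT i ∈ U (κ i)) (hfull : FullB hG τ U star)
    (hcard : Even P.X.dim → ∀ c, star c = c → n + 1 < Module.finrank W.K (U c))
    {c : W.H ((nest ops n fun _ => P).X.prod Z)} {j : ℕ} {Δ : Subgroup Γ} (hΔ : Δ.FiniteIndex)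
    (hc : ∀ g ∈ Δ, υ g c = (χ g : W.K) ^ j • c) (c₀ : Fin (n + 1) → Option (Fin s.NC)) :
    (fun r : Free c₀ → Fin s.NT => hml s.e b c fun p => s.es (comb c₀ r p)) ∈
      GenA κ (Matrix.of fun i j => bil W P.X (s.uT i) (s.uT j)) (Free c₀) := by
  have heven : (-1 : ℤ) ^ P.X.dim = 1 → Even P.X.dim := by
    intro h
    by_contra h'
    rw [(Nat.not_even_iff_odd.1 h').neg_one_pow] at h
    exact absurd h (by decide)
  have h1 := gen_blocks (S := Free c₀) (J := Fin s.NT) (s := (-1) ^ P.X.dim)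
    (B := rform W P.X (transcendental W P.X)) (U := U) (star := star)
    (neg_one_pow_eq_or ℤ _)
    (fun a b => by
      rw [rform_apply, rform_apply, trans_symm hmid a.2 b.2]
      push_cast
      rfl)
    (trans_nondeg hDX) hfam.star_star hfam.orth
    (fun c x hx y hy => hfull (Free c₀) (lamb χ s c₀ j) (lamb_mem s c₀ j) c x hx y hy)
    (hS_eqv hb hG hP hΔ hc c₀) s.uT hκ
    (fun c h1 h2 => by
      have h3 := hcard (heven h1) c h2
      refine lt_of_le_of_lt (Fintype.card_subtype_le _) ?_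
      rw [Fintype.card_fin]
      exact h3.trans_le (finrank_le_blk hfam s hκ c))
  have h2 : (fun r : Free c₀ → Fin s.NT => hS s b c c₀ fun j => s.uT (r j)) =
      fun r : Free c₀ → Fin s.NT => hml s.e b c fun p => s.es (comb c₀ r p) := by
    funext r
    exact hS_comb c c₀ r
  rw [← h2]
  exact h1

/-- the external products of the classes `Md` with arbitrary classes -/
noncomputable def TgtB (s : SB W P.X) (κ : Fin s.NT → C) (n : ℕ) (Z : 𝒱.Obj) :
    Submodule W.K (W.H ((nest ops n fun _ => P).X.prod Z)) :=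
  Submodule.span W.K {x | ∃ S i m w, Md s (dP s κ) (prj ops n fun _ => P) S i m ∧
    x = W.map (fst _ Z) m * W.map (snd _ Z) w}

include hb in
/-- **The structure of the Tate classes on products with powers.** -/
theorem mem_TgtB (hDX : HomEqNum W P.X) (hmid : transcendental W P.X ≤ W.gr P.X P.X.dim)
    (hG : IsGalois W χ P.X ρ) (hP : IsPowAct W P n Z ρ τ υ)
    (hfam : Fam (rform W P.X (transcendental W P.X)) U star)
    (hκ : ∀ i, s.uT i ∈ U (κ i)) (hfull : FullB hG τ U star)
    (hcard : Even P.X.dim → ∀ c, star c = c → n + 1 < Module.finrank W.K (U c))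
    {c : W.H ((nest ops n fun _ => P).X.prod Z)} {j : ℕ} {Δ : Subgroup Γ} (hΔ : Δ.FiniteIndex)
    (hc : ∀ g ∈ Δ, υ g c = (χ g : W.K) ^ j • c) : c ∈ TgtB s κ n Z := by
  rw [expand b c, sum_patterns]
  refine Submodule.sum_mem _ fun c₀ _ => ?_
  have h1 := gen_freeB hb hDX hmid hG hP hfam hκ hfull hcard hΔ hc c₀
  have h2 : ∀ F ∈ GenA κ (Matrix.of fun i j => bil W P.X (s.uT i) (s.uT j)) (Free c₀),
      ∑ r : Free c₀ → Fin s.NT, W.map (fst _ Z) (b (comb c₀ r)) * W.map (snd _ Z) (F r : W.H Z) ∈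
        TgtB s κ n Z := by
    intro F hF
    induction hF using Submodule.span_induction with
    | mem F hF =>
      obtain ⟨t, m, e, w, rfl⟩ := hF
      obtain ⟨ε, S, i, x, hx, h3⟩ := md_sum (s := s) (π := prj ops n fun _ => P) hmid κ e t
      have h4 : ∑ r : Free c₀ → Fin s.NT, W.map (fst _ Z) (b (comb c₀ r)) *
          W.map (snd _ Z) (Pool.Agent.TH125.Nod.gen κ
            (Matrix.of fun i j => bil W P.X (s.uT i) (s.uT j)) t e w r) =
          (ε : W.K) • (W.map (fst _ Z) x * W.map (snd _ Z) w) := by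
        rw [← smul_mul_assoc, ← map_smul, ← h3, map_sum, Finset.sum_mul]
        refine Finset.sum_congr rfl fun r _ => ?_
        rw [Pool.Agent.TH125.Nod.gen, hb]
        by_cases hr : ∀ j, κ (r j) = t j
        · rw [if_pos hr, if_pos hr, map_smul, map_smul, mul_smul_comm, smul_mul_assoc]
          rfl
        · rw [if_neg hr, if_neg hr, map_zero, mul_zero, zero_smul, map_zero, zero_mul]
      rw [h4]
      exact Submodule.smul_mem _ _ (Submodule.subset_span ⟨S, i, x, w, hx, rfl⟩)
    | zero =>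
      simp only [Pi.zero_apply, map_zero, mul_zero, Finset.sum_const_zero]
      exact Submodule.zero_mem _
    | add F F' _ _ hF hF' =>
      simp only [Pi.add_apply, map_add, mul_add, Finset.sum_add_distrib]
      exact Submodule.add_mem _ hF hF'
    | smul x F _ hF =>
      simp only [Pi.smul_apply, map_smul, mul_smul_comm]
      rw [← Finset.smul_sum]
      exact Submodule.smul_mem _ _ hF
  have h3 := h2 _ h1
  simp only [coord_eq hb]
  exact h3

/-- Expansion of the elements of `TgtB`. -/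
theorem exists_expansionB (s : SB W P.X) (κ : Fin s.NT → C) (n : ℕ) (Z : 𝒱.Obj) :
    ∃ (N : ℕ) (m : Fin N → W.H (nest ops n fun _ => P).X) (i : Fin N → ℕ)
      (φ : Fin N → W.H (nest ops n fun _ => P).X →ₗ[W.K] W.K),
      (∀ l, ∃ S, Md s (dP s κ) (prj ops n fun _ => P) S (i l) (m l)) ∧
      (∀ l l', φ l (m l') = if l' = l then 1 else 0) ∧
      ∀ c ∈ TgtB s κ n Z, c = ∑ l, W.map (fst _ Z) (m l) * W.map (snd _ Z) (ctr (φ l) c) := by
  classical
  obtain ⟨S, hSA, hSspan, hSli⟩ := exists_linearIndependent W.K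
    {m | ∃ S i, Md s (dP s κ) (prj ops n fun _ => P) S i m}
  have hfin : S.Finite := hSli.setFinite
  have := hfin.fintype
  let eS := Fintype.equivFin S
  have hinj : ∀ l : Fin (Fintype.card S), ∃ i S', Md s (dP s κ) (prj ops n fun _ => P) S' i
      ((eS.symm l : S) : W.H (nest ops n fun _ => P).X) := by
    intro l
    obtain ⟨S', i, h⟩ := hSA (eS.symm l).2
    exact ⟨i, S', h⟩
  choose i hi using hinj
  let B := Module.Basis.extend hSli
  let φ : Fin (Fintype.card S) → W.H (nest ops n fun _ => P).X →ₗ[W.K] W.K := fun l =>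
    B.coord ⟨(eS.symm l : S), Module.Basis.subset_extend hSli (eS.symm l).2⟩
  have hφ : ∀ l l', φ l ((eS.symm l' : S) : W.H (nest ops n fun _ => P).X) =
      if l' = l then 1 else 0 := by
    intro l l'
    have h1 : ((eS.symm l' : S) : W.H (nest ops n fun _ => P).X) =
        B ⟨(eS.symm l' : S), Module.Basis.subset_extend hSli (eS.symm l').2⟩ :=
      (Module.Basis.extend_apply_self hSli ⟨((eS.symm l' : S) : W.H (nest ops n fun _ => P).X),
        Module.Basis.subset_extend hSli (eS.symm l').2⟩).symm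
    change B.coord _ _ = _
    rw [h1, Module.Basis.coord_apply, Module.Basis.repr_self, Finsupp.single_apply]
    congr 1
    apply propext
    rw [Subtype.mk.injEq, Subtype.ext_iff.symm, EmbeddingLike.apply_eq_iff_eq]
  refine ⟨Fintype.card S, fun l => (eS.symm l : S), i, φ, hi, hφ, ?_⟩
  intro c hc
  induction hc using Submodule.span_induction with
  | mem c hc =>
    obtain ⟨S', i', m, w, hm, rfl⟩ := hc
    have h1 : m ∈ Submodule.span W.K (Set.range fun l : Fin (Fintype.card S) =>
        ((eS.symm l : S) : W.H (nest ops n fun _ => P).X)) := by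
      have h2 : (Set.range fun l : Fin (Fintype.card S) =>
          ((eS.symm l : S) : W.H (nest ops n fun _ => P).X)) = S := by
        ext x
        constructor
        · rintro ⟨l, rfl⟩
          exact (eS.symm l).2
        · intro hx
          exact ⟨eS ⟨x, hx⟩, by simp⟩
      rw [h2, hSspan]
      exact Submodule.subset_span ⟨S', i', hm⟩
    obtain ⟨a, ha⟩ := (Submodule.mem_span_range_iff_exists_fun W.K).1 h1
    have h3 : ∀ l, φ l m = a l := by
      intro l
      rw [← ha, map_sum, Finset.sum_eq_single l]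
      · rw [map_smul, hφ, if_pos rfl, smul_eq_mul, mul_one]
      · intro l' _ hl
        rw [map_smul, hφ, if_neg hl, smul_zero]
      · intro h
        exact absurd (Finset.mem_univ _) h
    conv_lhs => rw [← ha, map_sum, Finset.sum_mul]
    refine Finset.sum_congr rfl fun l _ => ?_
    rw [ctr_apply, h3, map_smul, map_smul, smul_mul_assoc, mul_smul_comm]
  | zero => simp
  | add x y _ _ hx hy =>
    conv_lhs => rw [hx, hy]
    rw [← Finset.sum_add_distrib]
    refine Finset.sum_congr rfl fun l _ => ?_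
    rw [map_add, map_add, mul_add]
  | smul q x _ hx =>
    conv_lhs => rw [hx]
    rw [Finset.smul_sum]
    refine Finset.sum_congr rfl fun l _ => ?_
    rw [map_smul, map_smul, mul_smul_comm]

/-- **The Tate conjecture for products with powers.** -/
theorem tate_stepB [IsAlgClosed W.K] (hDX : HomEqNum W P.X)
    (hmid : transcendental W P.X ≤ W.gr P.X P.X.dim)
    (hG : IsGalois W χ P.X ρ) (hP : IsPowAct W P n Z ρ τ υ)
    (hfam : Fam (rform W P.X (transcendental W P.X)) U star) {Δ₀ : Subgroup Γ}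
    (hΔ₀ : Δ₀.FiniteIndex) (hst : ∀ g ∈ Δ₀, ∀ c, ∀ x ∈ U c, rhoT hG g x ∈ U c)
    (hfull : FullB hG τ U star)
    (hcard : Even P.X.dim → ∀ c, star c = c → n + 1 < Module.finrank W.K (U c))
    (halg : ∀ (s : SB W P.X) (κ : Fin s.NT → C), (∀ i, s.uT i ∈ U (κ i)) → ∀ c,
      dP s κ c ∈ algSpan W (P.X.prod P.X))
    (hT : TateConj W χ Z τ) :
    TateConj W χ ((nest ops n fun _ => P).X.prod Z) υ := by
  obtain ⟨s, κ, hκ⟩ := exists_SB_ad hDX hmid hfam
  obtain ⟨b, hb⟩ := exists_monoBasis (ops := ops) P s.e n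
  intro j c hcj ⟨Δ, hΔ, hc⟩
  have h1 := mem_TgtB hb hDX hmid hG hP hfam hκ hfull hcard hΔ hc
  obtain ⟨N, m, i, φ, hm, hφ, hexp⟩ := exists_expansionB s κ n Z
  obtain ⟨Δ', hΔ', hfix⟩ := exists_fix hG s
  have h2 := hexp c h1
  -- uniqueness
  have huni : ∀ (x : Fin N → W.H Z) (l : Fin N),
      ctr (φ l) (∑ l', W.map (fst _ Z) (m l') * W.map (snd _ Z) (x l')) = x l := by
    intro x l
    rw [map_sum, Finset.sum_eq_single l]
    · rw [ctr_apply, hφ, if_pos rfl, one_smul]
    · intro l' _ hl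
      rw [ctr_apply, hφ, if_neg hl, zero_smul]
    · intro h
      exact absurd (Finset.mem_univ _) h
  set x : Fin N → W.H Z := fun l => ctr (φ l) c with hx
  -- degrees
  have hdeg : ∀ l, x l = if 2 * i l ≤ 2 * j then
      proj (W.isInternal Z) (2 * j - 2 * i l) (x l) else 0 := by
    intro l
    have h3 : c = ∑ l', W.map (fst _ Z) (m l') * W.map (snd _ Z)
        (if 2 * i l' ≤ 2 * j then proj (W.isInternal Z) (2 * j - 2 * i l') (x l') else 0) := by
      conv_lhs => rw [← proj_same (W.isInternal _) hcj, h2]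
      rw [map_sum]
      refine Finset.sum_congr rfl fun l' _ => ?_
      obtain ⟨S, hS⟩ := hm l'
      rw [proj_ext (hS.gr fun e => dP_gr hmid s κ e)]
      by_cases h : 2 * i l' ≤ 2 * j
      · rw [if_pos h, if_pos h]
      · rw [if_neg h, if_neg h, map_zero, mul_zero]
    conv_lhs => rw [hx]
    beta_reduce
    rw [h3]
    exact huni _ l
  -- semi-invariance
  have hact : ∀ g ∈ Δ ⊓ Δ' ⊓ Δ₀, ∀ l,
      (χ g : W.K) ^ i l • τ g (x l) = (χ g : W.K) ^ j • x l := by
    intro g hg l
    have h3 : υ g c = ∑ l', W.map (fst _ Z) (m l') * W.map (snd _ Z)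
        ((χ g : W.K) ^ i l' • τ g (x l')) := by
      conv_lhs => rw [h2]
      rw [map_sum]
      refine Finset.sum_congr rfl fun l' _ => ?_
      obtain ⟨S, hS⟩ := hm l'
      rw [map_mul, md_act hmid hG hP hfam hκ (hfix g hg.1.2) (hst g hg.2) hS, (hP g).2,
        map_smul, smul_mul_assoc, mul_smul_comm]
    have h4 := huni (fun l' => (χ g : W.K) ^ i l' • τ g (x l')) l
    rw [← h3, hc g hg.1.1, map_smul] at h4
    exact h4.symm
  have halg' : ∀ l, x l ∈ algSpan W Z := by
    intro l
    by_cases h : 2 * i l ≤ 2 * j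
    · have h3 := hdeg l
      rw [if_pos h] at h3
      have h4 : x l ∈ W.gr Z (2 * (j - i l)) := by
        rw [h3, show 2 * (j - i l) = 2 * j - 2 * i l by omega]
        exact Pool.Agent.H914.proj_mem _ _ _
      have h5 := hT (j - i l) (x l) h4 ⟨Δ ⊓ Δ' ⊓ Δ₀, inferInstance, fun g hg => ?_⟩
      · exact Submodule.span_mono (Set.subset_iUnion _ _) h5
      · have h6 := hact g hg l
        have h7 : (χ g : W.K) ^ j = (χ g : W.K) ^ i l * (χ g : W.K) ^ (j - i l) := by
          rw [← pow_add]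
          congr 1
          omega
        rw [h7, mul_smul] at h6
        exact smul_right_injective _ (pow_ne_zero _ (Units.ne_zero (χ g))) h6
    · have h3 := hdeg l
      rw [if_neg h] at h3
      rw [h3]
      exact Submodule.zero_mem _
  refine algSpan_gr ?_ hcj
  rw [h2]
  refine Submodule.sum_mem _ fun l _ => ?_
  obtain ⟨S, hS⟩ := hm l
  exact algSpan_mul (algSpan_map _ (hS.alg fun e => halg s κ hκ e)) (algSpan_map _ (halg' l))

end Pool.Agent.Y130
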