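import Pool.Agent.Y130.Ext
import Pool.Agent.Y130.Add
import Pool.Agent.TH118.SG.Pair

/-!
# The Lie algebra of triples and the elements attached to an element of the group
-/

set_option linter.unusedSectionVars false

open Module Finset Function

namespace Pool.Agent.Y130

open Pool.Agent.TH125.Gal Pool.Agent.TH118.SG

variable {K : Type} [Field K] [CharZero K] [IsAlgClosed K] {T : Type} [AddCommGroup T]
  [Module K T] [FiniteDimensional K T] {E : Type} [AddCommGroup E] [Module K E]
  [FiniteDimensional K E] {S : Type} [Fintype S] [DecidableEq S] {G : Type} [Group G]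
  {B : T →ₗ[K] T →ₗ[K] K} {ρ : G →* (T →ₗ[K] T)} {σ : G →* (E →ₗ[K] E)} {μ : G →* K}

/-- brackets of triples -/
theorem PP_br {Y Z : End K T} {c e : K} {Y' Z' : End K E} (hY : (Y, c, Y') ∈ PP S B ρ σ)
    (hZ : (Z, e, Z') ∈ PP S B ρ σ) : (Y * Z - Z * Y, (0 : K), Y' * Z' - Z' * Y') ∈
      PP S B ρ σ := by
  obtain ⟨h1, h1'⟩ := mem_PP.1 hY
  obtain ⟨h2, h2'⟩ := mem_PP.1 hZ
  refine mem_PP.2 ⟨fun x y => ?_, fun h hh v => ?_⟩
  · simp only [LinearMap.sub_apply, Module.End.mul_apply, map_sub]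
    linear_combination h1 (Z x) y - h2 (Y x) y + h1 x (Z y) - h2 x (Y y) + c * h2 x y -
      e * h1 x y
  · -- double sums
    have key : ∀ {X W : End K T} {X' W' : End K E},
        (∀ v, ∑ j, h (update v j (X (v j))) = X' (h v)) →
        (∀ v, ∑ j, h (update v j (W (v j))) = W' (h v)) →
        X' (W' (h v)) = ∑ i, h (update v i (X (W (v i)))) +
          ∑ i, ∑ j ∈ univ.erase i, h (update (update v i (W (v i))) j (X (v j))) := by
      intro X W X' W' hX hW
      rw [← hW v, map_sum, ← Finset.sum_add_distrib]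
      refine Finset.sum_congr rfl fun i _ => ?_
      rw [← hX, ← Finset.add_sum_erase _ _ (Finset.mem_univ i), update_self, update_idem]
      congr 1
      refine Finset.sum_congr rfl fun j hj => ?_
      rw [update_of_ne (Finset.ne_of_mem_erase hj)]
    have e1 := key (h1' h hh) (h2' h hh)
    have e2 := key (h2' h hh) (h1' h hh)
    have h3 : ∑ i, ∑ j ∈ univ.erase i, h (update (update v i (Z (v i))) j (Y (v j))) =
        ∑ i, ∑ j ∈ univ.erase i, h (update (update v i (Y (v i))) j (Z (v j))) := by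
      rw [Finset.sum_comm' (s' := fun j => univ.erase j) (t' := univ) (by
        intro x y
        simp only [Finset.mem_univ, Finset.mem_erase, ne_eq, and_true, true_and]
        exact ⟨fun h h' => h h'.symm, fun h h' => h h'.symm⟩)]
      refine Finset.sum_congr rfl fun j _ => Finset.sum_congr rfl fun i hi => ?_
      rw [update_comm (Finset.ne_of_mem_erase hi)]
    have h4 : ∀ j, h (update v j ((Y * Z - Z * Y) (v j))) = h (update v j (Y (Z (v j)))) -
        h (update v j (Z (Y (v j)))) := by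
      intro j
      rw [LinearMap.sub_apply, MultilinearMap.map_update_sub]
      rfl
    rw [Finset.sum_congr rfl fun j _ => h4 j, Finset.sum_sub_distrib, LinearMap.sub_apply,
      Module.End.mul_apply, Module.End.mul_apply, e1, e2, h3]
    abel

theorem rho_inj (ρ : G →* (T →ₗ[K] T)) (F : G) : Function.Injective (ρ F) := by
  intro x y hxy
  have h1 := congrArg (ρ F⁻¹) hxy
  rw [← Module.End.mul_apply, ← Module.End.mul_apply, ← map_mul, inv_mul_cancel, map_one] at h1
  exact h1

/-- The triple attached to an element of the group and an additive function. -/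
theorem PP_theta (hB : ∀ g x y, B (ρ g x) (ρ g y) = μ g * B x y) (F : G)
    (θ : Additive Kˣ →+ K) {Y : End K T}
    (hY : ∀ β, ∀ x ∈ Module.End.maxGenEigenspace (ρ F) β, Y x = ext0 θ β • x) {Y' : End K E}
    (hY' : ∀ β, ∀ x ∈ Module.End.maxGenEigenspace (σ F) β, Y' x = ext0 θ β • x) :
    (Y, ext0 θ (μ F), Y') ∈ PP S B ρ σ := by
  have hinj := rho_inj ρ F
  refine mem_PP.2 ⟨fun x y => ?_, fun h hh v => ?_⟩
  · have h1 := deriv_op θ (ρ F) hinj (μ F • (1 : End K K)) hY
      (Y' := ext0 θ (μ F) • (1 : End K K)) (fun β z hz => ?_) (h := bm B) (M := 1) one_pos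
      (fun v => ?_) ![x, y]
    · rw [Fin.sum_univ_two] at h1
      simpa [bm] using h1
    · by_cases hz0 : z = 0
      · rw [hz0, map_zero, smul_zero]
      · have h2 : μ F = β := by
          obtain ⟨n, hn⟩ := mem_gen.1 hz
          have h3 : ∀ n : ℕ, ((μ F • (1 : End K K) - algebraMap K (End K K) β) ^ n) z =
              (μ F - β) ^ n * z := by
            intro n
            induction n with
            | zero => simp
            | succ n ih =>
              rw [pow_succ', Module.End.mul_apply, ih, LinearMap.sub_apply, LinearMap.smul_apply,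
                Module.End.one_apply, Module.algebraMap_end_apply, smul_eq_mul, smul_eq_mul]
              ring
          rw [h3] at hn
          have h4 := (mul_eq_zero.1 hn).resolve_right hz0
          exact sub_eq_zero.1 (eq_zero_of_pow_eq_zero h4)
        rw [← h2, LinearMap.smul_apply, Module.End.one_apply]
    · rw [pow_one, pow_one]
      change B (ρ F (v 0)) (ρ F (v 1)) = μ F • B (v 0) (v 1)
      rw [hB, smul_eq_mul]
  · obtain ⟨Δ, hΔ, h1⟩ := hh
    obtain ⟨M, hM, hFM⟩ := exists_pow hΔ F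
    refine deriv_op θ (ρ F) hinj (σ F) hY hY' hM (fun v => ?_) v
    have h2 := h1 _ hFM v
    rw [map_pow, map_pow] at h2
    exact h2

/-- The triples whose first component respects the subspaces `U c`. -/
def QQ (S : Type) [Fintype S] [DecidableEq S] (B : T →ₗ[K] T →ₗ[K] K) (ρ : G →* (T →ₗ[K] T))
    (σ : G →* (E →ₗ[K] E)) {C : Type} (U : C → Submodule K T) :
    Submodule K (End K T × K × End K E) where
  carrier := {z | z ∈ PP S B ρ σ ∧ ∀ c, ∀ x ∈ U c, z.1 x ∈ U c}
  zero_mem' := ⟨Submodule.zero_mem _, fun c x _ => (U c).zero_mem⟩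
  add_mem' := fun {z z'} hz hz' => ⟨Submodule.add_mem _ hz.1 hz'.1, fun c x hx =>
    (U c).add_mem (hz.2 c x hx) (hz'.2 c x hx)⟩
  smul_mem' := fun r {z} hz => ⟨Submodule.smul_mem _ r hz.1, fun c x hx =>
    (U c).smul_mem r (hz.2 c x hx)⟩

variable {C : Type} {U : C → Submodule K T}

theorem trip_QQ : Trip B (QQ S B ρ σ U) := by
  refine ⟨fun z hz => (mem_PP.1 hz.1).1, fun z hz z' hz' => ⟨PP_br hz.1 hz'.1, fun c x hx => ?_⟩⟩
  change z.1 (z'.1 x) - z'.1 (z.1 x) ∈ U c
  exact (U c).sub_mem (hz.2 c _ (hz'.2 c x hx)) (hz'.2 c _ (hz.2 c x hx))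

theorem QQ_LL {Y : End K T} (h : Y ∈ Q0 (QQ S B ρ σ U)) : Y ∈ LL S B ρ σ := LL_of_PP h.1

theorem QQ_stab {Y : End K T} (h : Y ∈ Q1 (QQ S B ρ σ U)) (c : C) : ∀ x ∈ U c, Y x ∈ U c := by
  obtain ⟨e, Y', h1⟩ := mem_Q1.1 h
  exact h1.2 c

theorem QQ_conj (hB : ∀ g x y, B (ρ g x) (ρ g y) = μ g * B x y) {g : G}
    (hg : ∀ c, ∀ x ∈ U c, ρ g x ∈ U c) (hg' : ∀ c, ∀ x ∈ U c, ρ g⁻¹ x ∈ U c) {Y : End K T}
    (hY : Y ∈ Q1 (QQ S B ρ σ U)) : ρ g * Y * ρ g⁻¹ ∈ Q1 (QQ S B ρ σ U) := by
  obtain ⟨e, Y', h1⟩ := mem_Q1.1 hY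
  exact mem_Q1.2 ⟨e, _, PP_conj hB h1.1 g, fun c x hx => hg c _ (h1.2 c _ (hg' c x hx))⟩

/-- A basis of generalized eigenvectors. -/
theorem exists_genBasis {V : Type} [AddCommGroup V] [Module K V] [FiniteDimensional K V]
    (f : End K V) : ∃ (ι : Type) (_ : Fintype ι) (b : Basis ι K V) (β : ι → K),
      ∀ i, b i ∈ f.maxGenEigenspace (β i) := by
  classical
  let b := (gen_internal f).collectedBasis fun β => Module.finBasis K (f.maxGenEigenspace β)
  exact ⟨_, FiniteDimensional.fintypeBasisIndex b, b, fun i => i.1,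
    fun i => (gen_internal f).collectedBasis_mem _ i⟩

/-- Two elements which differ by a root of unity. -/
def RootEq (a b : K) : Prop := ∃ n : ℕ, 0 < n ∧ a ^ n = b ^ n

theorem RootEq.symm {a b : K} (h : RootEq a b) : RootEq b a := by
  obtain ⟨n, hn, h⟩ := h
  exact ⟨n, hn, h.symm⟩

theorem ext0_inv (θ : Additive Kˣ →+ K) {α : K} (hα : α ≠ 0) : ext0 θ α⁻¹ = -ext0 θ α := by
  have h := ext0_mul θ hα (inv_ne_zero hα)
  rw [mul_inv_cancel₀ hα, ext0_one] at h
  linear_combination -h

theorem ext0_rootEq (θ : Additive Kˣ →+ K) {a b : K} (h : RootEq a b) : ext0 θ a = ext0 θ b := by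
  obtain ⟨n, hn, h⟩ := h
  have h1 := ext0_pow θ a hn
  rw [h, ext0_pow θ b hn] at h1
  exact (mul_left_cancel₀ (Nat.cast_ne_zero.2 hn.ne') h1).symm

/-- An additive function which separates finitely many pairs of elements not differing by roots of
unity. -/
theorem exists_sep {J : Type} [Fintype J] (x y : J → K) (hx : ∀ j, x j ≠ 0) (hy : ∀ j, y j ≠ 0) :
    ∃ θ : Additive Kˣ →+ K, ∀ j, ext0 θ (x j) = ext0 θ (y j) → RootEq (x j) (y j) := by
  classical
  let X : Finset J := univ.filter fun j => ¬RootEq (x j) (y j)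
  obtain ⟨θ, -, hθ⟩ := exists_add_gen (K := K) ⊥ X
    (fun j => Units.mk0 (x j) (hx j) * (Units.mk0 (y j) (hy j))⁻¹) (by
      intro j hj k hk h
      rw [Finset.mem_filter] at hj
      apply hj.2
      rw [Subgroup.mem_bot, mul_pow, inv_pow, mul_inv_eq_one] at h
      exact ⟨k, hk, congrArg Units.val h⟩)
  refine ⟨θ, fun j hj => ?_⟩
  by_contra hcon
  apply hθ j (by rw [Finset.mem_filter]; exact ⟨mem_univ _, hcon⟩)
  rw [ofMul_mul, ofMul_inv, map_add, map_neg, ← ext0_ne θ (hx j), ← ext0_ne θ (hy j), hj,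
    add_neg_cancel]

/-- an eigenvalue -/
def IsEig {V : Type} [AddCommGroup V] [Module K V] (f : End K V) (β : K) : Prop :=
  ∃ x, x ≠ 0 ∧ f x = β • x

theorem isEig_of_gen {V : Type} [AddCommGroup V] [Module K V] {f : End K V} {β : K} {x : V}
    (hx : x ≠ 0) (h : x ∈ f.maxGenEigenspace β) : IsEig f β := by
  obtain ⟨n, hn⟩ := mem_gen.1 h
  induction n generalizing x with
  | zero => exact absurd hn hx
  | succ n ih =>
    by_cases h0 : (f - algebraMap K (End K V) β) x = 0
    · refine ⟨x, hx, ?_⟩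
      rw [LinearMap.sub_apply, Module.algebraMap_end_apply, sub_eq_zero] at h0
      exact h0
    · refine ih h0 (mem_gen.2 ⟨n, ?_⟩) ?_
      · rw [← Module.End.mul_apply, ← pow_succ]
        exact hn
      · rw [← Module.End.mul_apply, ← pow_succ]
        exact hn

/-- The vector `v` is an eigenvector of `f` for an isolated eigenvalue `a`, relative to `f'`; `m` is
the multiplier. -/
structure IsoF (f : End K T) (f' : End K E) (m a : K) (v : T) : Prop where
  ne : v ≠ 0
  eig : f v = a • v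
  simple : ∀ β, RootEq β a → ∀ x ∈ f.maxGenEigenspace β, x ∈ Submodule.span K {v}
  rel : ∀ β γ δ, IsEig f β → IsEig f γ → IsEig f δ → RootEq (a * δ) (β * γ) →
    RootEq β a ∨ RootEq γ a ∨ RootEq (a * δ) m
  rel' : ∀ β γ δ, IsEig f β → IsEig f' γ → IsEig f' δ → RootEq (a * δ) (β * γ) → RootEq β a

end Pool.Agent.Y130
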